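import Mathlib

set_option autoImplicit false

/-! ROW B4 (MEDIUM, only Mathlib). Chain rule for substitution in multivariate power series, finitely many variables.
 Compare Mathlib.RingTheory.PowerSeries.Derivative (derivative_subst). For polynomials h (coe): MvPolynomial induction (Derivation.leibniz, subst of a product). For general h and a fixed coefficient e: choose N > degree e + 1, split h = (polynomial truncation)
 + h' with all monomials of h' of total degree ≥ N + 1 (h' ∈ idealOfVars^(N+1) or order h' ≥ N+1): then subst F h', subst F (pderiv j h') have order ≥ N, so both sides have coefficient 0 at e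
 (MvPowerSeries.le_order_subst; constantCoeff (F j) = 0; pderiv lowers the order by at most 1). -/

namespace Pool.Agent.LibMF6

open MvPowerSeries

private theorem B4_poly {R : Type*} [CommRing R] {σ τ : Type*} [Fintype σ] (F : σ → MvPowerSeries τ R)
    (p : MvPolynomial σ R) (i : τ) :
    pderiv R i (MvPolynomial.aeval F p) = ∑ j, MvPolynomial.aeval F (MvPolynomial.pderiv j p) * pderiv R i (F j) := by
  classical
  induction p using MvPolynomial.induction_on with
  | C a =>
    have h1 : (MvPolynomial.aeval F (MvPolynomial.C a) : MvPowerSeries τ R) = C a := by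
      rw [MvPolynomial.aeval_C]; rfl
    rw [h1, pderiv_C]
    symm
    apply Finset.sum_eq_zero
    intro j _
    rw [MvPolynomial.pderiv_C, map_zero, zero_mul]
  | add p q hp hq =>
    rw [map_add, map_add, hp, hq, ← Finset.sum_add_distrib]
    refine Finset.sum_congr rfl fun j _ => ?_
    rw [map_add, map_add, add_mul]
  | mul_X p k hp =>
    rw [map_mul, Derivation.leibniz, hp, MvPolynomial.aeval_X, smul_eq_mul, smul_eq_mul, Finset.mul_sum]
    have h2 : ∀ j, MvPolynomial.aeval F (MvPolynomial.pderiv j (p * MvPolynomial.X k)) * pderiv R i (F j) =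
        (if j = k then MvPolynomial.aeval F p * pderiv R i (F k) else 0) +
          F k * (MvPolynomial.aeval F (MvPolynomial.pderiv j p) * pderiv R i (F j)) := by
      intro j
      rw [Derivation.leibniz, smul_eq_mul, smul_eq_mul, map_add, map_mul, map_mul, MvPolynomial.aeval_X]
      split_ifs with hjk
      · subst hjk
        rw [MvPolynomial.pderiv_X_self, map_one]
        ring
      · rw [MvPolynomial.pderiv_X_of_ne (Ne.symm hjk), map_zero]
        ring
    rw [Finset.sum_congr rfl (fun j _ => h2 j), Finset.sum_add_distrib, Finset.sum_ite_eq' Finset.univ k,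
      if_pos (Finset.mem_univ k)]

private theorem B4_order {R : Type*} [CommRing R] {σ τ : Type*} [Finite σ] (F : σ → MvPowerSeries τ R)
    (hF : ∀ j, constantCoeff (F j) = 0) (h : MvPowerSeries σ R) (N : ℕ) (hN : (N : ℕ∞) ≤ h.order) :
    (N : ℕ∞) ≤ (subst F h).order := by
  refine le_trans ?_ (le_order_subst (hasSubst_of_constantCoeff_zero hF) h)
  have h1 : (1 : ℕ∞) ≤ ⨅ i, (F i).order := le_iInf fun i => one_le_order_iff_constCoeff_eq_zero.2 (hF i)
  calc (N : ℕ∞) ≤ h.order := hN
    _ = 1 * h.order := (one_mul _).symm
    _ ≤ _ := mul_le_mul_left h1 _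

private theorem B4_pderiv {R : Type*} [CommRing R] {σ : Type*} (h : MvPowerSeries σ R) (N : ℕ)
    (hN : ((N + 1 : ℕ) : ℕ∞) ≤ h.order) (j : σ) : (N : ℕ∞) ≤ (pderiv R j h).order := by
  apply nat_le_order
  intro d hd
  rw [coeff_pderiv, coeff_of_lt_order, zero_mul]
  refine lt_of_lt_of_le ?_ hN
  rw [map_add, Finsupp.degree_single]
  exact_mod_cast Nat.succ_lt_succ hd

theorem pderiv_subst {R : Type*} [CommRing R] {σ τ : Type*} [Fintype σ] [Finite τ] (F : σ → MvPowerSeries τ R)
    (hF : ∀ j, constantCoeff (F j) = 0) (h : MvPowerSeries σ R) (i : τ) :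
    pderiv R i (subst F h) = ∑ j, subst F (pderiv R j h) * pderiv R i (F j) := by
  have hS : HasSubst F := hasSubst_of_constantCoeff_zero hF
  ext e
  set N := e.degree + 1 with hNdef
  set p : MvPolynomial σ R := truncTotal (N + 1) h with hp
  set r : MvPowerSeries σ R := h - (p : MvPowerSeries σ R) with hr
  have hsplit : h = (p : MvPowerSeries σ R) + r := by rw [hr]; ring
  have hord : ((N + 1 : ℕ) : ℕ∞) ≤ r.order := by
    apply nat_le_order
    intro d hd
    rw [hr, map_sub, MvPolynomial.coeff_coe, hp, coeff_truncTotal _ hd, sub_self]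
  have hrel : ∀ j, (N : ℕ∞) ≤ (pderiv R j r).order := B4_pderiv r N hord
  have h1 : coeff e (pderiv R i (subst F r)) = 0 := by
    apply coeff_of_lt_order
    refine lt_of_lt_of_le ?_ (B4_pderiv _ N (B4_order F hF r _ hord) i)
    exact_mod_cast Nat.lt_succ_self _
  have h2 : ∀ j, coeff e (subst F (pderiv R j r) * pderiv R i (F j)) = 0 := by
    intro j
    apply coeff_of_lt_order
    refine lt_of_lt_of_le ?_ (le_trans (le_trans (B4_order F hF _ _ (hrel j)) le_self_add) le_order_mul)
    exact_mod_cast Nat.lt_succ_self _
  rw [hsplit]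
  rw [subst_add hS, map_add, map_add, h1, add_zero, subst_coe, B4_poly, map_sum, map_sum]
  refine Finset.sum_congr rfl fun j _ => ?_
  rw [map_add, subst_add hS, add_mul, map_add, h2, add_zero, pderiv_coe, subst_coe]

end Pool.Agent.LibMF6
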