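import Mathlib

set_option autoImplicit false

/-! ROW A2a (MEDIUM, only Mathlib). Matrices over a commutative ring.
 adj_poly: adjugate of M is a polynomial in M. charmatrix M = X I - C M, adjugate (charmatrix M) * charmatrix M = charpoly • 1. With matPolyEquiv (as in the proof of Cayley-Hamilton) or coefficientwise:
   adjugate (charmatrix M) = ∑_j X^j B_j (B_j matrices over R), compare coefficients of X^j: B_(j-1) - B_j M = c_j 1 (B_j = 0 for large j), so by descending induction every B_j is a polynomial in M (with coefficients c_i);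
   put X = 0: adjugate (-M) = B_0, and adjugate (-M) = (-1)^(n-1) adjugate M (Matrix.adjugate_neg? or adjugate_smul (-1) M), so adjugate M is ± B_0. n = 0: everything is trivial (subsingleton).
 det_deriv (Jacobi): D (det M) = trace (adjugate M * D M): expand det as a sum over permutations (Matrix.det_apply), Derivation of a product (Derivation.leibniz_prod? or Finset induction), sum over the row i of det (updateRow M i (D M i))
   = ∑_j D M i j * adjugate M j i (Matrix.det_updateRow_eq_sum_.. / Matrix.cramer / adjugate_apply, det_updateRow linear: Matrix.det_eq_sum_mul_adjugate_row for the updated matrix). -/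

namespace Pool.Agent.LibMF6

open Polynomial

/-- the generic matrix: the adjugate is a polynomial in the matrix -/
private theorem A2a_generic (n : Type*) [Fintype n] [DecidableEq n] :
    ∃ p : (MvPolynomial (n × n) ℤ)[X], (Matrix.mvPolynomialX n n ℤ).adjugate =
      aeval (Matrix.mvPolynomialX n n ℤ) p := by
  set G := Matrix.mvPolynomialX n n ℤ with hG
  have h1 : aeval G G.charpoly = 0 := Matrix.aeval_self_charpoly G
  have h2 := Polynomial.divX_mul_X_add G.charpoly
  rw [← h2, map_add, map_mul, aeval_X, aeval_C] at h1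
  have h3 : G.det = (-1) ^ Fintype.card n * G.charpoly.coeff 0 :=
    Matrix.det_eq_sign_charpoly_coeff G
  refine ⟨-(C ((-1) ^ Fintype.card n) * G.charpoly.divX), ?_⟩
  rw [map_neg, map_mul, aeval_C]
  set c : MvPolynomial (n × n) ℤ := (-1) ^ Fintype.card n with hc
  set Q := aeval G G.charpoly.divX with hQ
  have h4 : (G.adjugate + algebraMap _ (Matrix n n (MvPolynomial (n × n) ℤ)) c * Q) * G = 0 := by
    rw [add_mul, Matrix.adjugate_mul, h3, mul_assoc, eq_neg_of_add_eq_zero_left h1, mul_neg, ← map_mul,
      ← Algebra.algebraMap_eq_smul_one, add_neg_cancel]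
  have h5 : G.det • (G.adjugate + algebraMap _ (Matrix n n (MvPolynomial (n × n) ℤ)) c * Q) = 0 := by
    have h6 := congrArg (fun A => A * G.adjugate) h4
    simp only [zero_mul] at h6
    rw [mul_assoc, Matrix.mul_adjugate, mul_smul_comm, mul_one] at h6
    exact h6
  have h7 : G.adjugate + algebraMap _ (Matrix n n (MvPolynomial (n × n) ℤ)) c * Q = 0 := by
    ext1 i j
    have h8 := congrFun (congrFun h5 i) j
    rw [Matrix.smul_apply, smul_eq_mul, Matrix.zero_apply] at h8
    rcases mul_eq_zero.1 h8 with h9 | h9
    · exact absurd h9 (Matrix.det_mvPolynomialX_ne_zero n ℤ)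
    · rw [h9, Matrix.zero_apply]
  exact eq_neg_of_add_eq_zero_left h7

theorem adj_poly {O : Type*} [CommRing O] {n : Type*} [Fintype n] [DecidableEq n] (M : Matrix n n O) :
    ∃ p : O[X], M.adjugate = aeval M p := by
  obtain ⟨p, hp⟩ := A2a_generic n
  set φ : MvPolynomial (n × n) ℤ →+* O :=
    ((MvPolynomial.aeval fun p : n × n => M p.1 p.2 : MvPolynomial (n × n) ℤ →ₐ[ℤ] O) :
      MvPolynomial (n × n) ℤ →+* O) with hφ
  have hM : φ.mapMatrix (Matrix.mvPolynomialX n n ℤ) = M := by
    ext i j
    simp [hφ, Matrix.mvPolynomialX]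
  refine ⟨p.map φ, ?_⟩
  have e : (algebraMap O (Matrix n n O)).comp φ =
      (φ.mapMatrix).comp (algebraMap (MvPolynomial (n × n) ℤ) (Matrix n n (MvPolynomial (n × n) ℤ))) := by
    refine RingHom.ext fun x => ?_
    ext1 i j
    simp only [RingHom.comp_apply, RingHom.mapMatrix_apply, Matrix.map_apply,
      Matrix.algebraMap_matrix_apply]
    split_ifs
    · simp
    · simp
  rw [aeval_def, eval₂_map, e, ← hM, ← Polynomial.hom_eval₂, ← RingHom.map_adjugate, hp, aeval_def]

private theorem A2a_prod {R O : Type*} [CommRing R] [CommRing O] [Algebra R O] {ι : Type*}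
    [DecidableEq ι] (D : Derivation R O O) (s : Finset ι) (f : ι → O) :
    D (∏ i ∈ s, f i) = ∑ i ∈ s, (∏ j ∈ s.erase i, f j) * D (f i) := by
  induction s using Finset.induction_on with
  | empty => simp
  | insert a s ha ih =>
    rw [Finset.prod_insert ha, D.leibniz, ih, Finset.sum_insert ha, Finset.erase_insert ha,
      smul_eq_mul, smul_eq_mul, Finset.mul_sum, add_comm]
    congr 1
    refine Finset.sum_congr rfl fun i hi => ?_
    have hai : a ≠ i := fun e => ha (e ▸ hi)
    rw [Finset.erase_insert_of_ne hai, Finset.prod_insert (fun h => ha (Finset.mem_of_mem_erase h)),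
      mul_assoc]

theorem det_deriv {R O : Type*} [CommRing R] [CommRing O] [Algebra R O] {n : Type*} [Fintype n] [DecidableEq n]
    (D : Derivation R O O) (M : Matrix n n O) : D M.det = (M.adjugate * Matrix.of fun i j => D (M i j)).trace := by
  have h1 : ∀ i : n, (M.updateCol i (fun k => D (M k i))).det =
      ∑ σ : Equiv.Perm n, Equiv.Perm.sign σ •
        ((∏ j ∈ Finset.univ.erase i, M (σ j) j) * D (M (σ i) i)) := by
    intro i
    rw [Matrix.det_apply]
    refine Finset.sum_congr rfl fun σ _ => ?_
    congr 1
    rw [← Finset.prod_erase_mul Finset.univ _ (Finset.mem_univ i), Matrix.updateCol_self]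
    congr 1
    refine Finset.prod_congr rfl fun j hj => ?_
    rw [Matrix.updateCol_ne (Finset.ne_of_mem_erase hj)]
  have h2 : D M.det = ∑ i : n, (M.updateCol i (fun k => D (M k i))).det := by
    rw [Matrix.det_apply, map_sum]
    rw [Finset.sum_congr rfl fun i _ => h1 i, Finset.sum_comm]
    refine Finset.sum_congr rfl fun σ _ => ?_
    rw [Units.smul_def, map_zsmul, A2a_prod, Finset.smul_sum]
    refine Finset.sum_congr rfl fun i _ => ?_
    rw [Units.smul_def]
  rw [h2, Matrix.trace]
  refine Finset.sum_congr rfl fun i _ => ?_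
  rw [← Matrix.cramer_apply, Matrix.cramer_eq_adjugate_mulVec, Matrix.diag_apply, Matrix.mul_apply]
  rfl

end Pool.Agent.LibMF6
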