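import Pool.Agent.LibMF6.Defs

set_option autoImplicit false

/-! ROW A1 (MEDIUM, Defs). The form `τ` on `B = O[x]/(P)`, `P` monic of degree `m ≥ 1` (Euler's formulas).
 tau P hP b = coeff (m-1) of the representative of degree < m (AdjoinRoot.modByMonicHom, AdjoinRoot.modByMonicHom_mk). So tau (mk f) = (f %ₘ P).coeff (m-1), tau (root^i) = 0 for i < m-1, tau (root^(m-1)) = 1.
 tau_mk_C: O-linearity. Dual basis: P = ∑_l p_l x^l; b_j := mk (∑_{i ≤ m-1-j} p_(i+j+1) x^i), j < m. Then root * b_j = b_(j-1) - p_j for j ≥ 1 (and root * b_0 = -p_0), b_(m-1) = 1.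
 tau(root^i * b_j) = δ_ij (i, j < m): for i = 0 b_j has degree m-1-j, leading coefficient 1: δ_0j. tau(root^(i+1) b_j) = tau(root^i b_(j-1)) - p_j tau(root^i) (j ≥ 1), resp. -p_0 tau(root^i) (j = 0); here tau(root^i) = 0
   for i < m - 1, and i + 1 < m: induction on i.
 tau_nondeg: b = ∑_j c_j b_j is not needed: let f = representative of b of degree e < m, f ≠ 0: tau(root^(m-1-e) b) = leading coefficient. Better: from tau(root^i b) = 0 for all i < m show successively that the coefficients m-1, m-2, .. of f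
   are 0. exists_gram: the matrix (tau(root^(i+j))) is unimodular: inverse = coordinates of the b_j (root^i-coefficients of b_j: p_(i+j+1)).
 trace_eq: Algebra.trace O B b = ∑_i (coordinate i of root^i b) and coordinate i of z = tau(z b_i) (dual basis); so trace b = tau(b ∑_i root^i b_i), and ∑_i x^i ∑_l p_(l+i+1) x^l = ∑_j (j+1) p_(j+1) x^j = P'.
   (Algebra.trace_eq_matrix_trace / LinearMap.trace_eq_matrix_trace with (AdjoinRoot.powerBasis' hP).basis.) -/

namespace Pool.Agent.LibMF6

open Polynomial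

variable {O : Type*} [CommRing O] (P : O[X]) (hP : P.Monic)

theorem tau_mk (f : O[X]) : tau P hP (AdjoinRoot.mk P f) = (f %ₘ P).coeff (P.natDegree - 1) := by
  simp only [tau, LinearMap.comp_apply, AdjoinRoot.modByMonicHom_mk, Polynomial.lcoeff_apply]

theorem A1_tau_mk_lt (f : O[X]) (h : f.degree < P.degree) :
    tau P hP (AdjoinRoot.mk P f) = f.coeff (P.natDegree - 1) := by
  nontriviality O
  rw [tau_mk, (modByMonic_eq_self_iff hP).mpr h]

theorem tau_root_pow (hm : 0 < P.natDegree) (i : ℕ) (hi : i < P.natDegree) :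
    tau P hP (AdjoinRoot.root P ^ i) = if i = P.natDegree - 1 then 1 else 0 := by
  nontriviality O
  have h1 : AdjoinRoot.root P ^ i = AdjoinRoot.mk P (X ^ i) := by
    rw [map_pow, AdjoinRoot.mk_X]
  have h2 : (X ^ i : O[X]).degree < P.degree := by
    rw [degree_X_pow, degree_eq_natDegree hP.ne_zero]
    exact_mod_cast hi
  rw [h1, A1_tau_mk_lt P hP _ h2, coeff_X_pow]
  by_cases h : i = P.natDegree - 1
  · rw [if_pos h, if_pos h.symm]
  · rw [if_neg h, if_neg (fun h' => h h'.symm)]

theorem tau_b0 (hm : 0 < P.natDegree) : tau P hP (b0 P) = 1 := by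
  rw [b0, tau_root_pow P hP hm _ (by omega), if_pos rfl]

/-- `A1_q P j` is `∑_i p_(i+j) x^i` -/
noncomputable def A1_q : ℕ → O[X]
  | 0 => P
  | j + 1 => divX (A1_q j)

theorem A1_q_coeff (j i : ℕ) : (A1_q P j).coeff i = P.coeff (i + j) := by
  induction j generalizing i with
  | zero => rfl
  | succ j ih =>
    rw [A1_q, coeff_divX, ih]
    congr 1
    omega

theorem A1_nontriv (hm : 0 < P.natDegree) : Nontrivial O := by
  rcases subsingleton_or_nontrivial O with h | h
  · exfalso
    have h1 : P = 0 := Subsingleton.elim _ _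
    rw [h1] at hm
    simp at hm
  · exact h

theorem A1_q_degree (j : ℕ) (hm : 0 < P.natDegree) : (A1_q P (j + 1)).degree < P.degree := by
  have := A1_nontriv P hm
  have hP0 : P ≠ 0 := by
    rintro rfl
    simp at hm
  rw [degree_eq_natDegree hP0, degree_lt_iff_coeff_zero]
  intro n hn
  rw [A1_q_coeff]
  exact coeff_eq_zero_of_natDegree_lt (by omega)

theorem A1_q_rec (j : ℕ) : A1_q P (j + 1) * X + C (P.coeff j) = A1_q P j := by
  have h := divX_mul_X_add (A1_q P j)
  rw [A1_q_coeff, zero_add] at h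
  exact h

theorem A1_root_mul (j : ℕ) : AdjoinRoot.root P * AdjoinRoot.mk P (A1_q P (j + 1)) =
    AdjoinRoot.mk P (A1_q P j) - AdjoinRoot.mk P (C (P.coeff j)) := by
  rw [← map_sub, ← AdjoinRoot.mk_X, ← map_mul]
  congr 1
  rw [← A1_q_rec P j]
  ring

theorem A1_tau_root (hm : 0 < P.natDegree) (i : ℕ) (hi : i + 1 < P.natDegree) (a : O) :
    tau P hP (AdjoinRoot.root P ^ i * AdjoinRoot.mk P (C a)) = 0 := by
  have h : AdjoinRoot.root P ^ i * AdjoinRoot.mk P (C a) = a • AdjoinRoot.root P ^ i := by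
    rw [Algebra.smul_def, mul_comm]
    rfl
  rw [h, map_smul, tau_root_pow P hP hm i (by omega), if_neg (by omega), smul_zero]

theorem A1_dual (hm : 0 < P.natDegree) : ∀ i j, i < P.natDegree → j < P.natDegree →
    tau P hP (AdjoinRoot.root P ^ i * AdjoinRoot.mk P (A1_q P (j + 1))) = if i = j then 1 else 0 := by
  intro i
  induction i with
  | zero =>
    intro j _ hj
    rw [pow_zero, one_mul, A1_tau_mk_lt P hP _ (A1_q_degree P j hm), A1_q_coeff]
    by_cases h : 0 = j
    · subst h
      rw [if_pos rfl]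
      have h1 : P.natDegree - 1 + (0 + 1) = P.natDegree := by omega
      rw [h1]
      exact hP.coeff_natDegree
    · rw [if_neg h]
      exact coeff_eq_zero_of_natDegree_lt (by omega)
  | succ i ih =>
    intro j hi hj
    have h1 : AdjoinRoot.root P ^ (i + 1) * AdjoinRoot.mk P (A1_q P (j + 1)) =
        AdjoinRoot.root P ^ i * AdjoinRoot.mk P (A1_q P j) - AdjoinRoot.root P ^ i * AdjoinRoot.mk P (C (P.coeff j)) := by
      rw [pow_succ, mul_assoc, A1_root_mul, mul_sub]
    rw [h1, map_sub, A1_tau_root P hP hm i hi, sub_zero]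
    cases j with
    | zero =>
      have h2 : AdjoinRoot.mk P (A1_q P 0) = 0 := AdjoinRoot.mk_self
      rw [h2, mul_zero, map_zero, if_neg (by omega)]
    | succ j =>
      rw [ih j (by omega) (by omega)]
      by_cases h : i = j
      · rw [if_pos h, if_pos (by omega)]
      · rw [if_neg h, if_neg (by omega)]

include hP in
theorem A1_expand (hm : 0 < P.natDegree) (z : AdjoinRoot P) :
    ∃ a : ℕ → O, z = ∑ i ∈ Finset.range P.natDegree, a i • AdjoinRoot.root P ^ i := by
  have := A1_nontriv P hm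
  obtain ⟨f, rfl⟩ := AdjoinRoot.mk_surjective z
  refine ⟨fun i => (f %ₘ P).coeff i, ?_⟩
  have h1 : AdjoinRoot.mk P f = AdjoinRoot.mk P (f %ₘ P) := by
    rw [AdjoinRoot.mk_eq_mk, modByMonic_eq_sub_mul_div, sub_sub_cancel]
    exact dvd_mul_right _ _
  have h2 : (f %ₘ P).natDegree < P.natDegree := by
    refine natDegree_modByMonic_lt f hP ?_
    rintro rfl
    simp at hm
  have h3 := as_sum_range' (f %ₘ P) P.natDegree h2
  rw [h1]
  conv_lhs => rw [h3]
  rw [map_sum]
  refine Finset.sum_congr rfl fun i _ => ?_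
  rw [← C_mul_X_pow_eq_monomial, map_mul, map_pow, AdjoinRoot.mk_X, Algebra.smul_def]
  rfl

theorem A1_two (hm : 0 < P.natDegree) (z : AdjoinRoot P) :
    z = ∑ j ∈ Finset.range P.natDegree,
      tau P hP (z * AdjoinRoot.mk P (A1_q P (j + 1))) • AdjoinRoot.root P ^ j := by
  obtain ⟨a, ha⟩ := A1_expand P hP hm z
  have h : ∀ j ∈ Finset.range P.natDegree, tau P hP (z * AdjoinRoot.mk P (A1_q P (j + 1))) = a j := by
    intro j hj
    rw [ha, Finset.sum_mul, map_sum]
    rw [Finset.sum_eq_single_of_mem j hj]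
    · rw [smul_mul_assoc, map_smul, A1_dual P hP hm j j (Finset.mem_range.mp hj) (Finset.mem_range.mp hj),
        if_pos rfl, smul_eq_mul, mul_one]
    · intro i hi hij
      rw [smul_mul_assoc, map_smul, A1_dual P hP hm i j (Finset.mem_range.mp hi) (Finset.mem_range.mp hj),
        if_neg hij, smul_zero]
  conv_lhs => rw [ha]
  refine Finset.sum_congr rfl fun j hj => ?_
  rw [h j hj]

theorem tau_nondeg (hm : 0 < P.natDegree) (b : AdjoinRoot P)
    (h : ∀ i < P.natDegree, tau P hP (AdjoinRoot.root P ^ i * b) = 0) : b = 0 := by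
  rw [A1_two P hP hm b]
  refine Finset.sum_eq_zero fun j hj => ?_
  obtain ⟨a, ha⟩ := A1_expand P hP hm (AdjoinRoot.mk P (A1_q P (j + 1)))
  have h1 : tau P hP (b * AdjoinRoot.mk P (A1_q P (j + 1))) = 0 := by
    rw [ha, Finset.mul_sum, map_sum]
    refine Finset.sum_eq_zero fun i hi => ?_
    rw [mul_smul_comm, map_smul, mul_comm, h i (Finset.mem_range.mp hi), smul_zero]
  rw [h1, zero_smul]

theorem A1_deriv :
    ∑ j ∈ Finset.range P.natDegree, X ^ j * A1_q P (j + 1) = derivative P := by
  ext n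
  rw [finsetSum_coeff, coeff_derivative]
  have h1 : ∀ j ∈ Finset.range P.natDegree, (X ^ j * A1_q P (j + 1)).coeff n =
      if j ≤ n then P.coeff (n + 1) else 0 := by
    intro j _
    rw [coeff_X_pow_mul']
    by_cases h : j ≤ n
    · rw [if_pos h, if_pos h, A1_q_coeff]
      congr 1
      omega
    · rw [if_neg h, if_neg h]
  rw [Finset.sum_congr rfl h1]
  by_cases hn : n < P.natDegree
  · rw [← Finset.sum_filter, Finset.sum_const]
    have h2 : Finset.filter (fun j => j ≤ n) (Finset.range P.natDegree) = Finset.range (n + 1) := by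
      ext j
      simp only [Finset.mem_filter, Finset.mem_range]
      omega
    rw [h2, Finset.card_range, nsmul_eq_mul, mul_comm]
    push_cast
    rfl
  · have h2 : P.coeff (n + 1) = 0 := coeff_eq_zero_of_natDegree_lt (by omega)
    rw [h2, zero_mul]
    refine Finset.sum_eq_zero fun j _ => ?_
    split_ifs <;> rfl

/-- dual basis -/
theorem exists_dual (hm : 0 < P.natDegree) : ∃ c : ℕ → AdjoinRoot P,
    (∀ i j, i < P.natDegree → j < P.natDegree → tau P hP (AdjoinRoot.root P ^ i * c j) = if i = j then 1 else 0) ∧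
    (∀ z : AdjoinRoot P, z = ∑ j ∈ Finset.range P.natDegree, tau P hP (z * c j) • AdjoinRoot.root P ^ j) ∧
    (∀ z : AdjoinRoot P, z = ∑ j ∈ Finset.range P.natDegree, tau P hP (z * AdjoinRoot.root P ^ j) • c j) ∧
    ∑ j ∈ Finset.range P.natDegree, AdjoinRoot.root P ^ j * c j = AdjoinRoot.mk P (derivative P) := by
  refine ⟨fun j => AdjoinRoot.mk P (A1_q P (j + 1)), A1_dual P hP hm, A1_two P hP hm, ?_, ?_⟩
  · intro z
    rw [← sub_eq_zero]
    refine tau_nondeg P hP hm _ ?_
    intro i hi
    rw [mul_sub, map_sub, Finset.mul_sum, map_sum,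
      Finset.sum_eq_single_of_mem i (Finset.mem_range.mpr hi)]
    · rw [mul_smul_comm, map_smul, A1_dual P hP hm i i hi hi, if_pos rfl, smul_eq_mul, mul_one,
        mul_comm z, sub_self]
    · intro j hj hij
      rw [mul_smul_comm, map_smul, A1_dual P hP hm i j hi (Finset.mem_range.mp hj),
        if_neg (fun h => hij h.symm), smul_zero]
  · rw [← A1_deriv P, map_sum]
    refine Finset.sum_congr rfl fun j _ => ?_
    rw [map_mul, map_pow, AdjoinRoot.mk_X]

theorem trace_eq (hm : 0 < P.natDegree) (b : AdjoinRoot P) :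
    Algebra.trace O (AdjoinRoot P) b = tau P hP (b * AdjoinRoot.mk P (derivative P)) := by
  classical
  have hb : ∀ i : Fin P.natDegree, (AdjoinRoot.powerBasisAux' hP) i = AdjoinRoot.root P ^ (i : ℕ) := by
    intro i
    exact (AdjoinRoot.powerBasis' hP).basis_eq_pow i
  have hc : ∀ (z : AdjoinRoot P) (i : Fin P.natDegree), (AdjoinRoot.powerBasisAux' hP).repr z i =
      tau P hP (z * AdjoinRoot.mk P (A1_q P ((i : ℕ) + 1))) := by
    intro z i
    have h1 : (AdjoinRoot.powerBasisAux' hP).coord i =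
        (tau P hP).comp (LinearMap.mulRight O (AdjoinRoot.mk P (A1_q P ((i : ℕ) + 1)))) := by
      refine (AdjoinRoot.powerBasisAux' hP).ext fun k => ?_
      rw [Module.Basis.coord_apply, Module.Basis.repr_self, LinearMap.comp_apply, LinearMap.mulRight_apply, hb,
        A1_dual P hP hm k i k.2 i.2, Finsupp.single_apply]
      by_cases h : k = i
      · rw [if_pos h, if_pos (by rw [h])]
      · rw [if_neg h, if_neg (fun h' => h (Fin.ext h'))]
    have h2 := LinearMap.congr_fun h1 z
    rw [Module.Basis.coord_apply, LinearMap.comp_apply, LinearMap.mulRight_apply] at h2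
    exact h2
  rw [Algebra.trace_eq_matrix_trace (AdjoinRoot.powerBasisAux' hP), Matrix.trace]
  have h3 : ∀ i : Fin P.natDegree, (Algebra.leftMulMatrix (AdjoinRoot.powerBasisAux' hP) b).diag i =
      tau P hP (b * (AdjoinRoot.root P ^ (i : ℕ) * AdjoinRoot.mk P (A1_q P ((i : ℕ) + 1)))) := by
    intro i
    rw [Matrix.diag_apply, Algebra.leftMulMatrix_eq_repr_mul, hc, hb, mul_assoc]
  rw [Finset.sum_congr rfl (fun i _ => h3 i), ← map_sum, ← Finset.mul_sum,
    Fin.sum_univ_eq_sum_range (fun i => AdjoinRoot.root P ^ i * AdjoinRoot.mk P (A1_q P (i + 1)))]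
  congr 2
  rw [← A1_deriv P, map_sum]
  refine Finset.sum_congr rfl fun j _ => ?_
  rw [map_mul, map_pow, AdjoinRoot.mk_X]

end Pool.Agent.LibMF6
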