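import Pool.Agent.LibMF6.A0
import Pool.Agent.LibMF6.A1
import Pool.Agent.LibMF6.A2a

set_option autoImplicit false

/-! ROW A2 (MEDIUM/LONG, A0, A1, A2a). Derivative of the norm `G = N_(B/O)(q)`, `B = O[x]/(P)`, `q = Q mod P`.
 bs := (AdjoinRoot.powerBasis' hP).basis (basis x^i, i < m), L := Algebra.leftMulMatrix bs : B → Mat_m(O) (ring hom, O-algebra). G = det (L q) (Algebra.norm_eq_matrix_det). C := L (root).
 By adj_poly: adjugate (L q) = aeval (L q) p = L (aeval q p) =: L r, and L q * L r = G, so q r = G (L injective: Algebra.leftMulMatrix_injective).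
 D G = trace (L r * D(L q)) (det_deriv; D entrywise). L q = ∑_i Q_i C^i (L is an algebra hom: L (aeval root Q) = aeval C Q), D(Q_i C^i) = (D Q_i) C^i + Q_i ∑_(a+b=i-1) C^a D(C) C^b.
   trace(L r * ∑ (D Q_i) C^i) = trace(L (r * mk (dC D Q))) = Algebra.trace (r * mk (dC D Q)) = tau(r * mk(dC D Q) * P') by trace_eq.
   trace(L r C^a D(C) C^b) = trace(C^b L r C^a D(C)) = trace(L(r root^(a+b)) D(C)); sum: trace(L (r * mk Q') D(C)).
   D(C): C e_j = e_(j+1) for j < m-1 (constant entries, D = 0), C e_(m-1) = -∑ p_l e_l: D(C) has only the last column, = -(D p_l)_l. trace(L z * D(C)) = (row m-1 of L z) applied to the vector -(D p_l)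
   = coordinate m-1 of -z * mk(dC D P) = -tau(z * mk (dC D P)), as dC D P = ∑_{l<m} (D p_l) x^l (D 1 = 0). QED -/

namespace Pool.Agent.LibMF6

open Polynomial

variable {R : Type*} [CommRing R] {O : Type*} [CommRing O] [Algebra R O]

private noncomputable def A2_dM (D : Derivation R O O) {n : Type*} (M : Matrix n n O) : Matrix n n O :=
  Matrix.of fun i j => D (M i j)

private theorem A2_dM_mul (D : Derivation R O O) {n : Type*} [Fintype n] (M N : Matrix n n O) :
    A2_dM D (M * N) = A2_dM D M * N + M * A2_dM D N := by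
  ext i j
  simp only [A2_dM, Matrix.of_apply, Matrix.mul_apply, Matrix.add_apply, map_sum,
    Derivation.leibniz, smul_eq_mul]
  rw [← Finset.sum_add_distrib]
  refine Finset.sum_congr rfl fun k _ => ?_
  ring

private theorem A2_dM_one (D : Derivation R O O) {n : Type*} [DecidableEq n] :
    A2_dM D (1 : Matrix n n O) = 0 := by
  ext i j
  simp only [A2_dM, Matrix.of_apply, Matrix.one_apply, Matrix.zero_apply]
  split_ifs
  · exact D.map_one_eq_zero
  · exact map_zero D

private theorem A2_dM_add (D : Derivation R O O) {n : Type*} (M N : Matrix n n O) :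
    A2_dM D (M + N) = A2_dM D M + A2_dM D N := by
  ext i j
  simp [A2_dM]

private theorem A2_dM_smul (D : Derivation R O O) {n : Type*} (c : O) (M : Matrix n n O) :
    A2_dM D (c • M) = D c • M + c • A2_dM D M := by
  ext i j
  simp only [A2_dM, Matrix.of_apply, Matrix.smul_apply, Matrix.add_apply,
    Derivation.leibniz, smul_eq_mul]
  ring

private theorem A2_pow (D : Derivation R O O) (P : O[X]) {n : Type*} [Fintype n] [DecidableEq n]
    (L : AdjoinRoot P →ₐ[O] Matrix n n O) (k : ℕ) : ∀ z : AdjoinRoot P,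
    (L z * A2_dM D (L (AdjoinRoot.root P) ^ k)).trace =
      (L (z * (k : AdjoinRoot P) * AdjoinRoot.root P ^ (k - 1)) *
        A2_dM D (L (AdjoinRoot.root P))).trace := by
  induction k with
  | zero =>
    intro z
    rw [pow_zero, A2_dM_one, Nat.cast_zero, mul_zero, mul_zero, zero_mul, map_zero, zero_mul]
  | succ k ih =>
    intro z
    rw [pow_succ, A2_dM_mul, mul_add, Matrix.trace_add, ← mul_assoc, ← mul_assoc,
      Matrix.trace_mul_comm (L z * A2_dM D (L (AdjoinRoot.root P) ^ k)) _, ← mul_assoc,
      ← map_mul, ih, ← map_pow, ← map_mul, ← Matrix.trace_add, ← add_mul, ← map_add]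
    congr 3
    rw [Nat.add_sub_cancel]
    rcases k with _ | k
    · simp
    · rw [Nat.add_sub_cancel]
      push_cast
      ring

private theorem A2_poly (D : Derivation R O O) (P : O[X]) {n : Type*} [Fintype n] [DecidableEq n]
    (L : AdjoinRoot P →ₐ[O] Matrix n n O) (z : AdjoinRoot P) (Q : O[X]) :
    (L z * A2_dM D (L (AdjoinRoot.mk P Q))).trace =
      (L (z * AdjoinRoot.mk P (dC D Q))).trace +
      (L (z * AdjoinRoot.mk P (derivative Q)) * A2_dM D (L (AdjoinRoot.root P))).trace := by
  induction Q using Polynomial.induction_on' with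
  | add f g hf hg =>
    rw [map_add, map_add, A2_dM_add, mul_add, Matrix.trace_add, hf, hg, dC_add, map_add,
      derivative_add, map_add, mul_add, mul_add, map_add, map_add, add_mul, Matrix.trace_add,
      Matrix.trace_add]
    ring
  | monomial k a =>
    have e1 : ∀ c : O, AdjoinRoot.mk P (monomial k c) = c • AdjoinRoot.root P ^ k := by
      intro c
      rw [← C_mul_X_pow_eq_monomial, map_mul, AdjoinRoot.mk_C, map_pow, AdjoinRoot.mk_X,
        Algebra.smul_def, AdjoinRoot.algebraMap_eq]
    have e2 : dC D (monomial k a) = monomial k (D a) := by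
      unfold dC
      rw [Polynomial.sum_monomial_index]
      rw [map_zero D, monomial_zero_right]
    have e3 : AdjoinRoot.mk P (derivative (monomial k a)) =
        a • ((k : AdjoinRoot P) * AdjoinRoot.root P ^ (k - 1)) := by
      rw [derivative_monomial, ← C_mul_X_pow_eq_monomial, map_mul, AdjoinRoot.mk_C, map_pow,
        AdjoinRoot.mk_X, map_mul, map_natCast, Algebra.smul_def, AdjoinRoot.algebraMap_eq, mul_assoc]
    rw [e2, e1, e1, e3, map_smul, map_pow, A2_dM_smul, mul_add, Matrix.trace_add,
      Matrix.mul_smul, Matrix.mul_smul, Matrix.trace_smul, Matrix.trace_smul, A2_pow,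
      mul_smul_comm, map_smul, Matrix.trace_smul, mul_smul_comm, map_smul, Matrix.smul_mul,
      Matrix.trace_smul]
    simp only [map_mul, map_pow, mul_assoc]

private theorem A2_root (D : Derivation R O O) (P : O[X]) (hP : P.Monic) (hm : 0 < P.natDegree)
    (z : AdjoinRoot P) :
    (Algebra.leftMulMatrix (AdjoinRoot.powerBasisAux' hP) z *
      A2_dM D (Algebra.leftMulMatrix (AdjoinRoot.powerBasisAux' hP) (AdjoinRoot.root P))).trace =
      -tau P hP (z * AdjoinRoot.mk P (dC D P)) := by
  classical
  have hbas : ∀ i : Fin P.natDegree, AdjoinRoot.powerBasisAux' hP i = AdjoinRoot.root P ^ (i : ℕ) :=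
    fun i => (AdjoinRoot.powerBasis' hP).basis_eq_pow i
  have hent : ∀ (w : AdjoinRoot P) (i j : Fin P.natDegree),
      Algebra.leftMulMatrix (AdjoinRoot.powerBasisAux' hP) w i j =
        (AdjoinRoot.modByMonicHom hP (w * AdjoinRoot.root P ^ (j : ℕ))).coeff i := by
    intro w i j
    rw [Algebra.leftMulMatrix_eq_repr_mul, hbas, AdjoinRoot.powerBasisAux'_repr_apply_to_fun]
  obtain ⟨l, hl⟩ : ∃ l : Fin P.natDegree, (l : ℕ) = P.natDegree - 1 :=
    ⟨⟨P.natDegree - 1, by omega⟩, rfl⟩
  -- the derivative of the companion matrix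
  have hC : ∀ i j : Fin P.natDegree,
      A2_dM D (Algebra.leftMulMatrix (AdjoinRoot.powerBasisAux' hP) (AdjoinRoot.root P)) i j =
        if j = l then -D (P.coeff i) else 0 := by
    intro i j
    rw [A2_dM, Matrix.of_apply, hent, ← pow_succ', ← AdjoinRoot.mk_X, ← map_pow,
      AdjoinRoot.modByMonicHom_mk]
    split_ifs with hj
    · have hj' : (j : ℕ) + 1 = P.natDegree := by rw [hj, hl]; omega
      rw [hj']
      have h1 : (X ^ P.natDegree : O[X]) %ₘ P = X ^ P.natDegree - P := by
        nontriviality O
        have h2 : (X ^ P.natDegree : O[X]) %ₘ P = (X ^ P.natDegree - P) %ₘ P := by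
          rw [sub_modByMonic, modByMonic_self hP, sub_zero]
        rw [h2, modByMonic_eq_self_iff hP]
        have h3 : (X ^ P.natDegree : O[X]).degree = P.degree := by
          rw [degree_X_pow, degree_eq_natDegree hP.ne_zero]
        have h4 := degree_sub_lt_left h3 (monic_X_pow P.natDegree).ne_zero
          (by rw [(monic_X_pow P.natDegree).leadingCoeff, hP.leadingCoeff])
        rwa [h3] at h4
      rw [h1, coeff_sub, coeff_X_pow, if_neg (by have := i.2; omega), zero_sub, map_neg]
    · have hj' : (j : ℕ) + 1 < P.natDegree := by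
        have := j.2
        have h5 : (j : ℕ) ≠ l := fun h => hj (Fin.ext h)
        omega
      have h1 : (X ^ ((j : ℕ) + 1) : O[X]) %ₘ P = X ^ ((j : ℕ) + 1) := by
        nontriviality O
        rw [modByMonic_eq_self_iff hP, degree_X_pow, degree_eq_natDegree hP.ne_zero]
        exact_mod_cast hj'
      rw [h1, coeff_X_pow]
      split_ifs
      · exact D.map_one_eq_zero
      · exact map_zero D
  have hdP : AdjoinRoot.mk P (dC D P) =
      ∑ i : Fin P.natDegree, D (P.coeff i) • AdjoinRoot.root P ^ (i : ℕ) := by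
    have h1 : dC D P = ∑ i ∈ Finset.range P.natDegree, monomial i (D (P.coeff i)) := by
      ext k
      rw [coeff_dC, finsetSum_coeff]
      simp only [coeff_monomial]
      rcases lt_trichotomy k P.natDegree with hk | hk | hk
      · rw [Finset.sum_eq_single k]
        · rw [if_pos rfl]
        · intro b _ hb
          rw [if_neg hb]
        · intro hk'
          exact absurd (Finset.mem_range.2 hk) hk'
      · rw [hk, hP.coeff_natDegree, D.map_one_eq_zero]
        symm
        apply Finset.sum_eq_zero
        intro b hb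
        rw [if_neg]
        have := Finset.mem_range.1 hb
        omega
      · rw [coeff_eq_zero_of_natDegree_lt hk, map_zero D]
        symm
        apply Finset.sum_eq_zero
        intro b hb
        rw [if_neg]
        have := Finset.mem_range.1 hb
        omega
    rw [h1, map_sum, ← Fin.sum_univ_eq_sum_range
      (fun i => AdjoinRoot.mk P (monomial i (D (P.coeff i))))]
    refine Finset.sum_congr rfl fun i _ => ?_
    rw [← C_mul_X_pow_eq_monomial, map_mul, AdjoinRoot.mk_C, map_pow, AdjoinRoot.mk_X,
      Algebra.smul_def, AdjoinRoot.algebraMap_eq]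
  rw [Matrix.trace]
  simp only [Matrix.diag_apply, Matrix.mul_apply]
  rw [Finset.sum_eq_single l]
  · have h1 : ∀ k : Fin P.natDegree,
        Algebra.leftMulMatrix (AdjoinRoot.powerBasisAux' hP) z l k =
          tau P hP (z * AdjoinRoot.root P ^ (k : ℕ)) := by
      intro k
      rw [hent, hl]
      rfl
    rw [hdP, Finset.mul_sum, map_sum, ← Finset.sum_neg_distrib]
    refine Finset.sum_congr rfl fun k _ => ?_
    rw [h1, hC, if_pos rfl, mul_smul_comm, map_smul, smul_eq_mul]
    ring
  · intro j _ hj
    apply Finset.sum_eq_zero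
    intro k _
    rw [hC, if_neg hj, mul_zero]
  · intro h
    exact absurd (Finset.mem_univ l) h

theorem exists_adj (P Q : O[X]) (hP : P.Monic) (hm : 0 < P.natDegree) :
    ∃ r : AdjoinRoot P, AdjoinRoot.mk P Q * r = algebraMap O (AdjoinRoot P) (GG P Q) ∧
      ∀ D : Derivation R O O, D (GG P Q) =
        tau P hP (r * AdjoinRoot.mk P (derivative P) * AdjoinRoot.mk P (dC D Q)) -
        tau P hP (r * AdjoinRoot.mk P (derivative Q) * AdjoinRoot.mk P (dC D P)) := by
  classical
  set L := Algebra.leftMulMatrix (AdjoinRoot.powerBasisAux' hP) with hL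
  obtain ⟨p, hp⟩ := adj_poly (L (AdjoinRoot.mk P Q))
  have hp' : (L (AdjoinRoot.mk P Q)).adjugate = L (aeval (AdjoinRoot.mk P Q) p) := by
    rw [hp]
    exact (aeval_algHom_apply L (AdjoinRoot.mk P Q) p)
  have hG : GG P Q = (L (AdjoinRoot.mk P Q)).det := Algebra.norm_eq_matrix_det _ _
  refine ⟨aeval (AdjoinRoot.mk P Q) p, ?_, fun D => ?_⟩
  · apply Algebra.leftMulMatrix_injective (AdjoinRoot.powerBasisAux' hP)
    rw [← hL, map_mul, ← hp', Matrix.mul_adjugate, ← hG, AlgHom.commutes,
      Algebra.algebraMap_eq_smul_one]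
  · have h1 : D (GG P Q) = (L (aeval (AdjoinRoot.mk P Q) p) *
        A2_dM D (L (AdjoinRoot.mk P Q))).trace := by
      rw [hG, det_deriv, hp']
      rfl
    rw [h1, A2_poly, hL, A2_root D P hP hm, ← Algebra.trace_eq_matrix_trace,
      trace_eq P hP hm, sub_eq_add_neg]
    congr 2
    ring

end Pool.Agent.LibMF6
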