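import Pool.Agent.LibMF6.A3

set_option autoImplicit false

/-! ROW A4 (MEDIUM, Defs, A1). LEMMA E (no relation on the image). K field of char 0, an O-algebra, ψ = algebraMap O K; lam : VV P → K O-linear, zero on W0. If ψ(G) = 0 then lam (e0 (b0)) = 0.
 Let c = lam(e0 b0). lam(e0 b) = ψ(τ b) c (e0_sub_mem of A3). With K1, K2: lam(0, b q, 0) = c ψ(τ(b P')), lam(0, 0, b q) = c ψ(τ(b Q')).
 Extend to K[x]: l1 : K[x] →ₗ[K] K, x^i ↦ lam(0, root^i, 0). For g in O[x]: l1(f * g.map ψ) is K-linear in f and for f = x^i equals lam(0, root^i * mk g, 0). So for all f in K[x] (by linearity, from f = x^i):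
   l1(f * P.map ψ) = 0, l1(f * Q.map ψ) = c T(f * P'.map ψ), T(f) := (f %ₘ P.map ψ).coeff (m-1) (K-linear, T(g.map ψ) = ψ(τ(mk g)): Polynomial.map_modByMonic); the same with l2: l2(f * Q.map ψ) = c T(f * Q'.map ψ).
 Suppose c ≠ 0. If P.map ψ ∣ z * Q.map ψ, then for every f: 0 = l1(f z Qψ) = c T(f z P'ψ), so T(f * (z P'ψ)) = 0 for all f, hence Pψ ∣ z P'ψ (tau_nondeg over K, or directly); the same Pψ ∣ z Q'ψ. By gcd_lemma Pψ, Qψ are coprime:
   then q is a unit in K[x]/(Pψ), norm over K is ≠ 0, and ψ(norm q) = norm_K(q) (det of the multiplication matrix, which is compatible with base change; or: 1 = u Pψ + v Qψ; resultant-free: use exists_adj-like argument: the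
   matrix L(q) mapped by ψ is the matrix of multiplication by Qψ on K[x]/(Pψ) in the basis x^i; its entries are coefficients of (x^j Q) %ₘ P). So ψ(G) ≠ 0, contradiction.
 gcd_lemma: h = gcd P Q, P = h P1, Q = h Q1, IsCoprime P1 Q1. z = P1: P ∣ P1 Q, so P ∣ P1 P', P ∣ P1 Q', i.e. h ∣ P', h ∣ Q'. P' = h' P1 + h P1' ⇒ h ∣ h' P1; Q' = h' Q1 + h Q1' ⇒ h ∣ h' Q1; so h ∣ h', degree: h' = 0, char 0: h constant. -/

namespace Pool.Agent.LibMF6

open Polynomial

theorem gcd_lemma {K : Type*} [Field K] [CharZero K] (P Q : K[X]) (hP : P ≠ 0)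
    (h1 : ∀ z : K[X], P ∣ z * Q → P ∣ z * derivative P) (h2 : ∀ z : K[X], P ∣ z * Q → P ∣ z * derivative Q) :
    IsCoprime P Q := by
  classical
  obtain ⟨h, hh⟩ : ∃ h, h = EuclideanDomain.gcd P Q := ⟨_, rfl⟩
  obtain ⟨P1, hP1⟩ : h ∣ P := by rw [hh]; exact EuclideanDomain.gcd_dvd_left P Q
  obtain ⟨Q1, hQ1⟩ : h ∣ Q := by rw [hh]; exact EuclideanDomain.gcd_dvd_right P Q
  have h0 : h ≠ 0 := by
    rintro rfl
    exact hP (by rw [hP1, zero_mul])
  have hP10 : P1 ≠ 0 := by
    rintro rfl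
    exact hP (by rw [hP1, mul_zero])
  obtain ⟨a, b, hab⟩ : ∃ a b, P1 * a + Q1 * b = 1 := by
    refine ⟨EuclideanDomain.gcdA P Q, EuclideanDomain.gcdB P Q, ?_⟩
    have h3 := EuclideanDomain.gcd_eq_gcd_ab P Q
    rw [← hh] at h3
    apply mul_left_cancel₀ h0
    rw [mul_one, mul_add, ← mul_assoc, ← mul_assoc, ← hP1, ← hQ1]
    exact h3.symm
  have hz : P ∣ P1 * Q := ⟨Q1, by rw [hP1, hQ1]; ring⟩
  have hdP : h ∣ derivative P := by
    obtain ⟨w, hw⟩ := h1 P1 hz
    refine ⟨w, ?_⟩
    apply mul_left_cancel₀ hP10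
    rw [hw]
    nth_rewrite 1 [hP1]
    ring
  have hdQ : h ∣ derivative Q := by
    obtain ⟨w, hw⟩ := h2 P1 hz
    refine ⟨w, ?_⟩
    apply mul_left_cancel₀ hP10
    rw [hw]
    nth_rewrite 1 [hP1]
    ring
  have e1 : h ∣ derivative h * P1 := by
    rw [hP1, derivative_mul] at hdP
    exact (dvd_add_left (Dvd.intro _ rfl)).1 hdP
  have e2 : h ∣ derivative h * Q1 := by
    rw [hQ1, derivative_mul] at hdQ
    exact (dvd_add_left (Dvd.intro _ rfl)).1 hdQ
  have e3 : h ∣ derivative h := by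
    have h4 : derivative h = derivative h * P1 * a + derivative h * Q1 * b := by
      calc derivative h = derivative h * (P1 * a + Q1 * b) := by rw [hab, mul_one]
        _ = _ := by ring
    rw [h4]
    exact dvd_add (Dvd.dvd.mul_right e1 a) (Dvd.dvd.mul_right e2 b)
  have e4 : derivative h = 0 := by
    by_contra hne
    have h5 := Polynomial.degree_le_of_dvd e3 hne
    exact absurd (Polynomial.degree_derivative_lt h0) (not_lt.2 h5)
  have e5 : h.natDegree = 0 := Polynomial.natDegree_eq_zero_of_derivative_eq_zero e4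
  have e6 : IsUnit h := by
    rw [Polynomial.eq_C_of_natDegree_eq_zero e5] at h0 ⊢
    rw [Polynomial.isUnit_C]
    refine isUnit_iff_ne_zero.2 fun h7 => h0 ?_
    rw [h7, C_0]
  rw [← EuclideanDomain.gcd_isUnit_iff, ← hh]
  exact e6

private theorem A4_det {O : Type*} [CommRing O] (P Q : O[X]) (hP : P.Monic) (n : ℕ)
    (hn : P.natDegree = n) :
    GG P Q = (Matrix.of fun i j : Fin n => ((Q * X ^ (j : ℕ)) %ₘ P).coeff (i : ℕ)).det := by
  subst hn
  unfold GG
  rw [Algebra.norm_eq_matrix_det (AdjoinRoot.powerBasis' hP).basis]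
  congr 1
  ext i j
  rw [Algebra.leftMulMatrix_eq_repr_mul, PowerBasis.basis_eq_pow]
  change (AdjoinRoot.powerBasisAux' hP).repr (AdjoinRoot.mk P Q * AdjoinRoot.root P ^ (j : ℕ)) i = _
  rw [AdjoinRoot.powerBasisAux'_repr_apply_to_fun, ← AdjoinRoot.mk_X, ← map_pow, ← map_mul,
    AdjoinRoot.modByMonicHom_mk]
  rfl

theorem norm_map {O : Type*} [CommRing O] {K : Type*} [Field K] [Algebra O K] (P Q : O[X]) (hP : P.Monic) :
    algebraMap O K (GG P Q) = GG (P.map (algebraMap O K)) (Q.map (algebraMap O K)) := by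
  rw [A4_det P Q hP P.natDegree rfl,
    A4_det (P.map (algebraMap O K)) (Q.map (algebraMap O K)) (hP.map _) P.natDegree
      (hP.natDegree_map _), RingHom.map_det]
  congr 1
  ext i j
  change algebraMap O K (((Q * X ^ (j : ℕ)) %ₘ P).coeff (i : ℕ)) =
    ((Q.map (algebraMap O K) * X ^ (j : ℕ)) %ₘ P.map (algebraMap O K)).coeff (i : ℕ)
  rw [← Polynomial.coeff_map, Polynomial.map_modByMonic _ hP, Polynomial.map_mul,
    Polynomial.map_pow, Polynomial.map_X]

theorem norm_ne_zero {K : Type*} [Field K] (P Q : K[X]) (hP : P.Monic) (h : IsCoprime P Q) : GG P Q ≠ 0 := by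
  obtain ⟨a, b, hab⟩ := h
  have h1 : AdjoinRoot.mk P b * AdjoinRoot.mk P Q = 1 := by
    rw [← map_mul, ← map_one (AdjoinRoot.mk P), ← hab, map_add, map_mul (AdjoinRoot.mk P) a P,
      AdjoinRoot.mk_self, mul_zero, zero_add]
  intro h0
  have h2 := congrArg (Algebra.norm K) h1
  rw [map_mul, map_one] at h2
  unfold GG at h0
  rw [h0, mul_zero] at h2
  exact zero_ne_one h2

/-- extension of an `O`-linear map on `O[x]` to `K[x]` -/
private noncomputable def A4_ext {O : Type*} [CommRing O] {K : Type*} [Field K] [Algebra O K]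
    (μ : O[X] →ₗ[O] K) : K[X] →ₗ[K] K :=
  (Polynomial.basisMonomials K).constr K (fun i => μ (X ^ i))

private theorem A4_mon {O : Type*} [CommRing O] {K : Type*} [Field K] [Algebra O K]
    (μ : O[X] →ₗ[O] K) (n : ℕ) (a : K) : A4_ext μ (monomial n a) = a * μ (X ^ n) := by
  have h1 : (monomial n a : K[X]) = a • (Polynomial.basisMonomials K) n := by
    rw [Polynomial.coe_basisMonomials, Polynomial.smul_monomial, smul_eq_mul, mul_one]
  rw [h1, map_smul, smul_eq_mul]
  congr 1
  unfold A4_ext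
  rw [Module.Basis.constr_basis]

private theorem A4_map {O : Type*} [CommRing O] {K : Type*} [Field K] [Algebra O K]
    (μ : O[X] →ₗ[O] K) (g : O[X]) : A4_ext μ (g.map (algebraMap O K)) = μ g := by
  induction g using Polynomial.induction_on' with
  | add p q hp hq => rw [Polynomial.map_add, map_add, map_add, hp, hq]
  | monomial n a =>
    rw [Polynomial.map_monomial, A4_mon, ← Polynomial.C_mul_X_pow_eq_monomial,
      ← Polynomial.smul_eq_C_mul, map_smul, Algebra.smul_def]

private theorem A4_id {O : Type*} [CommRing O] {K : Type*} [Field K] [Algebra O K]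
    (μ ν : O[X] →ₗ[O] K) (A B : O[X]) (c : K) (h : ∀ g, μ (g * A) = c * ν (g * B)) (f : K[X]) :
    A4_ext μ (f * A.map (algebraMap O K)) = c * A4_ext ν (f * B.map (algebraMap O K)) := by
  induction f using Polynomial.induction_on' with
  | add p q hp hq => rw [add_mul, add_mul, map_add, map_add, hp, hq, mul_add]
  | monomial n a =>
    have h1 : ∀ D : O[X], (monomial n a : K[X]) * D.map (algebraMap O K) =
        a • ((X ^ n * D).map (algebraMap O K)) := by
      intro D
      rw [Polynomial.map_mul, Polynomial.map_pow, Polynomial.map_X,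
        ← Polynomial.C_mul_X_pow_eq_monomial, Polynomial.smul_eq_C_mul, mul_assoc]
    rw [h1, h1, map_smul, map_smul, A4_map, A4_map, h, smul_eq_mul, smul_eq_mul]
    ring

theorem lemE {O : Type*} [CommRing O] (P Q : O[X]) (hP : P.Monic) (hm : 0 < P.natDegree)
    {K : Type*} [Field K] [CharZero K] [Algebra O K] (lam : VV P →ₗ[O] K) (hlam : ∀ v ∈ W0 P Q hP, lam v = 0)
    (hG : algebraMap O K (GG P Q) = 0) : lam (e0 P (b0 P)) = 0 := by
  classical
  by_contra hc
  obtain ⟨c, hcdef⟩ : ∃ c, c = lam (e0 P (b0 P)) := ⟨_, rfl⟩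
  rw [← hcdef] at hc
  -- the linear map `g ↦ τ(mk g)`
  let mkl : O[X] →ₗ[O] AdjoinRoot P := (AdjoinRoot.mkₐ P).toLinearMap
  have hmkl : ∀ g, mkl g = AdjoinRoot.mk P g := fun g => rfl
  let ν : O[X] →ₗ[O] K := (Algebra.linearMap O K).comp ((tau P hP).comp mkl)
  have hν : ∀ g, ν g = algebraMap O K (tau P hP (AdjoinRoot.mk P g)) := fun g => rfl
  let μ1 : O[X] →ₗ[O] K := lam.comp ((LinearMap.single O (fun _ : Fin 3 => AdjoinRoot P) 1).comp mkl)
  let μ2 : O[X] →ₗ[O] K := lam.comp ((LinearMap.single O (fun _ : Fin 3 => AdjoinRoot P) 2).comp mkl)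
  have hs1 : ∀ b : AdjoinRoot P, (LinearMap.single O (fun _ : Fin 3 => AdjoinRoot P) 1) b =
      (![0, b, 0] : VV P) := by
    intro b
    funext i
    fin_cases i <;> simp [LinearMap.single_apply]
  have hs2 : ∀ b : AdjoinRoot P, (LinearMap.single O (fun _ : Fin 3 => AdjoinRoot P) 2) b =
      (![0, 0, b] : VV P) := by
    intro b
    funext i
    fin_cases i <;> simp [LinearMap.single_apply]
  have hμ1 : ∀ g, μ1 g = lam (![0, AdjoinRoot.mk P g, 0] : VV P) := by
    intro g
    change lam ((LinearMap.single O (fun _ : Fin 3 => AdjoinRoot P) 1) (AdjoinRoot.mk P g)) = _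
    rw [hs1]
  have hμ2 : ∀ g, μ2 g = lam (![0, 0, AdjoinRoot.mk P g] : VV P) := by
    intro g
    change lam ((LinearMap.single O (fun _ : Fin 3 => AdjoinRoot P) 2) (AdjoinRoot.mk P g)) = _
    rw [hs2]
  have he0 : ∀ b, lam (e0 P b) = c * algebraMap O K (tau P hP b) := by
    intro b
    have h1 := hlam _ (e0_sub_mem P Q hP hm b)
    rw [map_sub, map_smul, ← hcdef, sub_eq_zero, Algebra.smul_def] at h1
    rw [h1, mul_comm]
  have hA1 : ∀ g, μ1 (g * Q) = c * ν (g * derivative P) := by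
    intro g
    have h1 := hlam _ (qe1_mem P Q hP (AdjoinRoot.mk P g))
    rw [map_sub, sub_eq_zero, he0] at h1
    rw [hμ1, hν, map_mul, map_mul, mul_comm (AdjoinRoot.mk P g) (AdjoinRoot.mk P Q), h1]
  have hA2 : ∀ g, μ2 (g * Q) = c * ν (g * derivative Q) := by
    intro g
    have h1 := hlam _ (qe2_mem P Q hP (AdjoinRoot.mk P g))
    rw [map_sub, sub_eq_zero, he0] at h1
    rw [hμ2, hν, map_mul, map_mul, mul_comm (AdjoinRoot.mk P g) (AdjoinRoot.mk P Q), h1]
  have hP0 : ∀ g, AdjoinRoot.mk P (g * P) = 0 := by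
    intro g
    rw [map_mul, AdjoinRoot.mk_self, mul_zero]
  have hz3 : (![0, 0, 0] : VV P) = 0 := by
    funext i
    fin_cases i <;> rfl
  have hB1 : ∀ g, μ1 (g * P) = 0 * ν (g * P) := by
    intro g
    rw [hμ1, hP0, hz3, map_zero, zero_mul]
  have hB2 : ∀ g, μ2 (g * P) = 0 * ν (g * P) := by
    intro g
    rw [hμ2, hP0, hz3, map_zero, zero_mul]
  have hPm : (P.map (algebraMap O K)).Monic := hP.map _
  have hnd : (P.map (algebraMap O K)).natDegree = P.natDegree := hP.natDegree_map _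
  -- the extension of `ν` is the form over `K`
  have hνK : ∀ f : K[X], A4_ext ν f =
      tau (P.map (algebraMap O K)) hPm (AdjoinRoot.mk (P.map (algebraMap O K)) f) := by
    intro f
    induction f using Polynomial.induction_on' with
    | add p q hp hq => rw [map_add, map_add, map_add, hp, hq]
    | monomial n a =>
      rw [A4_mon, hν, tau_mk, ← Polynomial.coeff_map, Polynomial.map_modByMonic _ hP,
        Polynomial.map_pow, Polynomial.map_X, ← hnd, ← tau_mk _ hPm, ← smul_eq_mul, ← map_smul]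
      congr 1
      rw [← Polynomial.C_mul_X_pow_eq_monomial, ← Polynomial.smul_eq_C_mul]
      rfl
  have hnondeg : ∀ y : K[X], (∀ f, A4_ext ν (f * y) = 0) → P.map (algebraMap O K) ∣ y := by
    intro y hy
    rw [← AdjoinRoot.mk_eq_zero]
    refine tau_nondeg _ hPm (by rw [hnd]; exact hm) _ ?_
    intro i hi
    rw [← AdjoinRoot.mk_X, ← map_pow, ← map_mul, ← hνK]
    exact hy _
  have key : ∀ (μ : O[X] →ₗ[O] K) (A : O[X]), (∀ g, μ (g * Q) = c * ν (g * A)) →
      (∀ g, μ (g * P) = 0 * ν (g * P)) → ∀ z : K[X],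
      P.map (algebraMap O K) ∣ z * Q.map (algebraMap O K) →
      P.map (algebraMap O K) ∣ z * A.map (algebraMap O K) := by
    intro μ A h1 h2 z hz
    obtain ⟨w, hw⟩ := hz
    refine hnondeg _ fun f => ?_
    have h3 := A4_id μ ν Q A c h1 (f * z)
    have h4 := A4_id μ ν P P 0 h2 (f * w)
    rw [zero_mul] at h4
    have h5 : f * z * Q.map (algebraMap O K) = f * w * P.map (algebraMap O K) := by
      rw [mul_assoc, hw]
      ring
    rw [h5, h4] at h3
    have h6 := h3.symm
    rw [mul_eq_zero] at h6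
    rcases h6 with h6 | h6
    · exact absurd h6 hc
    · rw [← mul_assoc]
      exact h6
  have hcop : IsCoprime (P.map (algebraMap O K)) (Q.map (algebraMap O K)) := by
    refine gcd_lemma _ _ hPm.ne_zero ?_ ?_
    · intro z hz
      rw [Polynomial.derivative_map]
      exact key μ1 (derivative P) hA1 hB1 z hz
    · intro z hz
      rw [Polynomial.derivative_map]
      exact key μ2 (derivative Q) hA2 hB2 z hz
  refine norm_ne_zero _ _ hPm hcop ?_
  rw [← norm_map P Q hP, hG]

end Pool.Agent.LibMF6
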