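import Pool.Agent.LibMF6.BDefs

set_option autoImplicit false

/-! More definitions for the bridge. -/

namespace Pool.Agent.LibMF6

open Polynomial

section

variable {R : Type*} [CommRing R] {n : ℕ}

/-- the relations in `S^2` (components: `e_1`, `e_2`): `S (-Q', P')` and `O (d_j Q, -d_j P)` -/
noncomputable def NS (a b : SR R n) (ha : MvPowerSeries.constantCoeff a = 0) (hb : MvPowerSeries.constantCoeff b = 0)
    (P Q : (OR R n)[X]) : Submodule R (Fin 2 → SR R n) :=
  Submodule.span R {v | (∃ c : SR R n, v = ![-(c * evO a b ha hb (derivative Q)), c * evO a b ha hb (derivative P)]) ∨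
    ∃ (j : Fin (n + 2)) (h : OR R n), v = ![FF a b ha hb h * evO a b ha hb (dC (dO j) Q),
      -(FF a b ha hb h * evO a b ha hb (dC (dO j) P))]}

end

section

variable {k : Type*} [Field k] {N : ℕ}

/-- the parameter `s` -/
noncomputable def sO (k : Type*) [Field k] (N : ℕ) : MvPowerSeries (Fin N) (PowerSeries k) :=
  MvPowerSeries.C (PowerSeries.X : PowerSeries k)

/-- `s V` -/
noncomputable def sTop (P : (MvPowerSeries (Fin N) (PowerSeries k))[X]) :
    Submodule (MvPowerSeries (Fin N) (PowerSeries k)) (VV P) :=
  LinearMap.range (LinearMap.lsmul (MvPowerSeries (Fin N) (PowerSeries k)) (VV P) (sO k N))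

end

end Pool.Agent.LibMF6
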