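import Mathlib

set_option autoImplicit false

/-! Mond's conjecture in corank one (MP_ed98ad_ag): definitions of the FAITH block (helper6, helper10).
 Page: L28_ed98ad_FAITH_helper6.md in the store. -/

namespace Pool.Agent.LibMF6

open Polynomial

/-! ### Abstract part: `O` a commutative ring, `P` a monic polynomial, `B = O[x]/(P)` -/

section abs

variable {O : Type*} [CommRing O]

/-- apply a function (with `d 0 = 0`) to all coefficients -/
noncomputable def dC (d : O → O) (f : O[X]) : O[X] := f.sum fun i c => monomial i (d c)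

variable (P Q : O[X]) (hP : P.Monic)

/-- `τ : B → O`, coefficient of `x^(m-1)` of the reduced representative -/
noncomputable def tau : AdjoinRoot P →ₗ[O] O :=
  (Polynomial.lcoeff O (P.natDegree - 1)).comp (AdjoinRoot.modByMonicHom hP)

/-- `b_0 = x^(m-1)` -/
noncomputable def b0 : AdjoinRoot P := AdjoinRoot.root P ^ (P.natDegree - 1)

/-- `B^3`, index 0: `e_y`, index 1: `e_(P')`, index 2: `e_(Q')` -/
abbrev VV := Fin 3 → AdjoinRoot P

/-- Koszul relations `q e_1 - P' e_0`, `q e_2 - Q' e_0`, `P' e_2 - Q' e_1` -/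
noncomputable def K1 : VV P := ![-AdjoinRoot.mk P (derivative P), AdjoinRoot.mk P Q, 0]
noncomputable def K2 : VV P := ![-AdjoinRoot.mk P (derivative Q), 0, AdjoinRoot.mk P Q]
noncomputable def K3 : VV P := ![0, -AdjoinRoot.mk P (derivative Q), AdjoinRoot.mk P (derivative P)]

/-- the element `b e_0` -/
noncomputable def e0 (b : AdjoinRoot P) : VV P := ![b, 0, 0]

/-- Koszul relations and `(ker τ) e_0` -/
noncomputable def W0 : Submodule O (VV P) :=
  Submodule.span O {v | (∃ b : AdjoinRoot P, v = b • K1 P Q) ∨ (∃ b : AdjoinRoot P, v = b • K2 P Q) ∨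
    (∃ b : AdjoinRoot P, v = b • K3 P Q) ∨ ∃ b : AdjoinRoot P, tau P hP b = 0 ∧ v = e0 P b}

/-- the vector `l b_0 e_0 + (dQ) e_1 - (dP) e_2` -/
noncomputable def wv (d : O → O) (l : O) : VV P :=
  ![l • b0 P, AdjoinRoot.mk P (dC d Q), -AdjoinRoot.mk P (dC d P)]

/-- the relations of `M` -/
noncomputable def WM {N : ℕ} (d : Fin N → O → O) (l : Fin N → O) : Submodule O (VV P) :=
  W0 P Q hP ⊔ Submodule.span O (Set.range fun j => wv P Q (d j) (l j))

/-- the relations of `Nn = T^1` -/
noncomputable def WN {N : ℕ} (d : Fin N → O → O) (l : Fin N → O) : Submodule O (VV P) :=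
  WM P Q hP d l ⊔ Submodule.span O (Set.range fun b : AdjoinRoot P => e0 P b)

/-- the module `M` -/
abbrev MM {N : ℕ} (d : Fin N → O → O) (l : Fin N → O) := VV P ⧸ WM P Q hP d l

/-- `G = N_(B/O)(q)` -/
noncomputable def GG : O := Algebra.norm O (AdjoinRoot.mk P Q)

/-- `φ(v) = G τ(v_0) + τ(r P' v_1) + τ(r Q' v_2)`, used with `q r = G` -/
noncomputable def phi (r : AdjoinRoot P) : VV P →ₗ[O] O :=
  GG P Q • (tau P hP).comp (LinearMap.proj 0) +
    (tau P hP).comp ((LinearMap.mulLeft O (r * AdjoinRoot.mk P (derivative P))).comp (LinearMap.proj 1)) +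
    (tau P hP).comp ((LinearMap.mulLeft O (r * AdjoinRoot.mk P (derivative Q))).comp (LinearMap.proj 2))

end abs

/-! ### Germs -/

section germs

variable (R : Type*) [CommRing R] {n p : ℕ}

/-- `tf(θ_n)`, the vector fields along `f` of the form `df ∘ ξ` -/
noncomputable def tf (f : Fin p → MvPowerSeries (Fin n) R) : Submodule R (Fin p → MvPowerSeries (Fin n) R) :=
  Submodule.span R (Set.range fun ξ : Fin n → MvPowerSeries (Fin n) R =>
    fun j => ∑ i, ξ i * MvPowerSeries.pderiv R i (f j))

/-- `ωf(θ_p)`, the vector fields along `f` of the form `η ∘ f` -/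
noncomputable def wf (f : Fin p → MvPowerSeries (Fin n) R) : Submodule R (Fin p → MvPowerSeries (Fin n) R) :=
  Submodule.span R (Set.range fun η : Fin p → MvPowerSeries (Fin p) R =>
    fun j => MvPowerSeries.subst f (η j))

/-- `θ(f) / (tf(θ_n) + ωf(θ_p))` -/
abbrev T1 (f : Fin p → MvPowerSeries (Fin n) R) := (Fin p → MvPowerSeries (Fin n) R) ⧸ (tf R f ⊔ wf R f)

/-- the germ `(x, u) ↦ (b(x,u), a(x,u), u)`; the source variable 0 is `x` -/
noncomputable def germ {n : ℕ} (a b : MvPowerSeries (Fin (n + 1)) R) : Fin (n + 2) → MvPowerSeries (Fin (n + 1)) R :=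
  Fin.cons b (Fin.cons a fun j : Fin n => MvPowerSeries.X j.succ)

end germs

section par

variable (k : Type*) [Field k] {σ : Type*}

/-- put `s = 0` -/
noncomputable def sp : MvPowerSeries σ (PowerSeries k) →+* MvPowerSeries σ k :=
  MvPowerSeries.map PowerSeries.constantCoeff

/-- the ideal of the relative partial derivatives -/
noncomputable def JJ (G : MvPowerSeries σ (PowerSeries k)) : Ideal (MvPowerSeries σ (PowerSeries k)) :=
  Ideal.span (Set.range fun j => MvPowerSeries.pderiv (PowerSeries k) j G)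

/-- the rank over `k[[s]]` of `(k[[s]][[y]]/(∂G/∂y_j))[1/G]`: number with multiplicity of the critical points of `g_s` off `g_s = 0` -/
noncomputable def siersma (G : MvPowerSeries σ (PowerSeries k)) : ℕ :=
  Module.finrank (PowerSeries k) (Localization.Away (Ideal.Quotient.mk (JJ k G) G))

end par

/-- all monomials have weight `d` -/
def IsWH {σ : Type*} {k : Type*} [Semiring k] (w : σ → ℕ) (d : ℕ) (f : MvPowerSeries σ k) : Prop :=
  ∀ e : σ →₀ ℕ, MvPowerSeries.coeff e f ≠ 0 → Finsupp.weight w e = d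

end Pool.Agent.LibMF6
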