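import Pool.Agent.LibMF6.Defs

set_option autoImplicit false

/-! ROW A0 (SHORT, Defs). Elementary facts on `dC` and on evaluation.
 coeff_dC: Polynomial.sum_def, finset_sum_coeff, coeff_monomial; if i is not in the support then f.coeff i = 0 and d 0 = 0.
 The others: compare coefficients (`Polynomial.ext`), coeff_mul for the Leibniz rule. -/

namespace Pool.Agent.LibMF6

open Polynomial

variable {R : Type*} [CommRing R] {O : Type*} [CommRing O] [Algebra R O]

theorem coeff_dC (D : Derivation R O O) (f : O[X]) (i : ℕ) : (dC D f).coeff i = D (f.coeff i) := by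
  unfold dC
  rw [Polynomial.sum_def, Polynomial.finsetSum_coeff]
  simp only [Polynomial.coeff_monomial]
  rw [Finset.sum_ite_eq' f.support i]
  split_ifs with h
  · rfl
  · rw [Polynomial.notMem_support_iff.1 h, map_zero]

theorem dC_add (D : Derivation R O O) (f g : O[X]) : dC D (f + g) = dC D f + dC D g := by
  ext i
  simp only [coeff_dC, coeff_add, map_add]

theorem dC_neg (D : Derivation R O O) (f : O[X]) : dC D (-f) = -dC D f := by
  ext i
  simp only [coeff_dC, coeff_neg, map_neg]

theorem dC_sub (D : Derivation R O O) (f g : O[X]) : dC D (f - g) = dC D f - dC D g := by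
  ext i
  simp only [coeff_dC, coeff_sub, map_sub]

theorem dC_mul (D : Derivation R O O) (f g : O[X]) : dC D (f * g) = dC D f * g + f * dC D g := by
  ext i
  rw [coeff_dC, coeff_add, coeff_mul, coeff_mul, coeff_mul, map_sum, ← Finset.sum_add_distrib]
  refine Finset.sum_congr rfl fun x _ => ?_
  rw [coeff_dC, coeff_dC, Derivation.leibniz, smul_eq_mul, smul_eq_mul]
  ring

theorem dC_C (D : Derivation R O O) (c : O) : dC D (C c) = C (D c) := by
  ext i
  rw [coeff_dC, coeff_C, coeff_C]
  split_ifs with h
  · rfl
  · exact map_zero _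

theorem dC_X (D : Derivation R O O) : dC D (X : O[X]) = 0 := by
  ext i
  rw [coeff_dC, coeff_X, coeff_zero]
  split_ifs with h
  · exact D.map_one_eq_zero
  · exact map_zero _

theorem dC_one (D : Derivation R O O) : dC D (1 : O[X]) = 0 := by
  rw [← C_1, dC_C, D.map_one_eq_zero, C_0]

/-- the derivative of a monic polynomial has smaller degree -/
theorem dC_degree (D : Derivation R O O) (P : O[X]) (hP : P.Monic) : (dC D P).degree < P.degree ∨ Subsingleton O := by
  rcases subsingleton_or_nontrivial O with h | h
  · exact Or.inr h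
  · left
    rw [Polynomial.degree_eq_natDegree hP.ne_zero, Polynomial.degree_lt_iff_coeff_zero]
    intro m hm
    rw [coeff_dC]
    rcases hm.eq_or_lt with h1 | h1
    · rw [← h1, hP.coeff_natDegree, D.map_one_eq_zero]
    · rw [Polynomial.coeff_eq_zero_of_natDegree_lt h1, map_zero]

/-- `R`-linearity -/
theorem dC_smul (D : Derivation R O O) (r : R) (f : O[X]) : dC D (r • f) = r • dC D f := by
  ext i
  rw [coeff_dC, coeff_smul, coeff_smul, coeff_dC, Derivation.map_smul]

theorem dC_sum (D : Derivation R O O) {I : Type*} (s : Finset I) (f : I → O[X]) :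
    dC D (∑ i ∈ s, f i) = ∑ i ∈ s, dC D (f i) := by
  ext i
  rw [coeff_dC, finsetSum_coeff, finsetSum_coeff, map_sum]
  simp only [coeff_dC]

/-- compatibility with ring homs -/
theorem dC_map {R' O' : Type*} [CommRing R'] [CommRing O'] [Algebra R' O'] (D : Derivation R O O)
    (D' : Derivation R' O' O') (φ : O →+* O') (h : ∀ c, φ (D c) = D' (φ c)) (f : O[X]) :
    (dC D f).map φ = dC D' (f.map φ) := by
  ext i
  rw [coeff_map, coeff_dC, coeff_dC, coeff_map, h]

theorem dC_derivative (D : Derivation R O O) (f : O[X]) : dC D (derivative f) = derivative (dC D f) := by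
  ext i
  rw [coeff_dC, coeff_derivative, coeff_derivative, coeff_dC, Derivation.leibniz]
  have h1 : D ((i : O) + 1) = 0 := by
    rw [map_add, D.map_natCast, D.map_one_eq_zero, add_zero]
  rw [h1, smul_zero, zero_add, smul_eq_mul, mul_comm]

end Pool.Agent.LibMF6
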