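import Pool.Agent.LibMF6.A1

set_option autoImplicit false

/-! ROW A3 (SHORT/MEDIUM, Defs, A1: tau_b0). r with q r = G. phi v = G τ(v_0) + τ(r P' v_1) + τ(r Q' v_2).
 phi_e0: definition. phi_W0: Submodule.span_induction; phi(b K1) = -G τ(b P') + τ(r P' b q) = 0 as r q = G (algebraMap), the same for K2; phi(b K3) = -τ(r P' b Q') + τ(r Q' b P') = 0; phi(b e_0) = G τ(b).
 G_smul: e0 b ∈ W0 + τ(b) e0(b0) because τ(b - τ(b) b0) = 0. For v = v_0 e_0 + v_1 e_1 + v_2 e_2: G v_1 e_1 = (r v_1) q e_1 ≡ (r v_1) P' e_0 modulo (r v_1) • K1, G v_2 e_2 ≡ (r v_2) Q' e_0 modulo (r v_2) • K2. So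
   G v ≡ e0 (G v_0 + r v_1 P' + r v_2 Q') ≡ τ(..) e0(b0) = phi(v) e0(b0) modulo W0.
 phi_wv: from the formula for D G (hypothesis hD). -/

namespace Pool.Agent.LibMF6

open Polynomial

variable {O : Type*} [CommRing O] (P Q : O[X]) (hP : P.Monic) (hm : 0 < P.natDegree) (r : AdjoinRoot P)
  (hr : AdjoinRoot.mk P Q * r = algebraMap O (AdjoinRoot P) (GG P Q))

private theorem A3_phi (v : VV P) : phi P Q hP r v = GG P Q * tau P hP (v 0) +
    tau P hP (r * AdjoinRoot.mk P (derivative P) * v 1) +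
    tau P hP (r * AdjoinRoot.mk P (derivative Q) * v 2) := rfl

include hr in
private theorem A3_G (z : AdjoinRoot P) :
    tau P hP (AdjoinRoot.mk P Q * r * z) = GG P Q * tau P hP z := by
  rw [hr, ← Algebra.smul_def, map_smul, smul_eq_mul]

private theorem A3_q1 (b : AdjoinRoot P) :
    (![0, AdjoinRoot.mk P Q * b, 0] : VV P) - e0 P (b * AdjoinRoot.mk P (derivative P)) ∈
      W0 P Q hP := by
  refine Submodule.subset_span (Or.inl ⟨b, ?_⟩)
  funext i
  fin_cases i
  · show 0 - b * AdjoinRoot.mk P (derivative P) = b * -AdjoinRoot.mk P (derivative P)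
    ring
  · show AdjoinRoot.mk P Q * b - 0 = b * AdjoinRoot.mk P Q
    ring
  · show (0 : AdjoinRoot P) - 0 = b * 0
    ring

private theorem A3_q2 (b : AdjoinRoot P) :
    (![0, 0, AdjoinRoot.mk P Q * b] : VV P) - e0 P (b * AdjoinRoot.mk P (derivative Q)) ∈
      W0 P Q hP := by
  refine Submodule.subset_span (Or.inr (Or.inl ⟨b, ?_⟩))
  funext i
  fin_cases i
  · show 0 - b * AdjoinRoot.mk P (derivative Q) = b * -AdjoinRoot.mk P (derivative Q)
    ring
  · show (0 : AdjoinRoot P) - 0 = b * 0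
    ring
  · show AdjoinRoot.mk P Q * b - 0 = b * AdjoinRoot.mk P Q
    ring

theorem phi_e0 (b : AdjoinRoot P) : phi P Q hP r (e0 P b) = GG P Q * tau P hP b := by
  rw [A3_phi]
  show GG P Q * tau P hP b + tau P hP (r * AdjoinRoot.mk P (derivative P) * 0) +
    tau P hP (r * AdjoinRoot.mk P (derivative Q) * 0) = GG P Q * tau P hP b
  rw [mul_zero, mul_zero, map_zero, add_zero, add_zero]

include hr in
theorem phi_W0 (v : VV P) (hv : v ∈ W0 P Q hP) : phi P Q hP r v = 0 := by
  induction hv using Submodule.span_induction with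
  | mem v hv =>
    rcases hv with ⟨b, rfl⟩ | ⟨b, rfl⟩ | ⟨b, rfl⟩ | ⟨b, hb, rfl⟩
    · rw [A3_phi]
      show GG P Q * tau P hP (b * -AdjoinRoot.mk P (derivative P)) +
        tau P hP (r * AdjoinRoot.mk P (derivative P) * (b * AdjoinRoot.mk P Q)) +
        tau P hP (r * AdjoinRoot.mk P (derivative Q) * (b * 0)) = 0
      have h1 : r * AdjoinRoot.mk P (derivative P) * (b * AdjoinRoot.mk P Q) =
          AdjoinRoot.mk P Q * r * (b * AdjoinRoot.mk P (derivative P)) := by ring
      rw [h1, A3_G P Q hP r hr, mul_zero, mul_zero, map_zero, add_zero, mul_neg, map_neg]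
      ring
    · rw [A3_phi]
      show GG P Q * tau P hP (b * -AdjoinRoot.mk P (derivative Q)) +
        tau P hP (r * AdjoinRoot.mk P (derivative P) * (b * 0)) +
        tau P hP (r * AdjoinRoot.mk P (derivative Q) * (b * AdjoinRoot.mk P Q)) = 0
      have h1 : r * AdjoinRoot.mk P (derivative Q) * (b * AdjoinRoot.mk P Q) =
          AdjoinRoot.mk P Q * r * (b * AdjoinRoot.mk P (derivative Q)) := by ring
      rw [h1, A3_G P Q hP r hr, mul_zero, mul_zero, map_zero, add_zero, mul_neg, map_neg]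
      ring
    · rw [A3_phi]
      show GG P Q * tau P hP (b * 0) +
        tau P hP (r * AdjoinRoot.mk P (derivative P) * (b * -AdjoinRoot.mk P (derivative Q))) +
        tau P hP (r * AdjoinRoot.mk P (derivative Q) * (b * AdjoinRoot.mk P (derivative P))) = 0
      have h1 : r * AdjoinRoot.mk P (derivative P) * (b * -AdjoinRoot.mk P (derivative Q)) =
          -(r * AdjoinRoot.mk P (derivative Q) * (b * AdjoinRoot.mk P (derivative P))) := by ring
      rw [h1, mul_zero, map_zero, mul_zero, zero_add, map_neg, neg_add_cancel]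
    · rw [phi_e0, hb, mul_zero]
  | zero => rw [map_zero]
  | add x y _ _ hx hy => rw [map_add, hx, hy, add_zero]
  | smul a x _ hx => rw [map_smul, hx, smul_zero]

theorem e0_sub_mem (hm : 0 < P.natDegree) (b : AdjoinRoot P) : e0 P b - tau P hP b • e0 P (b0 P) ∈ W0 P Q hP := by
  refine Submodule.subset_span (Or.inr (Or.inr (Or.inr ⟨b - tau P hP b • b0 P, ?_, ?_⟩)))
  · rw [map_sub, map_smul, tau_b0 P hP hm, smul_eq_mul, mul_one, sub_self]
  · funext i
    fin_cases i
    · rfl
    · show (0 : AdjoinRoot P) - tau P hP b • (0 : AdjoinRoot P) = 0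
      rw [smul_zero, sub_zero]
    · show (0 : AdjoinRoot P) - tau P hP b • (0 : AdjoinRoot P) = 0
      rw [smul_zero, sub_zero]

include hr hm in
theorem G_smul (v : VV P) : GG P Q • v - phi P Q hP r v • e0 P (b0 P) ∈ W0 P Q hP := by
  have hz : tau P hP (GG P Q • v 0 + r * v 1 * AdjoinRoot.mk P (derivative P) +
      r * v 2 * AdjoinRoot.mk P (derivative Q)) = phi P Q hP r v := by
    have e1 : r * v 1 * AdjoinRoot.mk P (derivative P) =
        r * AdjoinRoot.mk P (derivative P) * v 1 := by ring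
    have e2 : r * v 2 * AdjoinRoot.mk P (derivative Q) =
        r * AdjoinRoot.mk P (derivative Q) * v 2 := by ring
    rw [A3_phi, map_add, map_add, map_smul, smul_eq_mul, e1, e2]
  have h1 := e0_sub_mem P Q hP hm (GG P Q • v 0 + r * v 1 * AdjoinRoot.mk P (derivative P) +
      r * v 2 * AdjoinRoot.mk P (derivative Q))
  rw [hz] at h1
  have h2 := Submodule.add_mem _ (Submodule.add_mem _ h1 (A3_q1 P Q hP (r * v 1)))
    (A3_q2 P Q hP (r * v 2))
  have h3 : GG P Q • v - phi P Q hP r v • e0 P (b0 P) =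
      e0 P (GG P Q • v 0 + r * v 1 * AdjoinRoot.mk P (derivative P) +
        r * v 2 * AdjoinRoot.mk P (derivative Q)) - phi P Q hP r v • e0 P (b0 P) +
      (![0, AdjoinRoot.mk P Q * (r * v 1), 0] - e0 P (r * v 1 * AdjoinRoot.mk P (derivative P))) +
      (![0, 0, AdjoinRoot.mk P Q * (r * v 2)] - e0 P (r * v 2 * AdjoinRoot.mk P (derivative Q))) := by
    funext i
    fin_cases i
    · show GG P Q • v 0 - phi P Q hP r v • b0 P =
        (GG P Q • v 0 + r * v 1 * AdjoinRoot.mk P (derivative P) +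
          r * v 2 * AdjoinRoot.mk P (derivative Q)) - phi P Q hP r v • b0 P +
        (0 - r * v 1 * AdjoinRoot.mk P (derivative P)) +
        (0 - r * v 2 * AdjoinRoot.mk P (derivative Q))
      ring
    · show GG P Q • v 1 - phi P Q hP r v • (0 : AdjoinRoot P) =
        0 - phi P Q hP r v • (0 : AdjoinRoot P) + (AdjoinRoot.mk P Q * (r * v 1) - 0) + (0 - 0)
      rw [← mul_assoc, hr, ← Algebra.smul_def, smul_zero]
      ring
    · show GG P Q • v 2 - phi P Q hP r v • (0 : AdjoinRoot P) =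
        0 - phi P Q hP r v • (0 : AdjoinRoot P) + (0 - 0) + (AdjoinRoot.mk P Q * (r * v 2) - 0)
      rw [← mul_assoc, hr, ← Algebra.smul_def, smul_zero]
      ring
  rw [h3]
  exact h2

include hm in
theorem phi_wv (d : O → O) (l dG : O)
    (hD : dG = tau P hP (r * AdjoinRoot.mk P (derivative P) * AdjoinRoot.mk P (dC d Q)) -
        tau P hP (r * AdjoinRoot.mk P (derivative Q) * AdjoinRoot.mk P (dC d P))) :
    phi P Q hP r (wv P Q d l) = GG P Q * l + dG := by
  rw [A3_phi]
  show GG P Q * tau P hP (l • b0 P) +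
    tau P hP (r * AdjoinRoot.mk P (derivative P) * AdjoinRoot.mk P (dC d Q)) +
    tau P hP (r * AdjoinRoot.mk P (derivative Q) * -AdjoinRoot.mk P (dC d P)) = GG P Q * l + dG
  rw [map_smul, tau_b0 P hP hm, smul_eq_mul, mul_one, mul_neg, map_neg, hD]
  ring

/-- `b q e_0`-multiples: `q b e_1 ≡ b P' e_0`, `q b e_2 ≡ b Q' e_0` modulo `W0` -/
theorem qe1_mem (b : AdjoinRoot P) :
    (![0, AdjoinRoot.mk P Q * b, 0] : VV P) - e0 P (b * AdjoinRoot.mk P (derivative P)) ∈ W0 P Q hP := by
  exact A3_q1 P Q hP b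

theorem qe2_mem (b : AdjoinRoot P) :
    (![0, 0, AdjoinRoot.mk P Q * b] : VV P) - e0 P (b * AdjoinRoot.mk P (derivative Q)) ∈ W0 P Q hP := by
  exact A3_q2 P Q hP b

end Pool.Agent.LibMF6
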