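import Mathlib

set_option autoImplicit false

/-! ROW B1 (MEDIUM, only Mathlib). Power series rings over complete local rings are complete.
 pow_mem: R local, 𝔪 = maximal ideal of R⟦X⟧ = {f : coeff 0 f ∈ 𝔪_R} (nonunits: PowerSeries.isUnit_iff_constantCoeff). f ∈ 𝔪^N ↔ ∀ i < N, coeff i f ∈ 𝔪_R^(N-i).
   →: induction on N (Ideal.pow_succ, Submodule.mul_induction_on, coeff_mul: i + j = l, 𝔪_R^(N-i) * (𝔪_R^(1-j)) ≤ 𝔪_R^(N+1-l)). ←: f = ∑_{i<N} C(f_i) X^i + X^N * g, C(𝔪_R^k) ⊆ 𝔪^k (Ideal.map_pow, map ≤), X ∈ 𝔪.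
 complete_ps: Hausdorff: coeff i f ∈ ⋂_N 𝔪_R^(N-i) = 0 (IsHausdorff.haus; use SModEq.zero, smul_top for the ideal). Precomplete: a Cauchy sequence f_N (f_m ≡ f_n mod 𝔪^m for m ≤ n) gives for every i the Cauchy sequence N ↦ coeff i f_(N+i)
   in R (difference of N and N' ≥ N lies in 𝔪_R^N), limit L_i with coeff i f_(N+i) - L_i ∈ 𝔪_R^N; L = mk L_i; f_N - L ∈ 𝔪^N by pow_mem (coeff i f_N - L_i for i < N: use index N - i).
 complete_mv: induction on n: n = 0 (MvPowerSeries.isEmptyEquiv), n+1: MvPowerSeries.finSuccEquiv; transport IsAdicComplete along a ring isomorphism (maximal ideals correspond; IsAdicComplete of a ring over itself: write a small lemma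
   transfer: (e : A ≃+* B) [local A, B] IsAdicComplete (𝔪_A) A → IsAdicComplete (𝔪_B) B). Base ring PowerSeries k: complete_ps with R = k (field: 𝔪 = ⊥, IsAdicComplete.bot). -/

namespace Pool.Agent.LibMF6

open PowerSeries

private theorem B1_mem {R : Type*} [CommRing R] [IsLocalRing R] (f : R⟦X⟧) :
    f ∈ IsLocalRing.maximalIdeal (R⟦X⟧) ↔
      PowerSeries.constantCoeff f ∈ IsLocalRing.maximalIdeal R := by
  rw [IsLocalRing.mem_maximalIdeal, IsLocalRing.mem_maximalIdeal, mem_nonunits_iff,
    mem_nonunits_iff, PowerSeries.isUnit_iff_constantCoeff]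

private theorem B1_one {R : Type*} [CommRing R] [IsLocalRing R] (N : ℕ) :
    ∀ f : R⟦X⟧, f ∈ IsLocalRing.maximalIdeal (R⟦X⟧) ^ N →
      ∀ i, PowerSeries.coeff i f ∈ IsLocalRing.maximalIdeal R ^ (N - i) := by
  induction N with
  | zero =>
    intro f _ i
    rw [Nat.zero_sub, pow_zero, Ideal.one_eq_top]
    exact Submodule.mem_top
  | succ N ih =>
    intro f hf i
    rw [pow_succ] at hf
    induction hf using Submodule.mul_induction_on' with
    | mem_mul_mem a ha b hb =>
      rw [PowerSeries.coeff_mul]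
      refine Ideal.sum_mem _ fun p hp => ?_
      have h1 := Finset.HasAntidiagonal.mem_antidiagonal.1 hp
      have h2 := ih a ha p.1
      by_cases h3 : p.2 = 0
      · have h4 : PowerSeries.coeff p.2 b ∈ IsLocalRing.maximalIdeal R := by
          rw [h3, PowerSeries.coeff_zero_eq_constantCoeff]
          exact (B1_mem b).1 hb
        have h5 := Ideal.mul_mem_mul h2 h4
        rw [← pow_succ] at h5
        exact Ideal.pow_le_pow_right (by omega) h5
      · refine Ideal.mul_mem_right _ _ (Ideal.pow_le_pow_right ?_ h2)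
        omega
    | add x _ y _ hx hy =>
      rw [map_add]
      exact Ideal.add_mem _ hx hy

private theorem B1_two {R : Type*} [CommRing R] [IsLocalRing R] (N : ℕ) :
    ∀ f : R⟦X⟧, (∀ i < N, PowerSeries.coeff i f ∈ IsLocalRing.maximalIdeal R ^ (N - i)) →
      f ∈ IsLocalRing.maximalIdeal (R⟦X⟧) ^ N := by
  induction N with
  | zero =>
    intro f _
    rw [pow_zero, Ideal.one_eq_top]
    exact Submodule.mem_top
  | succ N ih =>
    intro f hf
    have hX : (PowerSeries.X : R⟦X⟧) ∈ IsLocalRing.maximalIdeal (R⟦X⟧) := by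
      rw [B1_mem, PowerSeries.constantCoeff_X]
      exact Ideal.zero_mem _
    have hC : ∀ c ∈ IsLocalRing.maximalIdeal R ^ (N + 1),
        (PowerSeries.C c : R⟦X⟧) ∈ IsLocalRing.maximalIdeal (R⟦X⟧) ^ (N + 1) := by
      intro c hc
      have h1 : Ideal.map (PowerSeries.C : R →+* R⟦X⟧) (IsLocalRing.maximalIdeal R) ≤
          IsLocalRing.maximalIdeal (R⟦X⟧) := by
        rw [Ideal.map_le_iff_le_comap]
        intro x hx
        rw [Ideal.mem_comap, B1_mem, PowerSeries.constantCoeff_C]
        exact hx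
      have h2 := Ideal.mem_map_of_mem (PowerSeries.C : R →+* R⟦X⟧) hc
      rw [Ideal.map_pow] at h2
      exact Ideal.pow_right_mono h1 (N + 1) h2
    rw [PowerSeries.eq_X_mul_shift_add_const f]
    refine Ideal.add_mem _ ?_ (hC _ ?_)
    · rw [pow_succ']
      refine Ideal.mul_mem_mul hX (ih _ fun i hi => ?_)
      rw [PowerSeries.coeff_mk]
      have h1 := hf (i + 1) (by omega)
      have h2 : N + 1 - (i + 1) = N - i := by omega
      rw [h2] at h1
      exact h1
    · have h1 := hf 0 (by omega)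
      rw [PowerSeries.coeff_zero_eq_constantCoeff] at h1
      exact h1

private theorem B1_smod {A : Type*} [CommRing A] (I : Ideal A) (n : ℕ) (x y : A) :
    x ≡ y [SMOD (I ^ n • ⊤ : Submodule A A)] ↔ x - y ∈ I ^ n := by
  rw [SModEq.sub_mem, smul_eq_mul, Ideal.mul_top]

private theorem B1_equiv {A B : Type*} [CommRing A] [CommRing B] [IsLocalRing A] [IsLocalRing B]
    (e : A ≃+* B) (n : ℕ) {x : A} (hx : x ∈ IsLocalRing.maximalIdeal A ^ n) :
    e x ∈ IsLocalRing.maximalIdeal B ^ n := by
  have h1 : Ideal.map (e : A →+* B) (IsLocalRing.maximalIdeal A) ≤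
      IsLocalRing.maximalIdeal B := by
    rw [Ideal.map_le_iff_le_comap]
    intro y hy
    rw [Ideal.mem_comap, IsLocalRing.mem_maximalIdeal, mem_nonunits_iff]
    rw [IsLocalRing.mem_maximalIdeal, mem_nonunits_iff] at hy
    intro h2
    apply hy
    have h3 : IsUnit (e.symm (e y)) := IsUnit.map e.symm h2
    rw [e.symm_apply_apply] at h3
    exact h3
  have h2 := Ideal.mem_map_of_mem (e : A →+* B) hx
  rw [Ideal.map_pow] at h2
  exact Ideal.pow_right_mono h1 n h2

private theorem B1_transfer {A B : Type*} [CommRing A] [CommRing B] [IsLocalRing A]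
    [IsLocalRing B] (e : A ≃+* B) (h : IsAdicComplete (IsLocalRing.maximalIdeal A) A) :
    IsAdicComplete (IsLocalRing.maximalIdeal B) B := by
  have hH := h.toIsHausdorff.haus'
  have hP := h.toIsPrecomplete.prec'
  refine { haus' := ?_, prec' := ?_ }
  · intro x hx
    have h1 : e.symm x = 0 := by
      apply hH
      intro n
      have h2 := (B1_smod _ n x 0).1 (hx n)
      rw [sub_zero] at h2
      rw [B1_smod, sub_zero]
      exact B1_equiv e.symm n h2
    rw [← e.apply_symm_apply x, h1, map_zero]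
  · intro f hf
    obtain ⟨L, hL⟩ := hP (fun n => e.symm (f n)) (by
      intro m n hmn
      rw [B1_smod, ← map_sub]
      exact B1_equiv e.symm m ((B1_smod _ m _ _).1 (hf hmn)))
    refine ⟨e L, fun n => ?_⟩
    have h1 := (B1_smod _ n _ _).1 (hL n)
    rw [B1_smod]
    have h2 : f n - e L = e (e.symm (f n) - L) := by
      rw [map_sub, e.apply_symm_apply]
    rw [h2]
    exact B1_equiv e n h1

theorem pow_mem {R : Type*} [CommRing R] [IsLocalRing R] (N : ℕ) (f : R⟦X⟧) :
    f ∈ IsLocalRing.maximalIdeal (R⟦X⟧) ^ N ↔ ∀ i < N, PowerSeries.coeff i f ∈ IsLocalRing.maximalIdeal R ^ (N - i) := by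
  exact ⟨fun h i _ => B1_one N f h i, B1_two N f⟩

theorem complete_ps {R : Type*} [CommRing R] [IsLocalRing R] (h : IsAdicComplete (IsLocalRing.maximalIdeal R) R) :
    IsAdicComplete (IsLocalRing.maximalIdeal (R⟦X⟧)) (R⟦X⟧) := by
  have hH := h.toIsHausdorff.haus'
  have hP := h.toIsPrecomplete.prec'
  refine { haus' := ?_, prec' := ?_ }
  · intro x hx
    ext i
    rw [map_zero]
    apply hH
    intro n
    have h2 := (B1_smod _ (n + i) x 0).1 (hx (n + i))
    rw [sub_zero] at h2
    have h3 := B1_one (n + i) x h2 i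
    rw [Nat.add_sub_cancel] at h3
    rw [B1_smod, sub_zero]
    exact h3
  · intro f hf
    have h1 : ∀ i : ℕ, ∃ L : R, ∀ n, PowerSeries.coeff i (f (n + i)) - L ∈
        IsLocalRing.maximalIdeal R ^ n := by
      intro i
      obtain ⟨L, hL⟩ := hP (fun n => PowerSeries.coeff i (f (n + i))) (by
        intro m n hmn
        rw [B1_smod, ← map_sub]
        have h2 := B1_one (m + i) _ ((B1_smod _ (m + i) _ _).1
          (hf (Nat.add_le_add_right hmn i))) i
        rw [Nat.add_sub_cancel] at h2
        exact h2)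
      exact ⟨L, fun n => (B1_smod _ n _ _).1 (hL n)⟩
    choose L hL using h1
    refine ⟨PowerSeries.mk L, fun n => ?_⟩
    rw [B1_smod]
    apply B1_two
    intro i hi
    rw [map_sub, PowerSeries.coeff_mk]
    have h2 := hL i (n - i)
    rw [Nat.sub_add_cancel hi.le] at h2
    exact h2

private theorem B1_gen (R : Type*) [CommRing R] [IsLocalRing R]
    (h : IsAdicComplete (IsLocalRing.maximalIdeal R) R) (n : ℕ) :
    IsAdicComplete (IsLocalRing.maximalIdeal (MvPowerSeries (Fin n) R))
      (MvPowerSeries (Fin n) R) := by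
  induction n with
  | zero => exact B1_transfer (MvPowerSeries.isEmptyEquiv (Fin 0) R).symm.toRingEquiv h
  | succ n ih =>
    exact B1_transfer (MvPowerSeries.finSuccEquiv R n).symm.toRingEquiv (complete_ps ih)

theorem complete_mv (k : Type*) [Field k] (n : ℕ) :
    IsAdicComplete (IsLocalRing.maximalIdeal (MvPowerSeries (Fin n) (PowerSeries k))) (MvPowerSeries (Fin n) (PowerSeries k)) := by
  have h0 : IsAdicComplete (IsLocalRing.maximalIdeal k) k := by
    rw [IsLocalRing.maximalIdeal_eq_bot]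
    infer_instance
  exact B1_gen (PowerSeries k) (complete_ps h0) n

end Pool.Agent.LibMF6
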