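import Pool.Agent.LibMF6.CDefs

set_option autoImplicit false

/-! ROW B10 (SHORT/MEDIUM, CDefs). s, y_1, .., y_N is a regular sequence of k[[s]][[y_1..y_N]] (elementary form).
 reg_s: C X * a = 0: coefficientwise. Let I_k := span (insert s {X_i | i < k}). Membership: a ∈ I_k ↔ ∀ monomial e with e i = 0 for all i < k: PowerSeries.X ∣ coeff e a.
   →: the set of such a is an ideal containing the generators (coeff e (X_i * c) = 0 if e i = 0). ←: induction on k (or direct): a = a' + X_(k-1) c where a' = the part of a without X_(k-1) (X_dvd_iff for a - a'), ..; for k = 0: a = C X * (coefficientwise quotient).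
   X_k a ∈ I_k ⇒ a ∈ I_k: coeff (e + single k 1) (X_k a) = coeff e a, and (e + single k 1) i = e i for i < k. -/

namespace Pool.Agent.LibMF6

theorem reg_s (k : Type*) [Field k] (N : ℕ) (a : MvPowerSeries (Fin N) (PowerSeries k)) (h : sO k N * a = 0) : a = 0 := by
  ext1 e
  have h1 := congrArg (MvPowerSeries.coeff e) h
  unfold sO at h1
  rw [MvPowerSeries.coeff_C_mul, map_zero] at h1
  rw [map_zero]
  rcases mul_eq_zero.mp h1 with h2 | h2
  · exact absurd h2 PowerSeries.X_ne_zero
  · exact h2

private theorem B10_dvd (k : Type*) [Field k] (N : ℕ) (a : MvPowerSeries (Fin N) (PowerSeries k))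
    (h : ∀ e : Fin N →₀ ℕ, (PowerSeries.X : PowerSeries k) ∣ MvPowerSeries.coeff e a) :
    ∃ c : MvPowerSeries (Fin N) (PowerSeries k), a = sO k N * c := by
  choose c hc using h
  refine ⟨fun e => c e, ?_⟩
  ext1 e
  unfold sO
  rw [MvPowerSeries.coeff_C_mul, hc e]
  rfl

private def B10_pred (k : Type*) [Field k] (N : ℕ) (m : ℕ) (a : MvPowerSeries (Fin N) (PowerSeries k)) : Prop :=
  ∀ e : Fin N →₀ ℕ, (∀ i : Fin N, i.val < m → e i = 0) → (PowerSeries.X : PowerSeries k) ∣ MvPowerSeries.coeff e a

private theorem B10_pred_of_mem (k : Type*) [Field k] (N : ℕ) (m : ℕ) (a : MvPowerSeries (Fin N) (PowerSeries k))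
    (h : a ∈ Ideal.span (insert (sO k N) {z | ∃ i : Fin N, i.val < m ∧ z = MvPowerSeries.X i})) :
    B10_pred k N m a := by
  classical
  induction h using Submodule.span_induction with
  | mem x hx =>
    intro e he
    rcases hx with rfl | ⟨i, hi, rfl⟩
    · unfold sO
      rw [MvPowerSeries.coeff_C]
      split_ifs
      · exact dvd_rfl
      · exact dvd_zero _
    · rw [MvPowerSeries.coeff_X, if_neg]
      · exact dvd_zero _
      · rintro rfl
        have h1 := he i hi
        rw [Finsupp.single_eq_same] at h1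
        exact one_ne_zero h1
  | zero =>
    intro e he
    rw [map_zero]
    exact dvd_zero _
  | add x y _ _ hx hy =>
    intro e he
    rw [map_add]
    exact dvd_add (hx e he) (hy e he)
  | smul c x _ hx =>
    intro e he
    rw [smul_eq_mul, MvPowerSeries.coeff_mul]
    refine Finset.dvd_sum (fun p hp => ?_)
    refine Dvd.dvd.mul_left (hx _ (fun i hi => ?_)) _
    have h1 := Finset.HasAntidiagonal.mem_antidiagonal.mp hp
    have h2 := he i hi
    rw [← h1, Finsupp.add_apply] at h2
    omega

private theorem B10_mem_of_pred (k : Type*) [Field k] (N : ℕ) (m : ℕ) (hm : m ≤ N) :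
    ∀ (a : MvPowerSeries (Fin N) (PowerSeries k)), B10_pred k N m a →
      a ∈ Ideal.span (insert (sO k N) {z | ∃ i : Fin N, i.val < m ∧ z = MvPowerSeries.X i}) := by
  classical
  induction m with
  | zero =>
    intro a h
    obtain ⟨c, rfl⟩ := B10_dvd k N a (fun e => h e (fun i hi => absurd hi (Nat.not_lt_zero _)))
    exact Ideal.mul_mem_right _ _ (Ideal.subset_span (Set.mem_insert _ _))
  | succ m ih =>
    intro a h
    have hmN : m < N := hm
    let a' : MvPowerSeries (Fin N) (PowerSeries k) := fun e => if e ⟨m, hmN⟩ = 0 then MvPowerSeries.coeff e a else 0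
    have ha' : ∀ e : Fin N →₀ ℕ, MvPowerSeries.coeff e a' = if e ⟨m, hmN⟩ = 0 then MvPowerSeries.coeff e a else 0 :=
      fun e => rfl
    have h1 : (MvPowerSeries.X ⟨m, hmN⟩ : MvPowerSeries (Fin N) (PowerSeries k)) ∣ a - a' := by
      rw [MvPowerSeries.X_dvd_iff]
      intro e he
      rw [map_sub, ha', if_pos he, sub_self]
    obtain ⟨c, hc⟩ := h1
    have h2 : a = a' + MvPowerSeries.X ⟨m, hmN⟩ * c := by
      rw [← hc]
      ring
    have h3 : a' ∈ Ideal.span (insert (sO k N) {z | ∃ i : Fin N, i.val < m ∧ z = MvPowerSeries.X i}) := by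
      refine ih (Nat.le_of_succ_le hm) a' (fun e he => ?_)
      rw [ha']
      split_ifs with h4
      · refine h e (fun i hi => ?_)
        rcases Nat.lt_succ_iff_lt_or_eq.mp hi with h5 | h5
        · exact he i h5
        · have h6 : i = ⟨m, hmN⟩ := Fin.ext h5
          rw [h6]
          exact h4
      · exact dvd_zero _
    rw [h2]
    refine Ideal.add_mem _ (Ideal.span_mono ?_ h3) (Ideal.mul_mem_right _ _ (Ideal.subset_span
      (Set.mem_insert_of_mem _ ⟨⟨m, hmN⟩, Nat.lt_succ_self m, rfl⟩)))
    refine Set.insert_subset_insert ?_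
    rintro z ⟨i, hi, rfl⟩
    exact ⟨i, Nat.lt_succ_of_lt hi, rfl⟩

theorem reg_y (k : Type*) [Field k] (N : ℕ) (j : Fin N) (a : MvPowerSeries (Fin N) (PowerSeries k))
    (h : MvPowerSeries.X j * a ∈ Ideal.span (insert (sO k N) {z | ∃ i : Fin N, i.val < j.val ∧ z = MvPowerSeries.X i})) :
    a ∈ Ideal.span (insert (sO k N) {z | ∃ i : Fin N, i.val < j.val ∧ z = MvPowerSeries.X i}) := by
  classical
  refine B10_mem_of_pred k N j.val (le_of_lt j.isLt) a (fun e he => ?_)
  have h1 := B10_pred_of_mem k N j.val _ h (e + Finsupp.single j 1) (fun i hi => by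
    have h2 : j ≠ i := by
      rintro rfl
      exact lt_irrefl _ hi
    rw [Finsupp.add_apply, he i hi, Finsupp.single_apply, if_neg h2, add_zero])
  rw [add_comm e] at h1
  unfold MvPowerSeries.X at h1
  rwa [MvPowerSeries.coeff_add_monomial_mul, one_mul] at h1

end Pool.Agent.LibMF6
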