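import Pool.Agent.LibMF6.B2w

set_option autoImplicit false

/-! Weierstrass data over R = k[[s]] (from `weier_dist`). -/

namespace Pool.Agent.LibMF6

open Polynomial

theorem weier (k : Type*) [Field k] (n : ℕ) (a b : SR (PowerSeries k) n) (ha : MvPowerSeries.constantCoeff a = 0)
    (hx : ∃ i, MvPowerSeries.coeff (Finsupp.single 0 i) (sp k a) ≠ 0) :
    ∃ P' φ : (SR (PowerSeries k) n)[X], Weier a b ha P' φ := by
  obtain ⟨P', φ, h, _⟩ := weier_dist k n a b ha hx
  exact ⟨P', φ, h⟩

end Pool.Agent.LibMF6
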