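import Mathlib

set_option autoImplicit false

/-! ROW B2a (MEDIUM, only Mathlib). Kernel of the substitution `X_i ↦ c`, `c` not involving `X_i`.
 U c := Function.update X i c : σ → MvPowerSeries σ R. HasSubst (U c) if constantCoeff c = 0 (hasSubst_of_constantCoeff_zero). hc : subst (U 0) c = c means: c does not involve X_i.
 ker0: subst (U 0) f = 0 ↔ X_i ∣ f. (X_dvd_iff : X s ∣ φ ↔ ∀ m, m s = 0 → coeff m φ = 0.) coeff m (subst (U 0) f) = if m i = 0 then coeff m f else 0: (MvPowerSeries.coeff_subst, finsum; the product ∏ (U 0 s)^(d s) is 0 if d i ≠ 0 and monomial d 1 otherwise)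
   or: f = f0 + X_i g with f0 = the part without X_i (define by coefficients), subst f0 = f0 by .. (choose the simplest).
 translation: θ c := subst (fun j => if j = i then X i + c else X j). θ(-c) (θ c f) = f: subst_comp_subst_apply; subst (θ(-c)-vector) c = c because c does not involve X_i: c = subst (U 0) c, and subst(θ(-c)) ∘ subst(U 0) = subst (U 0)
   (vectors: subst(θ(-c)) (U 0 j) = U 0 j). subst (U c) f = subst (U 0) (θ c f): the vectors agree: subst (U 0) (X i + c) = 0 + c. So subst (U c) f = 0 ↔ X i ∣ θ c f ↔ (apply θ(-c), ring hom, θ(-c)(X i) = X i - c) (X i - c) ∣ f. -/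

namespace Pool.Agent.LibMF6

open MvPowerSeries

variable {R : Type*} [CommRing R] {σ : Type*} [Finite σ] [DecidableEq σ]

private theorem B2a_hasU (i : σ) (c : MvPowerSeries σ R) (hc0 : constantCoeff c = 0) :
    HasSubst (Function.update (fun j => (X j : MvPowerSeries σ R)) i c) := by
  apply hasSubst_of_constantCoeff_zero
  intro s
  by_cases h : s = i
  · subst h
    rw [Function.update_self]
    exact hc0
  · rw [Function.update_of_ne h]
    exact constantCoeff_X s

/-- the translation vector -/
private noncomputable def B2a_V (i : σ) (c : MvPowerSeries σ R) : σ → MvPowerSeries σ R :=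
  fun j => if j = i then X i + c else X j

private theorem B2a_hasV (i : σ) (c : MvPowerSeries σ R) (hc0 : constantCoeff c = 0) :
    HasSubst (B2a_V i c) := by
  apply hasSubst_of_constantCoeff_zero
  intro s
  unfold B2a_V
  by_cases h : s = i
  · rw [if_pos h, map_add, hc0, constantCoeff_X, add_zero]
  · rw [if_neg h]
    exact constantCoeff_X s

omit [Finite σ] in
private theorem B2a_prod (i : σ) (d : σ →₀ ℕ) :
    (d.prod fun s e => (Function.update (fun j => (X j : MvPowerSeries σ R)) i 0 s) ^ e) =
      if d i = 0 then monomial d 1 else 0 := by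
  by_cases h : d i = 0
  · rw [if_pos h, monomial_one_eq]
    unfold Finsupp.prod
    refine Finset.prod_congr rfl fun s hs => ?_
    have hsi : s ≠ i := by
      intro e
      rw [e] at hs
      exact (Finsupp.mem_support_iff.1 hs) h
    beta_reduce
    rw [Function.update_of_ne hsi]
  · rw [if_neg h]
    unfold Finsupp.prod
    apply Finset.prod_eq_zero (Finsupp.mem_support_iff.2 h)
    beta_reduce
    rw [Function.update_self, zero_pow h]

private theorem B2a_coef (i : σ) (f : MvPowerSeries σ R) (m : σ →₀ ℕ) :
    coeff m (subst (Function.update (fun j => (X j : MvPowerSeries σ R)) i 0) f) =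
      if m i = 0 then coeff m f else 0 := by
  rw [coeff_subst (B2a_hasU i 0 (map_zero _))]
  simp only [B2a_prod]
  rw [finsum_eq_single _ m]
  · by_cases h : m i = 0
    · rw [if_pos h, if_pos h, coeff_monomial_same, smul_eq_mul, mul_one]
    · rw [if_neg h, if_neg h, map_zero, smul_zero]
  · intro d hd
    by_cases h : d i = 0
    · rw [if_pos h, coeff_monomial_ne hd.symm, smul_zero]
    · rw [if_neg h, map_zero, smul_zero]

theorem ker0 (i : σ) (f : MvPowerSeries σ R) :
    subst (Function.update (fun j => (X j : MvPowerSeries σ R)) i 0) f = 0 ↔ X i ∣ f := by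
  rw [X_dvd_iff]
  constructor
  · intro h m hm
    have h1 := B2a_coef i f m
    rw [h, if_pos hm, map_zero] at h1
    exact h1.symm
  · intro h
    ext m
    rw [B2a_coef, map_zero]
    by_cases hm : m i = 0
    · rw [if_pos hm, h m hm]
    · rw [if_neg hm]

/-- `c` is not changed by a translation -/
private theorem B2a_fix (i : σ) (c d : MvPowerSeries σ R) (hd0 : constantCoeff d = 0)
    (hc : subst (Function.update (fun j => (X j : MvPowerSeries σ R)) i 0) c = c) :
    subst (B2a_V i d) c = c := by
  have h1 : subst (B2a_V i d) (subst (Function.update (fun j => (X j : MvPowerSeries σ R)) i 0) c) =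
      subst (Function.update (fun j => (X j : MvPowerSeries σ R)) i 0) c := by
    rw [subst_comp_subst_apply (B2a_hasU i 0 (map_zero _)) (B2a_hasV i d hd0)]
    congr 1
    funext s
    by_cases h : s = i
    · subst h
      rw [Function.update_self, ← substAlgHom_apply (B2a_hasV s d hd0), map_zero]
    · rw [Function.update_of_ne h, subst_X (B2a_hasV i d hd0)]
      unfold B2a_V
      rw [if_neg h]
  rw [hc] at h1
  exact h1

theorem ker_subst (i : σ) (c : MvPowerSeries σ R) (hc0 : constantCoeff c = 0)
    (hc : subst (Function.update (fun j => (X j : MvPowerSeries σ R)) i 0) c = c) (f : MvPowerSeries σ R) :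
    subst (Function.update (fun j => (X j : MvPowerSeries σ R)) i c) f = 0 ↔ (X i - c) ∣ f := by
  have hU0 := B2a_hasU (R := R) i 0 (map_zero _)
  have hV := B2a_hasV i c hc0
  have hn0 : constantCoeff (-c) = 0 := by rw [map_neg, hc0, neg_zero]
  have hV' := B2a_hasV i (-c) hn0
  have h1 : subst (Function.update (fun j => (X j : MvPowerSeries σ R)) i c) f =
      subst (Function.update (fun j => (X j : MvPowerSeries σ R)) i 0) (subst (B2a_V i c) f) := by
    rw [subst_comp_subst_apply hV hU0]
    congr 1
    funext s
    unfold B2a_V
    by_cases h : s = i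
    · subst h
      rw [Function.update_self, if_pos rfl, subst_add hU0, subst_X hU0, Function.update_self, hc,
        zero_add]
    · rw [Function.update_of_ne h, if_neg h, subst_X hU0, Function.update_of_ne h]
  have h2 : subst (B2a_V i (-c)) (subst (B2a_V i c) f) = f := by
    rw [subst_comp_subst_apply hV hV']
    have e : (fun s => subst (B2a_V i (-c)) (B2a_V i c s)) = (X : σ → MvPowerSeries σ R) := by
      funext s
      by_cases h : s = i
      · subst h
        have e1 : B2a_V s c s = X s + c := by
          unfold B2a_V
          rw [if_pos rfl]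
        have e2 : B2a_V s (-c) s = X s + -c := by
          unfold B2a_V
          rw [if_pos rfl]
        rw [e1, subst_add hV', subst_X hV', e2, B2a_fix s c (-c) hn0 hc, add_assoc, neg_add_cancel,
          add_zero]
      · have e1 : B2a_V i c s = X s := by
          unfold B2a_V
          rw [if_neg h]
        have e2 : B2a_V i (-c) s = X s := by
          unfold B2a_V
          rw [if_neg h]
        rw [e1, subst_X hV', e2]
    rw [e, subst_self]
    rfl
  rw [h1, ker0]
  constructor
  · rintro ⟨g, hg⟩
    rw [← h2, hg, subst_mul hV', subst_X hV']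
    have e2 : B2a_V i (-c) i = X i - c := by
      unfold B2a_V
      rw [if_pos rfl, sub_eq_add_neg]
    rw [e2]
    exact dvd_mul_right _ _
  · rintro ⟨g, rfl⟩
    rw [subst_mul hV, subst_sub hV, subst_X hV, B2a_fix i c c hc0 hc]
    have e1 : B2a_V i c i = X i + c := by
      unfold B2a_V
      rw [if_pos rfl]
    rw [e1, add_sub_cancel_right]
    exact dvd_mul_right _ _

end Pool.Agent.LibMF6
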