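import Pool.Agent.LibMF6.BDefs

set_option autoImplicit false

/-! ROW B2b. The identification R[[X_0,..,X_p]] = R[[X_1..X_p]][[X_0]] and substitutions. -/

namespace Pool.Agent.LibMF6

open Polynomial

variable {R : Type*} [CommRing R] {p : ℕ}

theorem hs_s : MvPowerSeries.HasSubst (fun j : Fin p => (MvPowerSeries.X j.succ : MvPowerSeries (Fin (p + 1)) R)) :=
  MvPowerSeries.hasSubst_of_constantCoeff_zero (by intro s; simp)

private theorem B2b_emb (x : Fin p →₀ ℕ) :
    Finsupp.embDomain (Fin.succEmb p) x = Finsupp.cons 0 x := by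
  ext i
  refine Fin.cases ?_ (fun j => ?_) i
  · rw [Finsupp.cons_zero, Finsupp.embDomain_of_notMem_range]
    rintro ⟨j, hj⟩
    exact Fin.succ_ne_zero j hj
  · rw [Finsupp.cons_succ]
    exact Finsupp.embDomain_apply_self (Fin.succEmb p) x j

theorem fs_C (h : MvPowerSeries (Fin p) R) :
    MvPowerSeries.finSuccEquiv R p (MvPowerSeries.substAlgHom (hs_s (R := R) (p := p)) h) = PowerSeries.C h := by
  have e1 : MvPowerSeries.substAlgHom (hs_s (R := R) (p := p)) h =
      MvPowerSeries.rename (Fin.succEmb p) h := by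
    rw [MvPowerSeries.rename_eq_subst, MvPowerSeries.substAlgHom_apply]
    rfl
  ext k x
  rw [MvPowerSeries.coeff_coeff_finSuccEquiv, e1, PowerSeries.coeff_C]
  by_cases hk : k = 0
  · subst hk
    rw [if_pos rfl, ← B2b_emb, MvPowerSeries.coeff_embDomain_rename]
  · rw [if_neg hk, map_zero]
    refine MvPowerSeries.coeff_rename_eq_zero (Fin.succEmb p) h ?_
    rintro ⟨y, hy⟩
    rw [← Finsupp.embDomain_eq_mapDomain, B2b_emb] at hy
    have h1 := DFunLike.congr_fun hy 0
    rw [Finsupp.cons_zero, Finsupp.cons_zero] at h1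
    exact hk h1.symm

theorem fs_poly (H : (MvPowerSeries (Fin p) R)[X]) :
    MvPowerSeries.finSuccEquiv R p (Polynomial.eval₂
      ((MvPowerSeries.substAlgHom (hs_s (R := R) (p := p))).toRingHom) (MvPowerSeries.X 0) H) = (H : PowerSeries (MvPowerSeries (Fin p) R)) := by
  have h1 : ((MvPowerSeries.finSuccEquiv R p : MvPowerSeries (Fin (p + 1)) R →+*
      PowerSeries (MvPowerSeries (Fin p) R))).comp (Polynomial.eval₂RingHom
      ((MvPowerSeries.substAlgHom (hs_s (R := R) (p := p))).toRingHom) (MvPowerSeries.X 0)) =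
      Polynomial.coeToPowerSeries.ringHom := by
    refine Polynomial.ringHom_ext ?_ ?_
    · intro a
      rw [RingHom.comp_apply, Polynomial.coe_eval₂RingHom, Polynomial.eval₂_C,
        Polynomial.coeToPowerSeries.ringHom_apply, Polynomial.coe_C]
      exact fs_C a
    · rw [RingHom.comp_apply, Polynomial.coe_eval₂RingHom, Polynomial.eval₂_X,
        Polynomial.coeToPowerSeries.ringHom_apply, Polynomial.coe_X]
      exact MvPowerSeries.finSuccEquiv_X_zero
  exact RingHom.congr_fun h1 H

end Pool.Agent.LibMF6
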