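import Pool.Agent.LibMF6.A0
import Pool.Agent.LibMF6.B1
import Pool.Agent.LibMF6.B2a
import Pool.Agent.LibMF6.B2b

set_option autoImplicit false

/-! ROW B2 (LONG, A0, B1, B2a, B2b, BDefs). Weierstrass data over R = k[[s]] (PowerSeries k).
 S = SR R n = R[[x,u]] (x = variable 0), also A1 := SR R n = R[[X,u]]. M2 := MvPowerSeries (Fin (n+2)) R = R[[x,X,u]] (x = 0, X = 1, u_j = j+2), e : M2 ≃ PowerSeries A1 = A1[[T]] (finSuccEquiv R (n+1), x ↦ T).
 j' : S → M2, subst (x ↦ X 0, u_j ↦ X (j+2)) (injective, β' j' = id); β' : M2 → S, subst (X 0 ↦ x, X 1 ↦ a, X (j+2) ↦ u_j). j' ∘ β' = subst (Function.update X 1 (j' a)), so β' f = 0 ↔ (X 1 - j' a) ∣ f (ker_subst; j' a does not involve X 1).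
   β' is surjective. β'(subst (X∘succ) h) = alp a h for h in A1 (compare on variables: subst_comp_subst).
 g := e (j' a - X 1) in A1[[T]]. Its reduction modulo the maximal ideal of A1 is ≠ 0: the coefficient of T^i is (coeff of x^i in j' a) - X if i = 0 ..; modulo 𝔪 (constant coefficient in all variables of A1, and s = 0) the coefficient of T^i is
   coeff (single 0 i) (sp k a) (minus 0): ≠ 0 for some i by hx. (A1 local: IsUnit z ↔ constantCoeff in k[[s]] unit ↔ constant coefficient of that ≠ 0.) The coefficient of T^0 lies in 𝔪 (ha), so the order is ≥ 1.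
 PowerSeries.exists_isWeierstrassFactorization (complete by complete_mv): g = P' * h, P' distinguished (monic), h a unit; natDegree P' = order of g mod 𝔪 ≥ 1.
 evS a ha H = β'(e⁻¹ (H : PowerSeries A1)) (fs_poly: e⁻¹ of a polynomial is its evaluation; β' of it = evS). surj: IsWeierstrassFactorization.algEquivQuotient : A1[X]/(P') ≃ A1[[T]]/(g): every f in A1[[T]] is ≡ a polynomial modulo g, β' e⁻¹ kills g and is
   surjective. ker: evS H = 0 ↔ e⁻¹ H is divisible by X 1 - j' a ↔ g ∣ (H : A1[[T]]) ↔ P' ∣ H (injectivity of the same equivalence; P' ∣ g in A1[[T]]).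
 φ := (a preimage of b under evS) %ₘ P'. unit: D := coefficientwise ∂/∂X on A1[[T]] (or MvPowerSeries.pderiv R 1 on M2, e-transported; e⁻¹ of (dC D P') = pderiv 1 (e⁻¹ P')): from e⁻¹P' * e⁻¹h = j' a - X 1:
   pderiv 1 (e⁻¹P') * e⁻¹h + e⁻¹P' * (..) = -1 (pderiv 1 (j' a) = 0), apply β' : evS(dC D P') * β'(e⁻¹ h) = -1. QED
 Feel free to split into private lemmas; the file may be delivered in two files if convenient. -/

namespace Pool.Agent.LibMF6

open Polynomial

section

variable {R : Type*} [CommRing R] {n : ℕ}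

/-- `0 ↦ 0`, `j + 1 ↦ j + 2` -/
private noncomputable def B2_io (n : ℕ) : Fin (n + 1) ↪ Fin (n + 2) :=
  Fin.succAboveEmb (1 : Fin (n + 2))

private theorem B2_io_zero : B2_io n 0 = 0 := by
  show (1 : Fin (n + 2)).succAbove 0 = 0
  exact Fin.succ_succAbove_zero (0 : Fin (n + 1))

private theorem B2_io_succ (j : Fin n) : B2_io n j.succ = j.succ.succ := by
  show (1 : Fin (n + 2)).succAbove j.succ = j.succ.succ
  have h := Fin.succ_succAbove_succ (0 : Fin (n + 1)) j
  rw [Fin.zero_succAbove] at h
  exact h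

private theorem B2_io_ne (j : Fin (n + 1)) : B2_io n j ≠ 1 :=
  Fin.succAbove_ne (1 : Fin (n + 2)) j

/-- `j'` -/
private noncomputable def B2_j (R : Type*) [CommRing R] (n : ℕ) :
    SR R n →ₐ[R] MvPowerSeries (Fin (n + 2)) R :=
  MvPowerSeries.rename (B2_io n)

private theorem B2_j_X (i : Fin (n + 1)) :
    B2_j R n (MvPowerSeries.X i) = MvPowerSeries.X (B2_io n i) :=
  MvPowerSeries.rename_X _ i

/-- the vector of `β'` -/
private noncomputable def B2_B (a : SR R n) : Fin (n + 2) → SR R n :=
  Fin.cons (MvPowerSeries.X 0) (fa a)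

private theorem B2_hs (a : SR R n) (ha : MvPowerSeries.constantCoeff a = 0) :
    MvPowerSeries.HasSubst (B2_B a) :=
  MvPowerSeries.hasSubst_of_constantCoeff_zero (by
    intro s
    refine Fin.cases ?_ (fun j => ?_) s
    · simp [B2_B]
    · refine Fin.cases ?_ (fun i => ?_) j
      · simpa [B2_B, fa] using ha
      · simp [B2_B, fa])

/-- `β'` -/
private noncomputable def B2_be (a : SR R n) (ha : MvPowerSeries.constantCoeff a = 0) :
    MvPowerSeries (Fin (n + 2)) R →ₐ[R] SR R n :=
  MvPowerSeries.substAlgHom (B2_hs a ha)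

private theorem B2_be_X (a : SR R n) (ha : MvPowerSeries.constantCoeff a = 0)
    (i : Fin (n + 2)) : B2_be a ha (MvPowerSeries.X i) = B2_B a i :=
  MvPowerSeries.substAlgHom_X (B2_hs a ha) i

private theorem B2_be_j (a : SR R n) (ha : MvPowerSeries.constantCoeff a = 0) (f : SR R n) :
    B2_be a ha (B2_j R n f) = f := by
  have h1 : B2_j R n f = f.subst (MvPowerSeries.X ∘ B2_io n) :=
    MvPowerSeries.rename_eq_subst _ f
  have h2 : B2_be a ha (B2_j R n f) = MvPowerSeries.subst (B2_B a) (B2_j R n f) := by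
    unfold B2_be
    rw [MvPowerSeries.coe_substAlgHom]
  rw [h2, h1, MvPowerSeries.subst_comp_subst_apply (MvPowerSeries.HasSubst.X_comp _) (B2_hs a ha)]
  have h3 : (fun s => MvPowerSeries.subst (B2_B a) ((MvPowerSeries.X ∘ B2_io n : _ → MvPowerSeries (Fin (n + 2)) R) s)) =
      (MvPowerSeries.X : Fin (n + 1) → MvPowerSeries (Fin (n + 1)) R) := by
    funext s
    show MvPowerSeries.subst (B2_B a) (MvPowerSeries.X (B2_io n s) : MvPowerSeries (Fin (n + 2)) R) = _
    rw [MvPowerSeries.subst_X (B2_hs a ha)]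
    refine Fin.cases ?_ (fun j => ?_) s
    · rw [B2_io_zero]
      rfl
    · rw [B2_io_succ]
      simp [B2_B, fa]
  rw [h3, MvPowerSeries.subst_self]
  rfl

private theorem B2_j_be (a : SR R n) (ha : MvPowerSeries.constantCoeff a = 0)
    (f : MvPowerSeries (Fin (n + 2)) R) :
    B2_j R n (B2_be a ha f) = MvPowerSeries.subst (Function.update
      (fun j => (MvPowerSeries.X j : MvPowerSeries (Fin (n + 2)) R)) 1 (B2_j R n a)) f := by
  have h1 : ∀ z, B2_j R n z = MvPowerSeries.subst (MvPowerSeries.X ∘ B2_io n) z :=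
    fun z => MvPowerSeries.rename_eq_subst _ z
  have h2 : B2_be a ha f = MvPowerSeries.subst (B2_B a) f := by
    unfold B2_be
    rw [MvPowerSeries.coe_substAlgHom]
  rw [h1, h2, MvPowerSeries.subst_comp_subst_apply (B2_hs a ha) (MvPowerSeries.HasSubst.X_comp _)]
  congr 1
  funext s
  rw [← h1]
  refine Fin.cases ?_ (fun j => ?_) s
  · show B2_j R n (MvPowerSeries.X 0) = _
    rw [B2_j_X, B2_io_zero, Function.update_of_ne (by simp)]
  · refine Fin.cases ?_ (fun i => ?_) j
    · show B2_j R n a = _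
      have h3 : (Fin.succ 0 : Fin (n + 2)) = 1 := rfl
      rw [h3, Function.update_self]
    · show B2_j R n (MvPowerSeries.X i.succ) = _
      have h3 : (i.succ.succ : Fin (n + 2)) ≠ 1 := by
        intro h4
        have h5 : (1 : Fin (n + 2)) = Fin.succ 0 := rfl
        rw [h5] at h4
        exact Fin.succ_ne_zero i (Fin.succ_injective _ h4)
      rw [B2_j_X, B2_io_succ, Function.update_of_ne h3]

/-- kernel of `β'` -/
private theorem B2_ker (a : SR R n) (ha : MvPowerSeries.constantCoeff a = 0)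
    (f : MvPowerSeries (Fin (n + 2)) R) :
    B2_be a ha f = 0 ↔ (MvPowerSeries.X 1 - B2_j R n a) ∣ f := by
  have hc0 : MvPowerSeries.constantCoeff (B2_j R n a) = 0 := by
    unfold B2_j
    rw [MvPowerSeries.constantCoeff_rename]
    exact ha
  have hc : MvPowerSeries.subst (Function.update
      (fun j => (MvPowerSeries.X j : MvPowerSeries (Fin (n + 2)) R)) 1 0) (B2_j R n a) =
      B2_j R n a := by
    have h1 : B2_j R n a = MvPowerSeries.subst (MvPowerSeries.X ∘ B2_io n) a :=
      MvPowerSeries.rename_eq_subst _ a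
    have hU : MvPowerSeries.HasSubst (Function.update
        (fun j => (MvPowerSeries.X j : MvPowerSeries (Fin (n + 2)) R)) 1 0) :=
      MvPowerSeries.hasSubst_of_constantCoeff_zero (by
        intro s
        by_cases hs : s = 1
        · rw [hs, Function.update_self, map_zero]
        · rw [Function.update_of_ne hs, MvPowerSeries.constantCoeff_X])
    rw [h1, MvPowerSeries.subst_comp_subst_apply (MvPowerSeries.HasSubst.X_comp _) hU]
    congr 1
    funext s
    show MvPowerSeries.subst _ (MvPowerSeries.X (B2_io n s) : MvPowerSeries (Fin (n + 2)) R) = _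
    rw [MvPowerSeries.subst_X hU, Function.update_of_ne (B2_io_ne s)]
    rfl
  rw [← ker_subst (1 : Fin (n + 2)) (B2_j R n a) hc0 hc f, ← B2_j_be a ha f]
  constructor
  · intro h
    rw [h, map_zero]
  · intro h
    have := congrArg (B2_be a ha) h
    rwa [B2_be_j, map_zero] at this

private theorem B2_be_s (a : SR R n) (ha : MvPowerSeries.constantCoeff a = 0) (h : SR R n) :
    B2_be a ha (MvPowerSeries.substAlgHom (hs_s (R := R) (p := n + 1)) h) = alp a ha h := by
  unfold B2_be alp
  rw [MvPowerSeries.coe_substAlgHom, MvPowerSeries.coe_substAlgHom, MvPowerSeries.coe_substAlgHom,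
    MvPowerSeries.subst_comp_subst_apply hs_s (B2_hs a ha)]
  congr 1
  funext s
  rw [MvPowerSeries.subst_X (B2_hs a ha)]
  simp [B2_B]

/-- `e⁻¹` of a polynomial -/
private noncomputable def B2_E (H : (SR R n)[X]) : MvPowerSeries (Fin (n + 2)) R :=
  Polynomial.eval₂ ((MvPowerSeries.substAlgHom (hs_s (R := R) (p := n + 1))).toRingHom)
    (MvPowerSeries.X 0) H

private theorem B2_E_eq (H : (SR R n)[X]) :
    B2_E H = (MvPowerSeries.finSuccEquiv R (n + 1)).symm (H : PowerSeries (SR R n)) := by
  rw [← fs_poly H, AlgEquiv.symm_apply_apply]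
  rfl

private theorem B2_ev (a : SR R n) (ha : MvPowerSeries.constantCoeff a = 0) (H : (SR R n)[X]) :
    evS a ha H = B2_be a ha (B2_E H) := by
  unfold B2_E evS
  have h := Polynomial.hom_eval₂ H
    ((MvPowerSeries.substAlgHom (hs_s (R := R) (p := n + 1))).toRingHom)
    (B2_be a ha : MvPowerSeries (Fin (n + 2)) R →+* SR R n) (MvPowerSeries.X 0)
  have h2 : (B2_be a ha : MvPowerSeries (Fin (n + 2)) R →+* SR R n).comp
      ((MvPowerSeries.substAlgHom (hs_s (R := R) (p := n + 1))).toRingHom) =
      (alp a ha : SR R n →+* SR R n) := by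
    ext1 z
    exact B2_be_s a ha z
  have h3 : (B2_be a ha : MvPowerSeries (Fin (n + 2)) R →+* SR R n) (MvPowerSeries.X 0) =
      MvPowerSeries.X 0 := B2_be_X a ha 0
  rw [h2, h3] at h
  exact h.symm

private theorem B2_coeff_s (c : SR R n) (m : Fin (n + 2) →₀ ℕ) :
    MvPowerSeries.coeff m (MvPowerSeries.substAlgHom (hs_s (R := R) (p := n + 1)) c) =
      if m 0 = 0 then MvPowerSeries.coeff m.tail c else 0 := by
  have h := MvPowerSeries.coeff_coeff_finSuccEquiv
    (MvPowerSeries.substAlgHom (hs_s (R := R) (p := n + 1)) c) (k := m 0) (x := m.tail)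
  rw [Finsupp.cons_tail, fs_C, PowerSeries.coeff_C] at h
  rw [← h]
  split_ifs with h1
  · rfl
  · rw [map_zero]

private theorem B2_tail (m : Fin (n + 2) →₀ ℕ) :
    (m + Finsupp.single 1 1).tail = m.tail + Finsupp.single 0 1 := by
  ext j
  rw [Finsupp.tail_apply, Finsupp.add_apply, Finsupp.add_apply, Finsupp.tail_apply]
  congr 1
  have h : (1 : Fin (n + 2)) = Fin.succ 0 := rfl
  rw [h, Finsupp.single_apply, Finsupp.single_apply]
  congr 1
  rw [Fin.succ_inj]

private theorem B2_D_s (c : SR R n) :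
    MvPowerSeries.pderiv R (1 : Fin (n + 2))
      (MvPowerSeries.substAlgHom (hs_s (R := R) (p := n + 1)) c) =
      MvPowerSeries.substAlgHom (hs_s (R := R) (p := n + 1))
        (MvPowerSeries.pderiv R (0 : Fin (n + 1)) c) := by
  ext m
  rw [MvPowerSeries.coeff_pderiv, B2_coeff_s, B2_coeff_s, MvPowerSeries.coeff_pderiv, B2_tail]
  have h1 : (m + Finsupp.single (1 : Fin (n + 2)) 1 : Fin (n + 2) →₀ ℕ) 0 = m 0 := by
    rw [Finsupp.add_apply, Finsupp.single_apply, if_neg (by simp), add_zero]
  have h2 : m.tail 0 = m 1 := rfl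
  rw [h1, h2]
  split_ifs
  · rfl
  · rw [zero_mul]

private theorem B2_D_j (a : SR R n) :
    MvPowerSeries.pderiv R (1 : Fin (n + 2)) (B2_j R n a) = 0 := by
  ext m
  rw [MvPowerSeries.coeff_pderiv, map_zero]
  have h : MvPowerSeries.coeff (m + Finsupp.single 1 1) (B2_j R n a) = 0 := by
    refine MvPowerSeries.coeff_rename_eq_zero _ _ ?_
    rintro ⟨x, hx⟩
    have h1 := DFunLike.congr_fun hx (1 : Fin (n + 2))
    rw [Finsupp.mapDomain_of_notMem_range _ _ (by
      rintro ⟨j, hj⟩
      exact B2_io_ne j hj)] at h1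
    rw [Finsupp.add_apply, Finsupp.single_eq_same] at h1
    omega
  rw [h, zero_mul]

private theorem B2_D_E (H : (SR R n)[X]) :
    MvPowerSeries.pderiv R (1 : Fin (n + 2)) (B2_E H) =
      B2_E (dC (MvPowerSeries.pderiv R (0 : Fin (n + 1))) H) := by
  induction H using Polynomial.induction_on' with
  | add p q hp hq =>
    rw [dC_add]
    unfold B2_E at *
    rw [Polynomial.eval₂_add, Polynomial.eval₂_add, map_add, hp, hq]
  | monomial i c =>
    have h1 : dC (MvPowerSeries.pderiv R (0 : Fin (n + 1))) (monomial i c) =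
        monomial i (MvPowerSeries.pderiv R (0 : Fin (n + 1)) c) := by
      ext j
      rw [coeff_dC, Polynomial.coeff_monomial, Polynomial.coeff_monomial]
      split_ifs
      · rfl
      · rw [map_zero]
    rw [h1]
    unfold B2_E
    rw [Polynomial.eval₂_monomial, Polynomial.eval₂_monomial, Derivation.leibniz]
    have h2 : MvPowerSeries.pderiv R (1 : Fin (n + 2))
        ((MvPowerSeries.X 0 : MvPowerSeries (Fin (n + 2)) R) ^ i) = 0 := by
      rw [Derivation.leibniz_pow, MvPowerSeries.pderiv_X_of_ne (by simp), smul_zero, smul_zero]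
    have h3 : MvPowerSeries.pderiv R (1 : Fin (n + 2))
        ((MvPowerSeries.substAlgHom (hs_s (R := R) (p := n + 1))).toRingHom c) =
        (MvPowerSeries.substAlgHom (hs_s (R := R) (p := n + 1))).toRingHom
          (MvPowerSeries.pderiv R (0 : Fin (n + 1)) c) := B2_D_s c
    rw [h2, h3, smul_zero, zero_add, smul_eq_mul, mul_comm]

private theorem B2_main [Nontrivial R] [IsLocalRing (SR R n)]
    [IsAdicComplete (IsLocalRing.maximalIdeal (SR R n)) (SR R n)] (a b : SR R n)
    (ha : MvPowerSeries.constantCoeff a = 0)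
    (hx : ∃ i : ℕ, IsUnit (MvPowerSeries.coeff (Finsupp.single 0 i) a)) :
    ∃ P' φ : (SR R n)[X], Weier a b ha P' φ ∧
      ∀ i < P'.natDegree, P'.coeff i ∈ IsLocalRing.maximalIdeal (SR R n) := by
  classical
  set e := MvPowerSeries.finSuccEquiv R (n + 1) with he
  set z : MvPowerSeries (Fin (n + 2)) R :=
    MvPowerSeries.X 1 - B2_j R n a with hz
  set g : PowerSeries (SR R n) := e z with hg
  -- the coefficients of `g` modulo the other variables
  have hcg : ∀ i : ℕ, MvPowerSeries.constantCoeff (PowerSeries.coeff i g) =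
      -MvPowerSeries.coeff (Finsupp.single 0 i) a := by
    intro i
    have h1 := MvPowerSeries.coeff_coeff_finSuccEquiv z (k := i) (x := 0)
    rw [MvPowerSeries.coeff_zero_eq_constantCoeff_apply] at h1
    rw [hg, he, h1, hz, map_sub]
    have h2 : (Finsupp.cons i (0 : Fin (n + 1) →₀ ℕ)) = Finsupp.single 0 i := by
      ext j
      refine Fin.cases ?_ (fun l => ?_) j
      · rw [Finsupp.cons_zero, Finsupp.single_eq_same]
      · rw [Finsupp.cons_succ, Finsupp.single_apply, if_neg (by
          intro h; exact Fin.succ_ne_zero l h.symm)]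
        rfl
    rw [h2, MvPowerSeries.coeff_X, if_neg, zero_sub]
    · congr 1
      have h3 : (Finsupp.single (0 : Fin (n + 2)) i) =
          Finsupp.embDomain (B2_io n) (Finsupp.single 0 i) := by
        rw [Finsupp.embDomain_single, B2_io_zero]
      rw [h3]
      exact MvPowerSeries.coeff_embDomain_rename _ _ _
    · intro h
      have h4 := DFunLike.congr_fun h (1 : Fin (n + 2))
      rw [Finsupp.single_eq_same, Finsupp.single_apply, if_neg (by simp)] at h4
      omega
  have hne : g.map (IsLocalRing.residue (SR R n)) ≠ 0 := by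
    obtain ⟨i, hi⟩ := hx
    intro h0
    have h1 : IsLocalRing.residue (SR R n) (PowerSeries.coeff i g) = 0 := by
      rw [← PowerSeries.coeff_map, h0, map_zero]
    have h2 : ¬ IsUnit (PowerSeries.coeff i g) := fun h3 =>
      (IsLocalRing.residue_ne_zero_iff_isUnit _).2 h3 h1
    apply h2
    rw [MvPowerSeries.isUnit_iff_constantCoeff, hcg, IsUnit.neg_iff]
    exact hi
  obtain ⟨P', h, W⟩ := PowerSeries.exists_isWeierstrassFactorization hne
  have hmon : P'.Monic := W.isDistinguishedAt.monic
  have hgP : g = (P' : PowerSeries (SR R n)) * h := W.eq_mul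
  -- divisibility by `g`
  have hkey : ∀ F : PowerSeries (SR R n), B2_be a ha (e.symm F) = 0 ↔ g ∣ F := by
    intro F
    rw [B2_ker, ← hz]
    constructor
    · rintro ⟨w, hw⟩
      refine ⟨e w, ?_⟩
      rw [hg, ← map_mul, ← hw, AlgEquiv.apply_symm_apply]
    · rintro ⟨w, hw⟩
      refine ⟨e.symm w, ?_⟩
      rw [hw, map_mul, hg, AlgEquiv.symm_apply_apply]
  have hevS : ∀ H : (SR R n)[X], evS a ha H =
      B2_be a ha (e.symm (H : PowerSeries (SR R n))) := by
    intro H
    rw [B2_ev, B2_E_eq]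
  have hker : ∀ H, evS a ha H = 0 ↔ P' ∣ H := by
    intro H
    rw [hevS, hkey]
    constructor
    · intro hd
      have h1 : W.algEquivQuotient (Ideal.Quotient.mk _ H) = 0 := by
        rw [PowerSeries.IsWeierstrassFactorizationAt.algEquivQuotient_apply]
        simpa [Ideal.Quotient.eq_zero_iff_mem, Ideal.mem_span_singleton] using hd
      have h2 : Ideal.Quotient.mk (Ideal.span {P'}) H = 0 := by
        rw [← map_zero W.algEquivQuotient] at h1
        exact W.algEquivQuotient.injective h1
      rwa [Ideal.Quotient.eq_zero_iff_mem, Ideal.mem_span_singleton] at h2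
    · rintro ⟨w, hw⟩
      obtain ⟨u, hu⟩ := W.isUnit
      have h3 : (P' : PowerSeries (SR R n)) = g * ((u⁻¹ : _ˣ) : PowerSeries _) := by
        rw [hgP, mul_assoc, ← hu, Units.mul_inv, mul_one]
      rw [hw, Polynomial.coe_mul, h3, mul_assoc]
      exact Dvd.intro _ rfl
  have hP0 : evS a ha P' = 0 := (hker P').2 dvd_rfl
  have hsurj : ∀ w, ∃ H, evS a ha H = w := by
    intro w
    obtain ⟨q, r, hd⟩ := (e (B2_j R n w)).exists_isWeierstrassDivision hne
    have h1 : e (B2_j R n w) = g * q + r := hd.eq_mul_add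
    refine ⟨r, ?_⟩
    have h2 : e.symm (r : PowerSeries (SR R n)) =
        B2_j R n w - e.symm (g * q) := by
      have h3 := congrArg e.symm h1
      rw [AlgEquiv.symm_apply_apply, map_add] at h3
      rw [h3]
      ring
    rw [hevS, h2, map_sub, B2_be_j, (hkey (g * q)).2 (Dvd.intro _ rfl), sub_zero]
  obtain ⟨H, hH⟩ := hsurj b
  refine ⟨P', H %ₘ P', ?_, fun i hi => W.isDistinguishedAt.mem hi⟩
  constructor
  · exact hmon
  · by_contra hn
    have h0 : P'.natDegree = 0 := by omega
    have h1 : P' = 1 := Polynomial.eq_one_of_monic_natDegree_zero hmon h0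
    have h2 : IsUnit g := by
      rw [hgP, h1, Polynomial.coe_one, one_mul]
      exact W.isUnit
    have h3 : IsUnit (MvPowerSeries.constantCoeff (PowerSeries.coeff 0 g)) := by
      rw [← MvPowerSeries.isUnit_iff_constantCoeff, PowerSeries.coeff_zero_eq_constantCoeff_apply]
      exact PowerSeries.isUnit_iff_constantCoeff.1 h2
    rw [hcg, Finsupp.single_zero, MvPowerSeries.coeff_zero_eq_constantCoeff_apply, ha,
      neg_zero] at h3
    exact not_isUnit_zero h3
  · exact Polynomial.degree_modByMonic_lt H hmon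
  · exact hsurj
  · exact hker
  · have h1 := Polynomial.modByMonic_add_div H P'
    have h2 := congrArg (evS a ha) h1
    rw [map_add, map_mul, hP0, zero_mul, add_zero, hH] at h2
    exact h2
  · have h1 : B2_E P' * e.symm h = z := by
      rw [B2_E_eq, ← he, ← map_mul, ← hgP, hg, AlgEquiv.symm_apply_apply]
    have h2 := congrArg (MvPowerSeries.pderiv R (1 : Fin (n + 2))) h1
    rw [Derivation.leibniz, hz, map_sub, B2_D_j, MvPowerSeries.pderiv_X_self, sub_zero,
      B2_D_E, smul_eq_mul, smul_eq_mul] at h2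
    have h3 := congrArg (B2_be a ha) h2
    rw [map_add, map_mul, map_mul, map_one, ← B2_ev, ← B2_ev, hP0, zero_mul, zero_add] at h3
    exact IsUnit.of_mul_eq_one _ (by rw [mul_comm]; exact h3)

end

theorem weier_dist (k : Type*) [Field k] (n : ℕ) (a b : SR (PowerSeries k) n) (ha : MvPowerSeries.constantCoeff a = 0)
    (hx : ∃ i, MvPowerSeries.coeff (Finsupp.single 0 i) (sp k a) ≠ 0) :
    ∃ P' φ : (SR (PowerSeries k) n)[X], Weier a b ha P' φ ∧
      ∀ i < P'.natDegree, P'.coeff i ∈ IsLocalRing.maximalIdeal (SR (PowerSeries k) n) := by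
  haveI hcomp : IsAdicComplete (IsLocalRing.maximalIdeal (SR (PowerSeries k) n))
      (SR (PowerSeries k) n) := complete_mv k (n + 1)
  refine B2_main a b ha ?_
  obtain ⟨i, hi⟩ := hx
  refine ⟨i, ?_⟩
  rw [PowerSeries.isUnit_iff_constantCoeff, isUnit_iff_ne_zero]
  intro h4
  apply hi
  unfold sp
  rw [MvPowerSeries.coeff_map]
  exact h4

end Pool.Agent.LibMF6
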