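import Pool.Agent.LibMF6.B2a
import Pool.Agent.LibMF6.B2b

set_option autoImplicit false

/-! ROW B3 (MEDIUM/LONG, BDefs, B2a, B2b). From R[[X,u]] to R[[Y,X,u]]: `evO` is surjective with kernel (P, Q), P = PO P', Q = QO φ = φ - Y.
 FF (iot h) = alp a h (subst_comp), so evO (H.map iot) = evS H; surjectivity from hW.surj. evO P = evS P' = 0, evO Q = evS φ - b = 0: (P, Q) ≤ kernel.
 Kernel: A1 = SR R n, S = SR R n (x = variable 0), e : OR R n ≃ A1[[Y]] (finSuccEquiv R (n+1), Y = variable 0 ↦ PowerSeries.X). Define κ : (OR R n)[X] → S[[Y]] = PowerSeries S, κ = eval₂RingHom (PowerSeries.map (alp a) ∘ e) (PowerSeries.C x).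
   (1) κ P = C (evS P') = 0; κ Q = C b - Y. (2) κ surjective: w = ∑ w_j Y^j, w_j = evS H_j with natDegree H_j < m (H_j %ₘ P'); h_i := e⁻¹ (∑_j (coeff i H_j) Y^j), H := ∑_{i<m} C h_i X^i; coefficient of Y^j in κ H = evS H_j = w_j.
   (3) κ H = 0 → P ∣ H: replace H by H %ₘ P (degree < m, P monic of degree m); then for every j the polynomial H_j := ∑_{i<m} (coeff_j (e h_i)) x^i has evS H_j = 0, P' ∣ H_j, degree < m, so H_j = 0, all h_i = 0.
   (4) ε : S[[Y]] → S, Y ↦ b (through e' : MvPowerSeries (Fin (n+2)) R ≃ S[[Y]], subst (Y ↦ b, others fixed); well defined, constantCoeff b = 0): ε κ = evO (compare on C h and X; both ring homs on (OR R n)[X], on C h: subst composition), and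
   ε w = 0 → (Y - C b) ∣ w by ker_subst for the index 0 (b, seen in the variables 1.., does not involve variable 0; use the injection S → MvPowerSeries (Fin (n+2)) R).
   So evO H = 0 → κ H = (κ Q) * w = κ (Q * Z) by (2) → P ∣ H - Q Z. -/

namespace Pool.Agent.LibMF6

open Polynomial

/-- elements divisible by all powers of `t`, `t` without constant coefficient, vanish -/
private theorem B3_zero {R : Type*} [CommRing R] {q : ℕ} (t f : MvPowerSeries (Fin q) R)
    (ht : MvPowerSeries.constantCoeff t = 0) (h : ∀ N : ℕ, ∃ z, f = t ^ N * z) : f = 0 := by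
  classical
  ext m
  obtain ⟨z, hz⟩ := h (1 + m.degree)
  rw [hz, MvPowerSeries.coeff_mul, map_zero]
  refine Finset.sum_eq_zero fun x hx => ?_
  have hx' := Finset.HasAntidiagonal.mem_antidiagonal.1 hx
  have h1 : x.1.degree ≤ m.degree := by
    rw [← hx', map_add]
    exact Nat.le_add_right _ _
  rw [MvPowerSeries.coeff_eq_zero_of_constantCoeff_nilpotent (m := 1) (by rw [ht, pow_one])
    (by omega), zero_mul]

private noncomputable def B3_j (R : Type*) [CommRing R] (p : ℕ) :
    MvPowerSeries (Fin p) R →ₐ[R] MvPowerSeries (Fin (p + 1)) R :=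
  MvPowerSeries.substAlgHom (hs_s (R := R) (p := p))

private theorem B3_unique {R : Type*} [CommRing R] {q : ℕ} (p : ℕ) :
    ∀ F G : MvPowerSeries (Fin p) R →+* MvPowerSeries (Fin q) R,
      (∀ r, F (MvPowerSeries.C r) = G (MvPowerSeries.C r)) →
      (∀ i, F (MvPowerSeries.X i) = G (MvPowerSeries.X i)) →
      (∀ i, MvPowerSeries.constantCoeff (F (MvPowerSeries.X i)) = 0) → F = G := by
  induction p with
  | zero =>
    intro F G hC _ _
    ext1 f
    have hf : f = MvPowerSeries.C (MvPowerSeries.constantCoeff f) := by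
      ext m
      have hm : m = 0 := Subsingleton.elim _ _
      subst hm
      simp
    rw [hf, hC]
  | succ p ih =>
    intro F G hC hX h0
    have hio : F.comp (B3_j R p).toRingHom =
        G.comp (B3_j R p).toRingHom := by
      have hc : ∀ r : R, (B3_j R p) (MvPowerSeries.C r) =
          MvPowerSeries.C r := fun r =>
        (B3_j R p).commutes r
      have hx : ∀ i, (B3_j R p) (MvPowerSeries.X i) =
          MvPowerSeries.X i.succ := fun i =>
        MvPowerSeries.substAlgHom_X (hs_s (R := R) (p := p)) i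
      apply ih
      · intro r
        change F ((B3_j R p) (MvPowerSeries.C r)) =
          G ((B3_j R p) (MvPowerSeries.C r))
        rw [hc, hC]
      · intro i
        change F ((B3_j R p) (MvPowerSeries.X i)) =
          G ((B3_j R p) (MvPowerSeries.X i))
        rw [hx, hX]
      · intro i
        change MvPowerSeries.constantCoeff
          (F ((B3_j R p) (MvPowerSeries.X i))) = 0
        rw [hx, h0]
    have hio' : ∀ h, F ((B3_j R p) h) =
        G ((B3_j R p) h) := fun h =>
      RingHom.congr_fun hio h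
    -- decomposition
    have hdec : ∀ g : MvPowerSeries (Fin (p + 1)) R, ∃ h g',
        g = (B3_j R p) h + MvPowerSeries.X 0 * g' := by
      intro g
      refine ⟨PowerSeries.constantCoeff (MvPowerSeries.finSuccEquiv R p g),
        (MvPowerSeries.finSuccEquiv R p).symm
          (PowerSeries.mk fun k => PowerSeries.coeff (k + 1) (MvPowerSeries.finSuccEquiv R p g)), ?_⟩
      apply (MvPowerSeries.finSuccEquiv R p).injective
      rw [map_add, map_mul, B3_j, fs_C, MvPowerSeries.finSuccEquiv_X_zero, AlgEquiv.apply_symm_apply]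
      exact (PowerSeries.eq_X_mul_shift_add_const _).trans (add_comm _ _)
    ext1 f
    have hN : ∀ N : ℕ, ∃ g, F f - G f = (F (MvPowerSeries.X 0)) ^ N * (F g - G g) := by
      intro N
      induction N with
      | zero => exact ⟨f, by rw [pow_zero, one_mul]⟩
      | succ N ihN =>
        obtain ⟨g, hg⟩ := ihN
        obtain ⟨h, g', hg'⟩ := hdec g
        refine ⟨g', ?_⟩
        rw [hg, hg', map_add, map_add, map_mul, map_mul, hio', ← hX 0]
        ring
    have := B3_zero (F (MvPowerSeries.X 0)) (F f - G f) (h0 0) (fun N => by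
      obtain ⟨g, hg⟩ := hN N
      exact ⟨_, hg⟩)
    exact sub_eq_zero.1 this

section

variable {R : Type*} [CommRing R] {n : ℕ}

private theorem B3_iot_X (j : Fin (n + 1)) :
    (iot : SR R n →ₐ[R] OR R n) (MvPowerSeries.X j) = MvPowerSeries.X j.succ :=
  MvPowerSeries.substAlgHom_X _ _

private theorem B3_iot_C (r : R) :
    (iot : SR R n →ₐ[R] OR R n) (MvPowerSeries.C r) = MvPowerSeries.C r :=
  (iot : SR R n →ₐ[R] OR R n).commutes r

private theorem B3_e_iot (h : SR R n) :
    MvPowerSeries.finSuccEquiv R (n + 1) ((iot : SR R n →ₐ[R] OR R n) h) = PowerSeries.C h :=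
  fs_C h

private theorem B3_fa_const (a : SR R n) (ha : MvPowerSeries.constantCoeff a = 0) (j : Fin (n + 1)) :
    MvPowerSeries.constantCoeff (fa a j) = 0 := by
  refine Fin.cases ?_ (fun j => ?_) j
  · exact ha
  · simp [fa]

private theorem B3_alp_X (a : SR R n) (ha : MvPowerSeries.constantCoeff a = 0) (j : Fin (n + 1)) :
    alp a ha (MvPowerSeries.X j) = fa a j :=
  MvPowerSeries.substAlgHom_X _ _

private theorem B3_FF_X0 (a b : SR R n) (ha : MvPowerSeries.constantCoeff a = 0)
    (hb : MvPowerSeries.constantCoeff b = 0) : FF a b ha hb (MvPowerSeries.X 0) = b :=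
  MvPowerSeries.substAlgHom_X _ _

private theorem B3_FF_Xs (a b : SR R n) (ha : MvPowerSeries.constantCoeff a = 0)
    (hb : MvPowerSeries.constantCoeff b = 0) (j : Fin (n + 1)) :
    FF a b ha hb (MvPowerSeries.X j.succ) = fa a j :=
  (MvPowerSeries.substAlgHom_X _ _)

private theorem B3_FF_iot (a b : SR R n) (ha : MvPowerSeries.constantCoeff a = 0)
    (hb : MvPowerSeries.constantCoeff b = 0) (h : SR R n) :
    FF a b ha hb ((iot : SR R n →ₐ[R] OR R n) h) = alp a ha h := by
  have := B3_unique (n + 1) ((FF a b ha hb).toRingHom.comp (iot : SR R n →ₐ[R] OR R n).toRingHom)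
    (alp a ha).toRingHom ?_ ?_ ?_
  · exact RingHom.congr_fun this h
  · intro r
    change FF a b ha hb ((iot : SR R n →ₐ[R] OR R n) (MvPowerSeries.C r)) =
      alp a ha (MvPowerSeries.C r)
    rw [B3_iot_C]
    exact ((FF a b ha hb).commutes r).trans ((alp a ha).commutes r).symm
  · intro i
    change FF a b ha hb ((iot : SR R n →ₐ[R] OR R n) (MvPowerSeries.X i)) =
      alp a ha (MvPowerSeries.X i)
    rw [B3_iot_X, B3_FF_Xs, B3_alp_X]
  · intro i
    change MvPowerSeries.constantCoeff
      (FF a b ha hb ((iot : SR R n →ₐ[R] OR R n) (MvPowerSeries.X i))) = 0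
    rw [B3_iot_X, B3_FF_Xs, B3_fa_const a ha]

private theorem B3_evO_map (a b : SR R n) (ha : MvPowerSeries.constantCoeff a = 0)
    (hb : MvPowerSeries.constantCoeff b = 0) (H : (SR R n)[X]) :
    evO a b ha hb (H.map (iot : SR R n →ₐ[R] OR R n).toRingHom) = evS a ha H := by
  have h1 : (evO a b ha hb).comp (Polynomial.mapRingHom (iot : SR R n →ₐ[R] OR R n).toRingHom) =
      evS a ha := by
    apply Polynomial.ringHom_ext
    · intro h
      simp only [evO, evS, RingHom.comp_apply, Polynomial.coe_mapRingHom, Polynomial.map_C,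
        Polynomial.coe_eval₂RingHom, Polynomial.eval₂_C]
      exact B3_FF_iot a b ha hb h
    · simp [evO, evS]
  exact RingHom.congr_fun h1 H

/-- the map `κ` -/
private noncomputable def B3_kap (a : SR R n) (ha : MvPowerSeries.constantCoeff a = 0) :
    (OR R n)[X] →+* PowerSeries (SR R n) :=
  Polynomial.eval₂RingHom ((PowerSeries.map (alp a ha).toRingHom).comp
    (MvPowerSeries.finSuccEquiv R (n + 1)).toRingEquiv.toRingHom) (PowerSeries.C (MvPowerSeries.X 0))

private theorem B3_kap_C (a : SR R n) (ha : MvPowerSeries.constantCoeff a = 0) (h : OR R n) :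
    B3_kap a ha (C h) =
      PowerSeries.map (alp a ha).toRingHom (MvPowerSeries.finSuccEquiv R (n + 1) h) := by
  simp [B3_kap]

private theorem B3_kap_X (a : SR R n) (ha : MvPowerSeries.constantCoeff a = 0) :
    B3_kap a ha X = PowerSeries.C (MvPowerSeries.X 0) := by
  simp [B3_kap]

private theorem B3_kap_map (a : SR R n) (ha : MvPowerSeries.constantCoeff a = 0)
    (H : (SR R n)[X]) :
    B3_kap a ha (H.map (iot : SR R n →ₐ[R] OR R n).toRingHom) = PowerSeries.C (evS a ha H) := by
  have h1 : (B3_kap a ha).comp (Polynomial.mapRingHom (iot : SR R n →ₐ[R] OR R n).toRingHom) =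
      (PowerSeries.C).comp (evS a ha) := by
    apply Polynomial.ringHom_ext
    · intro h
      rw [RingHom.comp_apply, Polynomial.coe_mapRingHom, Polynomial.map_C, B3_kap_C]
      have h2 : MvPowerSeries.finSuccEquiv R (n + 1)
          ((iot : SR R n →ₐ[R] OR R n).toRingHom h) = PowerSeries.C h := B3_e_iot h
      rw [h2, PowerSeries.map_C]
      simp [evS]
    · rw [RingHom.comp_apply, Polynomial.coe_mapRingHom, Polynomial.map_X, B3_kap_X]
      simp [evS]
  exact RingHom.congr_fun h1 H

/-- coefficients of `κ H` -/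
private theorem B3_coeff_kap (a : SR R n) (ha : MvPowerSeries.constantCoeff a = 0)
    (g : ℕ → OR R n) (m j : ℕ) :
    PowerSeries.coeff j (B3_kap a ha (∑ i ∈ Finset.range m, C (g i) * X ^ i)) =
      evS a ha (∑ i ∈ Finset.range m, C (PowerSeries.coeff j
        (MvPowerSeries.finSuccEquiv R (n + 1) (g i))) * X ^ i) := by
  rw [map_sum, map_sum, map_sum]
  refine Finset.sum_congr rfl fun i _ => ?_
  rw [map_mul (B3_kap a ha), map_pow (B3_kap a ha), B3_kap_C, B3_kap_X,
    ← map_pow (PowerSeries.C), PowerSeries.coeff_mul_C, PowerSeries.coeff_map]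
  simp [evS]

private theorem B3_kap_Y (a : SR R n) (ha : MvPowerSeries.constantCoeff a = 0) :
    B3_kap a ha (C (MvPowerSeries.X 0)) = PowerSeries.X := by
  rw [B3_kap_C, MvPowerSeries.finSuccEquiv_X_zero, PowerSeries.map_X]

private theorem B3_kap_P (a b : SR R n) (ha : MvPowerSeries.constantCoeff a = 0)
    (P' φ : (SR R n)[X]) (hW : Weier a b ha P' φ) : B3_kap a ha (PO P') = 0 := by
  rw [PO, B3_kap_map, (hW.ker P').2 dvd_rfl, map_zero]

private theorem B3_kap_Q (a b : SR R n) (ha : MvPowerSeries.constantCoeff a = 0)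
    (P' φ : (SR R n)[X]) (hW : Weier a b ha P' φ) :
    B3_kap a ha (QO φ) = PowerSeries.C b - PowerSeries.X := by
  rw [QO, map_sub, B3_kap_map, hW.val, B3_kap_Y]

private theorem B3_evS_mod (a b : SR R n) (ha : MvPowerSeries.constantCoeff a = 0)
    (P' φ : (SR R n)[X]) (hW : Weier a b ha P' φ) (H : (SR R n)[X]) :
    evS a ha (H %ₘ P') = evS a ha H := by
  conv_rhs => rw [← Polynomial.modByMonic_add_div H P']
  rw [map_add, map_mul, (hW.ker P').2 dvd_rfl, zero_mul, add_zero]

private theorem B3_kap_surj (a b : SR R n) (ha : MvPowerSeries.constantCoeff a = 0)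
    (P' φ : (SR R n)[X]) (hW : Weier a b ha P' φ) (w : PowerSeries (SR R n)) :
    ∃ H, B3_kap a ha H = w := by
  choose K hK using hW.surj
  refine ⟨∑ i ∈ Finset.range P'.natDegree, C ((MvPowerSeries.finSuccEquiv R (n + 1)).symm
    (PowerSeries.mk fun j => (K (PowerSeries.coeff j w) %ₘ P').coeff i)) * X ^ i, ?_⟩
  ext1 j
  rw [B3_coeff_kap]
  simp only [AlgEquiv.apply_symm_apply, PowerSeries.coeff_mk]
  have hne : P' ≠ 1 := by
    intro h
    have := hW.pos
    rw [h, Polynomial.natDegree_one] at this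
    exact lt_irrefl _ this
  rw [← Polynomial.as_sum_range_C_mul_X_pow' _ (Polynomial.natDegree_modByMonic_lt _ hW.monic hne),
    B3_evS_mod a b ha P' φ hW, hK]

private theorem B3_kap_ker (a b : SR R n) (ha : MvPowerSeries.constantCoeff a = 0)
    (P' φ : (SR R n)[X]) (hW : Weier a b ha P' φ) (H : (OR R n)[X]) (hH : B3_kap a ha H = 0) :
    PO P' ∣ H := by
  rcases subsingleton_or_nontrivial (OR R n) with hs | hnt
  · exact ⟨0, Subsingleton.elim _ _⟩
  have hntS : Nontrivial (SR R n) := by
    by_contra hc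
    rw [not_nontrivial_iff_subsingleton] at hc
    have h1 : (1 : OR R n) = 0 := by
      rw [← map_one (iot : SR R n →ₐ[R] OR R n), Subsingleton.elim (1 : SR R n) 0, map_zero]
    exact one_ne_zero h1
  have hm : (PO P').natDegree = P'.natDegree := hW.monic.natDegree_map _
  have hne : PO P' ≠ 1 := by
    intro h
    have := hW.pos
    rw [← hm, h, Polynomial.natDegree_one] at this
    exact lt_irrefl _ this
  have hmon := PO_monic P' hW.monic
  have hr : (H %ₘ PO P').natDegree < P'.natDegree := by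
    rw [← hm]
    exact Polynomial.natDegree_modByMonic_lt _ hmon hne
  have hk : B3_kap a ha (H %ₘ PO P') = 0 := by
    have h1 : B3_kap a ha (H %ₘ PO P' + PO P' * (H /ₘ PO P')) = 0 := by
      rw [Polynomial.modByMonic_add_div, hH]
    rwa [map_add, map_mul, B3_kap_P a b ha P' φ hW, zero_mul, add_zero] at h1
  rw [← Polynomial.modByMonic_eq_zero_iff_dvd hmon]
  have hcoef : ∀ i < P'.natDegree, ∀ j, PowerSeries.coeff j
      (MvPowerSeries.finSuccEquiv R (n + 1) ((H %ₘ PO P').coeff i)) = 0 := by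
    intro i hi j
    have h1 : evS a ha (∑ i ∈ Finset.range P'.natDegree, C (PowerSeries.coeff j
        (MvPowerSeries.finSuccEquiv R (n + 1) ((H %ₘ PO P').coeff i))) * X ^ i) = 0 := by
      rw [← B3_coeff_kap, ← Polynomial.as_sum_range_C_mul_X_pow' _ hr, hk, map_zero]
    have h2 := (hW.ker _).1 h1
    have hc : ∀ l, (∑ i ∈ Finset.range P'.natDegree, C (PowerSeries.coeff j
        (MvPowerSeries.finSuccEquiv R (n + 1) ((H %ₘ PO P').coeff i))) * X ^ i).coeff l =
        if l < P'.natDegree then PowerSeries.coeff j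
        (MvPowerSeries.finSuccEquiv R (n + 1) ((H %ₘ PO P').coeff l)) else 0 := by
      intro l
      rw [Polynomial.finsetSum_coeff]
      simp only [Polynomial.coeff_C_mul_X_pow]
      rw [Finset.sum_ite_eq]
      simp only [Finset.mem_range]
    have h3 : (∑ i ∈ Finset.range P'.natDegree, C (PowerSeries.coeff j
        (MvPowerSeries.finSuccEquiv R (n + 1) ((H %ₘ PO P').coeff i))) * X ^ i) = 0 := by
      by_contra hne0
      refine hW.monic.not_dvd_of_degree_lt hne0 ?_ h2
      rw [Polynomial.degree_eq_natDegree hW.monic.ne_zero, Polynomial.degree_lt_iff_coeff_zero]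
      intro l hl
      rw [hc, if_neg (by omega)]
    have h4 := hc i
    rw [h3, if_pos hi, Polynomial.coeff_zero] at h4
    exact h4.symm
  ext1 i
  rw [Polynomial.coeff_zero]
  by_cases hi : i < P'.natDegree
  · apply (MvPowerSeries.finSuccEquiv R (n + 1)).injective
    ext1 j
    rw [hcoef i hi j, map_zero, map_zero]
  · exact Polynomial.coeff_eq_zero_of_natDegree_lt (by omega)

/-- `Y ↦ b`, the other variables fixed -/
private theorem B3_hs_b (b : SR R n) (hb : MvPowerSeries.constantCoeff b = 0) :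
    MvPowerSeries.HasSubst (Fin.cons b (fun j : Fin (n + 1) => (MvPowerSeries.X j : SR R n)) :
      Fin (n + 2) → SR R n) :=
  MvPowerSeries.hasSubst_of_constantCoeff_zero (by
    intro s
    refine Fin.cases ?_ (fun j => ?_) s
    · exact hb
    · simp)

private noncomputable def B3_sig (b : SR R n) (hb : MvPowerSeries.constantCoeff b = 0) :
    OR R n →ₐ[R] SR R n := MvPowerSeries.substAlgHom (B3_hs_b b hb)

private theorem B3_sig_X0 (b : SR R n) (hb : MvPowerSeries.constantCoeff b = 0) :
    B3_sig b hb (MvPowerSeries.X 0) = b :=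
  MvPowerSeries.substAlgHom_X (B3_hs_b b hb) 0

private theorem B3_sig_Xs (b : SR R n) (hb : MvPowerSeries.constantCoeff b = 0) (j : Fin (n + 1)) :
    B3_sig b hb (MvPowerSeries.X j.succ) = MvPowerSeries.X j :=
  MvPowerSeries.substAlgHom_X (B3_hs_b b hb) j.succ

private theorem B3_sig_C (b : SR R n) (hb : MvPowerSeries.constantCoeff b = 0) (r : R) :
    B3_sig b hb (MvPowerSeries.C r) = MvPowerSeries.C r :=
  (B3_sig b hb).commutes r

private theorem B3_sig_iot (b : SR R n) (hb : MvPowerSeries.constantCoeff b = 0) (z : SR R n) :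
    B3_sig b hb ((iot : SR R n →ₐ[R] OR R n) z) = z := by
  have := B3_unique (n + 1) ((B3_sig b hb).toRingHom.comp (iot : SR R n →ₐ[R] OR R n).toRingHom)
    (RingHom.id _) ?_ ?_ ?_
  · exact RingHom.congr_fun this z
  · intro r
    change B3_sig b hb ((iot : SR R n →ₐ[R] OR R n) (MvPowerSeries.C r)) = MvPowerSeries.C r
    rw [B3_iot_C, B3_sig_C]
  · intro i
    change B3_sig b hb ((iot : SR R n →ₐ[R] OR R n) (MvPowerSeries.X i)) = MvPowerSeries.X i
    rw [B3_iot_X, B3_sig_Xs]
  · intro i
    change MvPowerSeries.constantCoeff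
      (B3_sig b hb ((iot : SR R n →ₐ[R] OR R n) (MvPowerSeries.X i))) = 0
    rw [B3_iot_X, B3_sig_Xs, MvPowerSeries.constantCoeff_X]

private theorem B3_esymm_C (z : SR R n) :
    (MvPowerSeries.finSuccEquiv R (n + 1)).symm (PowerSeries.C z) =
      (iot : SR R n →ₐ[R] OR R n) z := by
  rw [← B3_e_iot, AlgEquiv.symm_apply_apply]

private theorem B3_esymm_X :
    (MvPowerSeries.finSuccEquiv R (n + 1)).symm (PowerSeries.X) = (MvPowerSeries.X 0 : OR R n) := by
  rw [← MvPowerSeries.finSuccEquiv_X_zero, AlgEquiv.symm_apply_apply]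

private theorem B3_FF_eq (a b : SR R n) (ha : MvPowerSeries.constantCoeff a = 0)
    (hb : MvPowerSeries.constantCoeff b = 0) (h : OR R n) :
    FF a b ha hb h = B3_sig b hb ((MvPowerSeries.finSuccEquiv R (n + 1)).symm
      (PowerSeries.map (alp a ha).toRingHom (MvPowerSeries.finSuccEquiv R (n + 1) h))) := by
  have := B3_unique (n + 2) ((FF a b ha hb).toRingHom)
    ((B3_sig b hb).toRingHom.comp
      ((MvPowerSeries.finSuccEquiv R (n + 1)).symm.toRingEquiv.toRingHom.comp
        ((PowerSeries.map (alp a ha).toRingHom).comp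
          (MvPowerSeries.finSuccEquiv R (n + 1)).toRingEquiv.toRingHom))) ?_ ?_ ?_
  · exact RingHom.congr_fun this h
  · intro r
    change FF a b ha hb (MvPowerSeries.C r) = B3_sig b hb ((MvPowerSeries.finSuccEquiv R (n + 1)).symm
      (PowerSeries.map (alp a ha).toRingHom (MvPowerSeries.finSuccEquiv R (n + 1)
        (MvPowerSeries.C r))))
    have h1 : FF a b ha hb (MvPowerSeries.C r) = MvPowerSeries.C r := (FF a b ha hb).commutes r
    have h2 : alp a ha (MvPowerSeries.C r) = MvPowerSeries.C r := (alp a ha).commutes r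
    rw [h1, ← B3_iot_C, B3_e_iot, PowerSeries.map_C, B3_esymm_C]
    change MvPowerSeries.C r = B3_sig b hb ((iot : SR R n →ₐ[R] OR R n)
      (alp a ha (MvPowerSeries.C r)))
    rw [h2, B3_sig_iot]
  · intro i
    change FF a b ha hb (MvPowerSeries.X i) = B3_sig b hb ((MvPowerSeries.finSuccEquiv R (n + 1)).symm
      (PowerSeries.map (alp a ha).toRingHom (MvPowerSeries.finSuccEquiv R (n + 1)
        (MvPowerSeries.X i))))
    refine Fin.cases ?_ (fun j => ?_) i
    · rw [B3_FF_X0, MvPowerSeries.finSuccEquiv_X_zero, PowerSeries.map_X, B3_esymm_X, B3_sig_X0]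
    · rw [B3_FF_Xs, ← B3_iot_X, B3_e_iot, PowerSeries.map_C, B3_esymm_C]
      change fa a j = B3_sig b hb ((iot : SR R n →ₐ[R] OR R n) (alp a ha (MvPowerSeries.X j)))
      rw [B3_sig_iot, B3_alp_X]
  · intro i
    change MvPowerSeries.constantCoeff (FF a b ha hb (MvPowerSeries.X i)) = 0
    refine Fin.cases ?_ (fun j => ?_) i
    · rw [B3_FF_X0, hb]
    · rw [B3_FF_Xs, B3_fa_const a ha]

private theorem B3_evO_eq (a b : SR R n) (ha : MvPowerSeries.constantCoeff a = 0)
    (hb : MvPowerSeries.constantCoeff b = 0) (H : (OR R n)[X]) :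
    evO a b ha hb H = B3_sig b hb ((MvPowerSeries.finSuccEquiv R (n + 1)).symm
      (B3_kap a ha H)) := by
  have h1 : evO a b ha hb = (B3_sig b hb).toRingHom.comp
      ((MvPowerSeries.finSuccEquiv R (n + 1)).symm.toRingEquiv.toRingHom.comp (B3_kap a ha)) := by
    apply Polynomial.ringHom_ext
    · intro h
      change evO a b ha hb (C h) = B3_sig b hb ((MvPowerSeries.finSuccEquiv R (n + 1)).symm
        (B3_kap a ha (C h)))
      rw [B3_kap_C, ← B3_FF_eq]
      simp [evO]
    · change evO a b ha hb X = B3_sig b hb ((MvPowerSeries.finSuccEquiv R (n + 1)).symm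
        (B3_kap a ha X))
      rw [B3_kap_X, B3_esymm_C, B3_sig_iot]
      simp [evO]
  exact RingHom.congr_fun h1 H

private theorem B3_cc_iot (b : SR R n) :
    MvPowerSeries.constantCoeff ((iot : SR R n →ₐ[R] OR R n) b) =
      MvPowerSeries.constantCoeff b := by
  have := B3_unique (n + 1)
    ((MvPowerSeries.C : R →+* MvPowerSeries (Fin 0) R).comp
      ((MvPowerSeries.constantCoeff : OR R n →+* R).comp (iot : SR R n →ₐ[R] OR R n).toRingHom))
    ((MvPowerSeries.C : R →+* MvPowerSeries (Fin 0) R).comp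
      (MvPowerSeries.constantCoeff : SR R n →+* R)) ?_ ?_ ?_
  · have h2 := RingHom.congr_fun this b
    have h3 := congrArg MvPowerSeries.constantCoeff h2
    simpa using h3
  · intro r
    change MvPowerSeries.C (MvPowerSeries.constantCoeff ((iot : SR R n →ₐ[R] OR R n)
      (MvPowerSeries.C r))) = MvPowerSeries.C (MvPowerSeries.constantCoeff (MvPowerSeries.C r))
    rw [B3_iot_C, MvPowerSeries.constantCoeff_C, MvPowerSeries.constantCoeff_C]
  · intro i
    change MvPowerSeries.C (MvPowerSeries.constantCoeff ((iot : SR R n →ₐ[R] OR R n)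
      (MvPowerSeries.X i))) = MvPowerSeries.C (MvPowerSeries.constantCoeff (MvPowerSeries.X i))
    rw [B3_iot_X, MvPowerSeries.constantCoeff_X, MvPowerSeries.constantCoeff_X]
  · intro i
    change MvPowerSeries.constantCoeff (MvPowerSeries.C (MvPowerSeries.constantCoeff
      ((iot : SR R n →ₐ[R] OR R n) (MvPowerSeries.X i)))) = 0
    rw [B3_iot_X, MvPowerSeries.constantCoeff_X, MvPowerSeries.constantCoeff_C]

private theorem B3_hs_upd (c : OR R n) (hc : MvPowerSeries.constantCoeff c = 0) :
    MvPowerSeries.HasSubst (Function.update (fun j => (MvPowerSeries.X j : OR R n)) 0 c) :=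
  MvPowerSeries.hasSubst_of_constantCoeff_zero (by
    intro s
    refine Fin.cases ?_ (fun j => ?_) s
    · simpa using hc
    · rw [Function.update_of_ne (Fin.succ_ne_zero j), MvPowerSeries.constantCoeff_X])

private theorem B3_upd_iot (c : OR R n) (hc : MvPowerSeries.constantCoeff c = 0) (b : SR R n) :
    MvPowerSeries.substAlgHom (B3_hs_upd c hc) ((iot : SR R n →ₐ[R] OR R n) b) =
      (iot : SR R n →ₐ[R] OR R n) b := by
  have hX : ∀ j : Fin (n + 1), (MvPowerSeries.substAlgHom (B3_hs_upd c hc) : OR R n →ₐ[R] OR R n)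
      (MvPowerSeries.X j.succ) = MvPowerSeries.X j.succ := by
    intro j
    rw [MvPowerSeries.substAlgHom_X, Function.update_of_ne (Fin.succ_ne_zero j)]
  have := B3_unique (n + 1)
    ((MvPowerSeries.substAlgHom (B3_hs_upd c hc) : OR R n →ₐ[R] OR R n).toRingHom.comp
      (iot : SR R n →ₐ[R] OR R n).toRingHom) (iot : SR R n →ₐ[R] OR R n).toRingHom ?_ ?_ ?_
  · exact RingHom.congr_fun this b
  · intro r
    change (MvPowerSeries.substAlgHom (B3_hs_upd c hc) : OR R n →ₐ[R] OR R n)
      ((iot : SR R n →ₐ[R] OR R n) (MvPowerSeries.C r)) =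
      (iot : SR R n →ₐ[R] OR R n) (MvPowerSeries.C r)
    rw [B3_iot_C]
    exact (MvPowerSeries.substAlgHom (B3_hs_upd c hc) : OR R n →ₐ[R] OR R n).commutes r
  · intro i
    change (MvPowerSeries.substAlgHom (B3_hs_upd c hc) : OR R n →ₐ[R] OR R n)
      ((iot : SR R n →ₐ[R] OR R n) (MvPowerSeries.X i)) =
      (iot : SR R n →ₐ[R] OR R n) (MvPowerSeries.X i)
    rw [B3_iot_X, hX]
  · intro i
    change MvPowerSeries.constantCoeff ((MvPowerSeries.substAlgHom (B3_hs_upd c hc) :
      OR R n →ₐ[R] OR R n) ((iot : SR R n →ₐ[R] OR R n) (MvPowerSeries.X i))) = 0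
    rw [B3_iot_X, hX, MvPowerSeries.constantCoeff_X]

private theorem B3_iot_sig (b : SR R n) (hb : MvPowerSeries.constantCoeff b = 0) (f : OR R n) :
    (iot : SR R n →ₐ[R] OR R n) (B3_sig b hb f) =
      MvPowerSeries.substAlgHom (B3_hs_upd ((iot : SR R n →ₐ[R] OR R n) b)
        ((B3_cc_iot b).trans hb)) f := by
  have := B3_unique (n + 2)
    ((iot : SR R n →ₐ[R] OR R n).toRingHom.comp (B3_sig b hb).toRingHom)
    (MvPowerSeries.substAlgHom (B3_hs_upd ((iot : SR R n →ₐ[R] OR R n) b)
        ((B3_cc_iot b).trans hb)) : OR R n →ₐ[R] OR R n).toRingHom ?_ ?_ ?_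
  · exact RingHom.congr_fun this f
  · intro r
    change (iot : SR R n →ₐ[R] OR R n) (B3_sig b hb (MvPowerSeries.C r)) =
      (MvPowerSeries.substAlgHom (B3_hs_upd ((iot : SR R n →ₐ[R] OR R n) b)
        ((B3_cc_iot b).trans hb)) : OR R n →ₐ[R] OR R n) (MvPowerSeries.C r)
    rw [B3_sig_C, B3_iot_C]
    exact ((MvPowerSeries.substAlgHom (B3_hs_upd ((iot : SR R n →ₐ[R] OR R n) b)
        ((B3_cc_iot b).trans hb)) : OR R n →ₐ[R] OR R n).commutes r).symm
  · intro i
    change (iot : SR R n →ₐ[R] OR R n) (B3_sig b hb (MvPowerSeries.X i)) =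
      (MvPowerSeries.substAlgHom (B3_hs_upd ((iot : SR R n →ₐ[R] OR R n) b)
        ((B3_cc_iot b).trans hb)) : OR R n →ₐ[R] OR R n) (MvPowerSeries.X i)
    rw [MvPowerSeries.substAlgHom_X]
    refine Fin.cases ?_ (fun j => ?_) i
    · rw [B3_sig_X0, Function.update_self]
    · rw [B3_sig_Xs, B3_iot_X, Function.update_of_ne (Fin.succ_ne_zero j)]
  · intro i
    change MvPowerSeries.constantCoeff ((iot : SR R n →ₐ[R] OR R n)
      (B3_sig b hb (MvPowerSeries.X i))) = 0
    rw [B3_cc_iot]
    refine Fin.cases ?_ (fun j => ?_) i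
    · rw [B3_sig_X0, hb]
    · rw [B3_sig_Xs, MvPowerSeries.constantCoeff_X]

private theorem B3_eps_ker (b : SR R n) (hb : MvPowerSeries.constantCoeff b = 0)
    (w : PowerSeries (SR R n))
    (hw : B3_sig b hb ((MvPowerSeries.finSuccEquiv R (n + 1)).symm w) = 0) :
    (PowerSeries.C b - PowerSeries.X) ∣ w := by
  have h0 : MvPowerSeries.constantCoeff (0 : OR R n) = 0 := map_zero _
  have hc : MvPowerSeries.subst (Function.update (fun j => (MvPowerSeries.X j : OR R n)) 0 0)
      ((iot : SR R n →ₐ[R] OR R n) b) = (iot : SR R n →ₐ[R] OR R n) b := by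
    have := B3_upd_iot (0 : OR R n) h0 b
    rwa [MvPowerSeries.coe_substAlgHom] at this
  have h1 := B3_iot_sig b hb ((MvPowerSeries.finSuccEquiv R (n + 1)).symm w)
  rw [hw, map_zero, MvPowerSeries.coe_substAlgHom] at h1
  have h2 := (ker_subst (0 : Fin (n + 2)) ((iot : SR R n →ₐ[R] OR R n) b)
    ((B3_cc_iot b).trans hb) hc _).1 h1.symm
  obtain ⟨g, hg⟩ := h2
  have h3 := congrArg (MvPowerSeries.finSuccEquiv R (n + 1)) hg
  rw [AlgEquiv.apply_symm_apply, map_mul, map_sub, MvPowerSeries.finSuccEquiv_X_zero, B3_e_iot] at h3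
  rw [h3]
  exact ⟨-(MvPowerSeries.finSuccEquiv R (n + 1) g), by ring⟩

end

theorem evO_surj {R : Type*} [CommRing R] {n : ℕ} (a b : SR R n) (ha : MvPowerSeries.constantCoeff a = 0)
    (hb : MvPowerSeries.constantCoeff b = 0) (P' φ : (SR R n)[X]) (hW : Weier a b ha P' φ) :
    ∀ z, ∃ H, evO a b ha hb H = z := by
  intro z
  obtain ⟨H, hH⟩ := hW.surj z
  exact ⟨H.map (iot : SR R n →ₐ[R] OR R n).toRingHom, by rw [B3_evO_map, hH]⟩

theorem evO_ker {R : Type*} [CommRing R] {n : ℕ} (a b : SR R n) (ha : MvPowerSeries.constantCoeff a = 0)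
    (hb : MvPowerSeries.constantCoeff b = 0) (P' φ : (SR R n)[X]) (hW : Weier a b ha P' φ) (H : (OR R n)[X]) :
    evO a b ha hb H = 0 ↔ H ∈ Ideal.span {PO P', QO φ} := by
  constructor
  · intro h
    rw [B3_evO_eq] at h
    obtain ⟨w, hw⟩ := B3_eps_ker b hb _ h
    obtain ⟨Z, hZ⟩ := B3_kap_surj a b ha P' φ hW w
    have h1 : B3_kap a ha (H - QO φ * Z) = 0 := by
      rw [map_sub, map_mul, B3_kap_Q a b ha P' φ hW, hZ, hw, sub_self]
    obtain ⟨Y, hY⟩ := B3_kap_ker a b ha P' φ hW _ h1
    rw [Ideal.mem_span_pair]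
    exact ⟨Y, Z, by rw [mul_comm Y, ← hY]; ring⟩
  · intro h
    rw [Ideal.mem_span_pair] at h
    obtain ⟨u, v, rfl⟩ := h
    have hP : evO a b ha hb (PO P') = 0 := by
      rw [PO, B3_evO_map]
      exact (hW.ker P').2 dvd_rfl
    have hQ : evO a b ha hb (QO φ) = 0 := by
      rw [QO, map_sub, B3_evO_map, hW.val, sub_eq_zero]
      simp only [evO, Polynomial.coe_eval₂RingHom, Polynomial.eval₂_C]
      exact (B3_FF_X0 a b ha hb).symm
    rw [map_add, map_mul, map_mul, hP, hQ, mul_zero, mul_zero, add_zero]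

end Pool.Agent.LibMF6
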