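import Pool.Agent.LibMF6.Defs

set_option autoImplicit false

/-! Definitions for the bridge between germs and the pair `(P, Q)`. -/

namespace Pool.Agent.LibMF6

open Polynomial

section

variable {R : Type*} [CommRing R] {n : ℕ}

/-- source ring `R[[x,u]]` (variable 0 is `x`); also used for the ring `R[[X,u]]` (variable 0 is `X`) -/
abbrev SR (R : Type*) [CommRing R] (n : ℕ) := MvPowerSeries (Fin (n + 1)) R

/-- target ring `R[[Y,X,u]]` (variable 0 is `Y`, variable 1 is `X`) -/
abbrev OR (R : Type*) [CommRing R] (n : ℕ) := MvPowerSeries (Fin (n + 2)) R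

/-- `X ↦ a, u ↦ u` -/
noncomputable def fa (a : SR R n) : Fin (n + 1) → SR R n := Fin.cons a fun j : Fin n => MvPowerSeries.X j.succ

theorem hs_fa (a : SR R n) (ha : MvPowerSeries.constantCoeff a = 0) : MvPowerSeries.HasSubst (fa a) :=
  MvPowerSeries.hasSubst_of_constantCoeff_zero (by
    intro s
    refine Fin.cases ?_ (fun j => ?_) s
    · exact ha
    · simp [fa])

theorem hs_germ (a b : SR R n) (ha : MvPowerSeries.constantCoeff a = 0) (hb : MvPowerSeries.constantCoeff b = 0) :
    MvPowerSeries.HasSubst (germ R a b) :=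
  MvPowerSeries.hasSubst_of_constantCoeff_zero (by
    intro s
    refine Fin.cases ?_ (fun j => ?_) s
    · exact hb
    · refine Fin.cases ?_ (fun i => ?_) j
      · exact ha
      · simp [germ])

theorem hs_succ : MvPowerSeries.HasSubst (fun j : Fin (n + 1) => (MvPowerSeries.X j.succ : OR R n)) :=
  MvPowerSeries.hasSubst_of_constantCoeff_zero (by intro s; simp)

/-- `R[[X,u]] → R[[x,u]]`, `X ↦ a` -/
noncomputable def alp (a : SR R n) (ha : MvPowerSeries.constantCoeff a = 0) : SR R n →ₐ[R] SR R n :=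
  MvPowerSeries.substAlgHom (hs_fa a ha)

/-- `F^* : R[[Y,X,u]] → R[[x,u]]`, `Y ↦ b`, `X ↦ a` -/
noncomputable def FF (a b : SR R n) (ha : MvPowerSeries.constantCoeff a = 0) (hb : MvPowerSeries.constantCoeff b = 0) :
    OR R n →ₐ[R] SR R n :=
  MvPowerSeries.substAlgHom (hs_germ a b ha hb)

/-- the inclusion `R[[X,u]] → R[[Y,X,u]]` -/
noncomputable def iot : SR R n →ₐ[R] OR R n := MvPowerSeries.substAlgHom hs_succ

/-- `R[[X,u]][x] → R[[x,u]]` -/
noncomputable def evS (a : SR R n) (ha : MvPowerSeries.constantCoeff a = 0) : (SR R n)[X] →+* SR R n :=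
  Polynomial.eval₂RingHom (alp a ha : SR R n →+* SR R n) (MvPowerSeries.X 0)

/-- `R[[Y,X,u]][x] → R[[x,u]]` -/
noncomputable def evO (a b : SR R n) (ha : MvPowerSeries.constantCoeff a = 0) (hb : MvPowerSeries.constantCoeff b = 0) :
    (OR R n)[X] →+* SR R n :=
  Polynomial.eval₂RingHom (FF a b ha hb : OR R n →+* SR R n) (MvPowerSeries.X 0)

/-- Weierstrass data: `P' = P'(X,u;x)` monic generates the kernel of `X ↦ a`, and `φ(a,u;x) = b` -/
structure Weier (a b : SR R n) (ha : MvPowerSeries.constantCoeff a = 0) (P' φ : (SR R n)[X]) : Prop where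
  monic : P'.Monic
  pos : 0 < P'.natDegree
  deg : φ.degree < P'.degree
  surj : ∀ z, ∃ H, evS a ha H = z
  ker : ∀ H, evS a ha H = 0 ↔ P' ∣ H
  val : evS a ha φ = b
  unit : IsUnit (evS a ha (dC (fun z => MvPowerSeries.pderiv R (0 : Fin (n + 1)) z) P'))

/-- `P` over `R[[Y,X,u]]` -/
noncomputable def PO (P' : (SR R n)[X]) : (OR R n)[X] := P'.map (iot : SR R n →ₐ[R] OR R n).toRingHom

/-- `Q = φ - Y` -/
noncomputable def QO (φ : (SR R n)[X]) : (OR R n)[X] := φ.map (iot : SR R n →ₐ[R] OR R n).toRingHom - C (MvPowerSeries.X 0)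

theorem PO_monic (P' : (SR R n)[X]) (h : P'.Monic) : (PO P').Monic := h.map _

/-- the relative partial derivatives -/
noncomputable def dO (j : Fin (n + 2)) : OR R n → OR R n := fun z => MvPowerSeries.pderiv R j z

end

end Pool.Agent.LibMF6
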