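import Pool.Agent.LibMF6.A0
import Pool.Agent.LibMF6.BDefs
import Pool.Agent.LibMF6.B4

set_option autoImplicit false

/-! ROW B5. Chain rules for `evS` and `evO`. -/

namespace Pool.Agent.LibMF6

open Polynomial

private theorem B5_dC_monomial {R A : Type*} [CommRing R] [CommRing A] [Algebra R A]
    (D : Derivation R A A) (n : ℕ) (c : A) : dC D (monomial n c) = monomial n (D c) := by
  ext i
  rw [coeff_dC, coeff_monomial, coeff_monomial]
  by_cases h : n = i
  · rw [if_pos h, if_pos h]
  · rw [if_neg h, if_neg h, map_zero]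

private theorem B5_main {R A B : Type*} [CommRing R] [CommRing A] [CommRing B] [Algebra R A]
    [Algebra R B] {J : Type*} [Fintype J] (φ : A →+* B) (x δ : B) (D : Derivation R B B)
    (hx : D x = δ) (Dj : J → Derivation R A A) (g : J → B)
    (h : ∀ c, D (φ c) = ∑ j, φ (Dj j c) * g j) (H : A[X]) :
    D (eval₂RingHom φ x H) =
      (∑ j, eval₂RingHom φ x (dC (Dj j) H) * g j) + δ * eval₂RingHom φ x (derivative H) := by
  induction H using Polynomial.induction_on' with
  | add p q hp hq =>
    rw [map_add, map_add, hp, hq, derivative_add, map_add, mul_add]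
    have h1 : ∑ j, eval₂RingHom φ x (dC (Dj j) (p + q)) * g j =
        (∑ j, eval₂RingHom φ x (dC (Dj j) p) * g j) + ∑ j, eval₂RingHom φ x (dC (Dj j) q) * g j := by
      rw [← Finset.sum_add_distrib]
      refine Finset.sum_congr rfl fun j _ => ?_
      rw [dC_add, map_add, add_mul]
    rw [h1]
    ring
  | monomial n c =>
    have h1 : ∀ (m : ℕ) (d : A), eval₂RingHom φ x (monomial m d) = φ d * x ^ m := fun m d => by
      rw [coe_eval₂RingHom, eval₂_monomial]
    rw [h1, Derivation.leibniz, Derivation.leibniz_pow, hx, h c, derivative_monomial, h1]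
    have h2 : ∑ j, eval₂RingHom φ x (dC (Dj j) (monomial n c)) * g j =
        x ^ n * ∑ j, φ (Dj j c) * g j := by
      rw [Finset.mul_sum]
      refine Finset.sum_congr rfl fun j _ => ?_
      rw [B5_dC_monomial, h1]
      ring
    rw [h2, map_mul, map_natCast, smul_eq_mul, smul_eq_mul, smul_eq_mul, nsmul_eq_mul]
    ring

theorem pderiv_evO {R : Type*} [CommRing R] {n : ℕ} (a b : SR R n) (ha : MvPowerSeries.constantCoeff a = 0)
    (hb : MvPowerSeries.constantCoeff b = 0) (H : (OR R n)[X]) (i : Fin (n + 1)) :
    MvPowerSeries.pderiv R i (evO a b ha hb H) =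
      (∑ j : Fin (n + 2), evO a b ha hb (dC (dO j) H) * MvPowerSeries.pderiv R i (germ R a b j)) +
      (if i = 0 then evO a b ha hb (derivative H) else 0) := by
  have hg : ∀ j, MvPowerSeries.constantCoeff (germ R a b j) = 0 := by
    intro s
    refine Fin.cases ?_ (fun j => ?_) s
    · exact hb
    · refine Fin.cases ?_ (fun i => ?_) j
      · exact ha
      · simp [germ]
  have h1 := B5_main (FF a b ha hb : OR R n →+* SR R n) (MvPowerSeries.X 0)
    (if i = 0 then 1 else 0) (MvPowerSeries.pderiv R i) (by
      by_cases h : i = 0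
      · rw [if_pos h, h, MvPowerSeries.pderiv_X_self]
      · rw [if_neg h, MvPowerSeries.pderiv_X_of_ne (fun h' => h h'.symm)])
    (fun j : Fin (n + 2) => MvPowerSeries.pderiv R j)
    (fun j => MvPowerSeries.pderiv R i (germ R a b j)) (fun c => by
      have h2 : ∀ z : OR R n, (FF a b ha hb : OR R n →+* SR R n) z =
          MvPowerSeries.subst (germ R a b) z := fun z =>
        MvPowerSeries.substAlgHom_apply (hs_germ a b ha hb) z
      rw [h2, pderiv_subst (germ R a b) hg c i]
      refine Finset.sum_congr rfl fun j _ => ?_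
      rw [h2]) H
  rw [ite_mul, one_mul, zero_mul] at h1
  exact h1

theorem pderiv_evS {R : Type*} [CommRing R] {n : ℕ} (a : SR R n) (ha : MvPowerSeries.constantCoeff a = 0)
    (H : (SR R n)[X]) (i : Fin (n + 1)) :
    MvPowerSeries.pderiv R i (evS a ha H) =
      (∑ j : Fin (n + 1), evS a ha (dC (fun z => MvPowerSeries.pderiv R j z) H) * MvPowerSeries.pderiv R i (fa a j)) +
      (if i = 0 then evS a ha (derivative H) else 0) := by
  have hg : ∀ j, MvPowerSeries.constantCoeff (fa a j) = 0 := by
    intro s
    refine Fin.cases ?_ (fun j => ?_) s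
    · exact ha
    · simp [fa]
  have h1 := B5_main (alp a ha : SR R n →+* SR R n) (MvPowerSeries.X 0)
    (if i = 0 then 1 else 0) (MvPowerSeries.pderiv R i) (by
      by_cases h : i = 0
      · rw [if_pos h, h, MvPowerSeries.pderiv_X_self]
      · rw [if_neg h, MvPowerSeries.pderiv_X_of_ne (fun h' => h h'.symm)])
    (fun j : Fin (n + 1) => MvPowerSeries.pderiv R j)
    (fun j => MvPowerSeries.pderiv R i (fa a j)) (fun c => by
      have h2 : ∀ z : SR R n, (alp a ha : SR R n →+* SR R n) z =
          MvPowerSeries.subst (fa a) z := fun z =>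
        MvPowerSeries.substAlgHom_apply (hs_fa a ha) z
      rw [h2, pderiv_subst (fa a) hg c i]
      refine Finset.sum_congr rfl fun j _ => ?_
      rw [h2]) H
  rw [ite_mul, one_mul, zero_mul] at h1
  exact h1

end Pool.Agent.LibMF6
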