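import Pool.Agent.LibMF6.CDefs
import Pool.Agent.LibMF6.A0

set_option autoImplicit false

/-! ROW B6a (MEDIUM, CDefs, A0). VV P / WN = S^2 / NS. P = PO P', Q = QO φ, S = SR R n.
 evO P = evS P' = 0 (FF ∘ iot = alp: subst composition), so evO factors through evB : AdjoinRoot P →+* S (AdjoinRoot.lift), surjective, kernel = multiples of mk Q (from hker: evO H = 0 ↔ H ∈ (P, Q), given as hypothesis).
 Map Φ : VV P → S^2, v ↦ (evB v_1, evB v_2), R-linear, surjective. Φ⁻¹(NS) = WN:
  ≥: generators of WN: e0 b ↦ 0; b • K1 ↦ (evB(b) evO Q, 0) = 0; b • K2 ↦ 0; b • K3 ↦ evB(b) (-Q', P') ∈ NS; wv j ↦ (evO dC_j Q, -evO dC_j P) ∈ NS. WN is an O-submodule: for h ∈ O: Φ(h v) = FF(h) Φ(v), and NS is stable under FF(h).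
  ≤: if Φ v ∈ NS, subtract from v elements of WN mapping to the two kinds of generators (b with evB b = c; h • wv j) to reach Φ v = 0: v_1, v_2 ∈ q B: v = (v_0, q b_1, q b_2) ∈ WN by K1, K2 and the e0 b.
 T1_a: quotient isomorphism (Submodule.Quotient.equiv / LinearMap.quotKerEquivOfSurjective of (mkQ NS) ∘ Φ with kernel = WN as R-submodules; the R-module structure on VV P ⧸ WN is the one found by instance search). -/

namespace Pool.Agent.LibMF6

open Polynomial

section B6a

variable {R : Type*} [CommRing R] {n : ℕ} (a b : SR R n) (ha : MvPowerSeries.constantCoeff a = 0)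
    (hb : MvPowerSeries.constantCoeff b = 0)

/-- `NS` is stable under `F^*` -/
private theorem B6a_stable (P Q : (OR R n)[X]) (h : OR R n) (y : Fin 2 → SR R n)
    (hy : y ∈ NS a b ha hb P Q) : FF a b ha hb h • y ∈ NS a b ha hb P Q := by
  unfold NS at hy ⊢
  induction hy using Submodule.span_induction with
  | mem x hx =>
    apply Submodule.subset_span
    rcases hx with ⟨c, rfl⟩ | ⟨j, h', rfl⟩
    · left
      refine ⟨FF a b ha hb h * c, ?_⟩
      funext i
      fin_cases i <;> simp [mul_assoc]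
    · right
      refine ⟨j, h * h', ?_⟩
      funext i
      fin_cases i <;> simp [mul_assoc]
  | zero => simp
  | add x y _ _ h1 h2 =>
    rw [smul_add]
    exact Submodule.add_mem _ h1 h2
  | smul r x _ h1 =>
    have : FF a b ha hb h • r • x = r • (FF a b ha hb h • x) := by
      rw [smul_comm]
    rw [this]
    exact Submodule.smul_mem _ _ h1

variable (P Q : (OR R n)[X]) (hP : evO a b ha hb P = 0)

/-- the evaluation on `B` -/
private noncomputable def B6a_evB : AdjoinRoot P →+* SR R n :=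
  AdjoinRoot.lift (FF a b ha hb : OR R n →+* SR R n) (MvPowerSeries.X 0) hP

private theorem B6a_evB_mk (H : (OR R n)[X]) :
    B6a_evB a b ha hb P hP (AdjoinRoot.mk P H) = evO a b ha hb H :=
  AdjoinRoot.lift_mk _ _

private theorem B6a_evB_smul (h : OR R n) (z : AdjoinRoot P) :
    B6a_evB a b ha hb P hP (h • z) = FF a b ha hb h * B6a_evB a b ha hb P hP z := by
  rw [Algebra.smul_def, map_mul]
  congr 1
  exact AdjoinRoot.lift_of _

private theorem B6a_evB_smulR (r : R) (z : AdjoinRoot P) :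
    B6a_evB a b ha hb P hP (r • z) = r • B6a_evB a b ha hb P hP z := by
  have : r • z = (algebraMap R (OR R n) r) • z := by
    rw [algebraMap_smul]
  rw [this, B6a_evB_smul, AlgHom.commutes, ← Algebra.smul_def]

/-- the map `Φ` -/
private noncomputable def B6a_Phi : VV P →ₗ[R] (Fin 2 → SR R n) where
  toFun v := ![B6a_evB a b ha hb P hP (v 1), B6a_evB a b ha hb P hP (v 2)]
  map_add' v w := by
    funext i
    fin_cases i <;> simp
  map_smul' r v := by
    funext i
    fin_cases i <;> simp [B6a_evB_smulR]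

private theorem B6a_Phi_apply (v : VV P) : B6a_Phi a b ha hb P hP v =
    ![B6a_evB a b ha hb P hP (v 1), B6a_evB a b ha hb P hP (v 2)] := rfl

private theorem B6a_Phi_smul (h : OR R n) (v : VV P) :
    B6a_Phi a b ha hb P hP (h • v) = FF a b ha hb h • B6a_Phi a b ha hb P hP v := by
  rw [B6a_Phi_apply, B6a_Phi_apply]
  funext i
  fin_cases i <;> simp [B6a_evB_smul]

/-- preimage of `NS` as an `O`-submodule -/
private noncomputable def B6a_pre : Submodule (OR R n) (VV P) where
  carrier := {v | B6a_Phi a b ha hb P hP v ∈ NS a b ha hb P Q}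
  add_mem' := by
    intro v w hv hw
    change B6a_Phi a b ha hb P hP (v + w) ∈ NS a b ha hb P Q
    rw [map_add]
    exact Submodule.add_mem _ hv hw
  zero_mem' := by
    change B6a_Phi a b ha hb P hP 0 ∈ NS a b ha hb P Q
    rw [map_zero]
    exact Submodule.zero_mem _
  smul_mem' := by
    intro h v hv
    change B6a_Phi a b ha hb P hP (h • v) ∈ NS a b ha hb P Q
    rw [B6a_Phi_smul]
    exact B6a_stable a b ha hb P Q h _ hv

private theorem B6a_mem_pre (v : VV P) : v ∈ B6a_pre a b ha hb P Q hP ↔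
    B6a_Phi a b ha hb P hP v ∈ NS a b ha hb P Q := Iff.rfl

private theorem B6a_le (hM : P.Monic) (hQ : evO a b ha hb Q = 0) (l : Fin (n + 2) → OR R n) :
    WN P Q hM dO l ≤ B6a_pre a b ha hb P Q hP := by
  unfold WN WM W0
  refine sup_le (sup_le ?_ ?_) ?_
  · rw [Submodule.span_le]
    rintro v (⟨c, rfl⟩ | ⟨c, rfl⟩ | ⟨c, rfl⟩ | ⟨c, _, rfl⟩)
    · rw [SetLike.mem_coe, B6a_mem_pre, B6a_Phi_apply]
      have : (![B6a_evB a b ha hb P hP ((c • K1 P Q) 1), B6a_evB a b ha hb P hP ((c • K1 P Q) 2)] :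
          Fin 2 → SR R n) = 0 := by
        funext i
        fin_cases i <;> simp [K1, B6a_evB_mk, hQ]
      rw [this]
      exact Submodule.zero_mem _
    · rw [SetLike.mem_coe, B6a_mem_pre, B6a_Phi_apply]
      have : (![B6a_evB a b ha hb P hP ((c • K2 P Q) 1), B6a_evB a b ha hb P hP ((c • K2 P Q) 2)] :
          Fin 2 → SR R n) = 0 := by
        funext i
        fin_cases i <;> simp [K2, B6a_evB_mk, hQ]
      rw [this]
      exact Submodule.zero_mem _
    · rw [SetLike.mem_coe, B6a_mem_pre, B6a_Phi_apply]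
      apply Submodule.subset_span
      left
      refine ⟨B6a_evB a b ha hb P hP c, ?_⟩
      funext i
      fin_cases i <;> simp [K3, B6a_evB_mk]
    · rw [SetLike.mem_coe, B6a_mem_pre, B6a_Phi_apply]
      have : (![B6a_evB a b ha hb P hP ((e0 P c) 1), B6a_evB a b ha hb P hP ((e0 P c) 2)] :
          Fin 2 → SR R n) = 0 := by
        funext i
        fin_cases i <;> simp [e0]
      rw [this]
      exact Submodule.zero_mem _
  · rw [Submodule.span_le]
    rintro v ⟨j, rfl⟩
    rw [SetLike.mem_coe, B6a_mem_pre, B6a_Phi_apply]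
    apply Submodule.subset_span
    right
    refine ⟨j, 1, ?_⟩
    funext i
    fin_cases i <;> simp [wv, B6a_evB_mk]
  · rw [Submodule.span_le]
    rintro v ⟨c, rfl⟩
    rw [SetLike.mem_coe, B6a_mem_pre, B6a_Phi_apply]
    have : (![B6a_evB a b ha hb P hP ((e0 P c) 1), B6a_evB a b ha hb P hP ((e0 P c) 2)] :
        Fin 2 → SR R n) = 0 := by
      funext i
      fin_cases i <;> simp [e0]
    rw [this]
    exact Submodule.zero_mem _

private theorem B6a_W0 (hM : P.Monic) (l : Fin (n + 2) → OR R n) {v : VV P}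
    (hv : v ∈ W0 P Q hM) : v ∈ WN P Q hM dO l :=
  Submodule.mem_sup_left (Submodule.mem_sup_left hv)

/-- the kernel of `Φ` -/
private theorem B6a_ker (hM : P.Monic) (l : Fin (n + 2) → OR R n)
    (hker : ∀ H, evO a b ha hb H = 0 ↔ H ∈ Ideal.span {P, Q}) (v : VV P)
    (hv : B6a_Phi a b ha hb P hP v = 0) : v ∈ WN P Q hM dO l := by
  have hk : ∀ z : AdjoinRoot P, B6a_evB a b ha hb P hP z = 0 →
      ∃ c : AdjoinRoot P, z = c * AdjoinRoot.mk P Q := by
    intro z hz
    obtain ⟨H, rfl⟩ := AdjoinRoot.mk_surjective z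
    rw [B6a_evB_mk, hker, Ideal.mem_span_pair] at hz
    obtain ⟨s, t, rfl⟩ := hz
    refine ⟨AdjoinRoot.mk P t, ?_⟩
    rw [map_add, map_mul, map_mul, AdjoinRoot.mk_self, mul_zero, zero_add]
  rw [B6a_Phi_apply] at hv
  obtain ⟨c1, h1⟩ := hk (v 1) (by simpa using congrFun hv 0)
  obtain ⟨c2, h2⟩ := hk (v 2) (by simpa using congrFun hv 1)
  have e1 : v = c1 • K1 P Q + c2 • K2 P Q +
      e0 P (v 0 + c1 * AdjoinRoot.mk P (derivative P) + c2 * AdjoinRoot.mk P (derivative Q)) := by
    funext i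
    fin_cases i
    · simp [K1, K2, e0]
      ring
    · simp [K1, K2, e0, h1]
    · simp [K1, K2, e0, h2]
  rw [e1]
  refine Submodule.add_mem _ (Submodule.add_mem _ ?_ ?_) ?_
  · exact B6a_W0 P Q hM l (Submodule.subset_span (Or.inl ⟨c1, rfl⟩))
  · exact B6a_W0 P Q hM l (Submodule.subset_span (Or.inr (Or.inl ⟨c2, rfl⟩)))
  · exact Submodule.mem_sup_right (Submodule.subset_span ⟨_, rfl⟩)

/-- every element of `NS` is the image of an element of `WN` -/
private theorem B6a_NS_le (hM : P.Monic) (l : Fin (n + 2) → OR R n)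
    (hs : ∀ z, ∃ c, B6a_evB a b ha hb P hP c = z) :
    NS a b ha hb P Q ≤
      Submodule.map (B6a_Phi a b ha hb P hP) ((WN P Q hM dO l).restrictScalars R) := by
  refine Submodule.span_le.2 ?_
  rintro y (⟨c, rfl⟩ | ⟨j, h, rfl⟩)
  · obtain ⟨c, rfl⟩ := hs c
    rw [SetLike.mem_coe, Submodule.mem_map]
    refine ⟨c • K3 P Q, ?_, ?_⟩
    · exact B6a_W0 P Q hM l (Submodule.subset_span (Or.inr (Or.inr (Or.inl ⟨c, rfl⟩))))
    · rw [B6a_Phi_apply]
      funext i
      fin_cases i <;> simp [K3, B6a_evB_mk]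
  · rw [SetLike.mem_coe, Submodule.mem_map]
    refine ⟨h • wv P Q (dO j) (l j), ?_, ?_⟩
    · have h5 : wv P Q (dO j) (l j) ∈
          Submodule.span (OR R n) (Set.range fun j => wv P Q (dO j) (l j)) :=
        Submodule.subset_span ⟨j, rfl⟩
      have h6 : wv P Q (dO j) (l j) ∈ WN P Q hM dO l :=
        Submodule.mem_sup_left (Submodule.mem_sup_right h5)
      exact Submodule.smul_mem (WN P Q hM dO l) h h6
    · rw [B6a_Phi_smul, B6a_Phi_apply]
      funext i
      fin_cases i <;> simp [wv, B6a_evB_mk]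

end B6a

theorem T1_a {R : Type*} [CommRing R] {n : ℕ} (a b : SR R n) (ha : MvPowerSeries.constantCoeff a = 0)
    (hb : MvPowerSeries.constantCoeff b = 0) (P' φ : (SR R n)[X]) (hW : Weier a b ha P' φ)
    (hsurj : ∀ z, ∃ H, evO a b ha hb H = z)
    (hker : ∀ H, evO a b ha hb H = 0 ↔ H ∈ Ideal.span {PO P', QO φ}) (l : Fin (n + 2) → OR R n) :
    Nonempty ((VV (PO P') ⧸ WN (PO P') (QO φ) (PO_monic P' hW.monic) dO l) ≃ₗ[R]
      ((Fin 2 → SR R n) ⧸ NS a b ha hb (PO P') (QO φ))) := by
  have hP : evO a b ha hb (PO P') = 0 := (hker _).2 (Ideal.subset_span (by simp))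
  have hQ : evO a b ha hb (QO φ) = 0 := (hker _).2 (Ideal.subset_span (by simp))
  have hs : ∀ z, ∃ c, B6a_evB a b ha hb (PO P') hP c = z := by
    intro z
    obtain ⟨H, rfl⟩ := hsurj z
    exact ⟨AdjoinRoot.mk _ H, B6a_evB_mk _ _ _ _ _ _ _⟩
  have hM := PO_monic P' hW.monic
  set Φ := B6a_Phi a b ha hb (PO P') hP with hΦ
  have hsurjΦ : Function.Surjective Φ := by
    intro y
    obtain ⟨c1, h1⟩ := hs (y 0)
    obtain ⟨c2, h2⟩ := hs (y 1)
    refine ⟨![0, c1, c2], ?_⟩
    rw [hΦ, B6a_Phi_apply]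
    funext i
    fin_cases i
    · simp [h1]
    · simp [h2]
  set f := (NS a b ha hb (PO P') (QO φ)).mkQ.comp Φ with hf
  have hfs : Function.Surjective f := (Submodule.mkQ_surjective _).comp hsurjΦ
  have hk : (WN (PO P') (QO φ) (PO_monic P' hW.monic) dO l).restrictScalars R = LinearMap.ker f := by
    apply le_antisymm
    · intro v hv
      rw [LinearMap.mem_ker, hf, LinearMap.comp_apply, Submodule.mkQ_apply,
        Submodule.Quotient.mk_eq_zero]
      exact B6a_le a b ha hb (PO P') (QO φ) hP _ hQ l hv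
    · intro v hv
      rw [LinearMap.mem_ker, hf, LinearMap.comp_apply, Submodule.mkQ_apply,
        Submodule.Quotient.mk_eq_zero] at hv
      obtain ⟨w, hw, hwv⟩ := B6a_NS_le a b ha hb (PO P') (QO φ) hP (PO_monic P' hW.monic) l hs hv
      have h3 : v - w ∈ WN (PO P') (QO φ) (PO_monic P' hW.monic) dO l := by
        apply B6a_ker a b ha hb (PO P') (QO φ) hP _ l hker
        rw [map_sub, hwv, sub_self]
      have h4 : v = (v - w) + w := by abel
      rw [h4]
      exact Submodule.add_mem _ h3 hw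
  exact ⟨(Submodule.Quotient.restrictScalarsEquiv R _).symm.trans
    ((Submodule.quotEquivOfEq _ _ hk).trans (f.quotKerEquivOfSurjective hfs))⟩

end Pool.Agent.LibMF6
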