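import Pool.Agent.LibMF6.CDefs
import Pool.Agent.LibMF6.A0
import Pool.Agent.LibMF6.B5

set_option autoImplicit false

/-! ROW B6b (MEDIUM/LONG, CDefs, A0, B5). T1 R (germ a b) = S^2 / NS. Notation: F = germ R a b = (b, a, u_1..u_n) (target index 0: Y, 1: X, j+2: u_(j+1)), S = SR R n, source variables x = X 0, u_j = X j.succ; P = PO P', Q = QO φ.
 dC (dO 0) P = 0, dC (dO 0) Q = -1 (P, φ come from R[[X,u]]: pderiv 0 (iot h) = 0 by B4/pderiv_subst or coefficients), evO (dC (dO 1) P) = evS (dC (pderiv 0) P') =: u1, a unit (hW.unit) (dO 1 (iot h) = iot (pderiv 0 h)); u2 := evO (dC (dO 1) Q).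
 Chain rule (pderiv_evO) for P and Q, evO P = evO Q = 0 (hker). With A_j(H) := evO (dC (dO j) H), ∂_x = pderiv 0, ∂_j = pderiv j.succ:
   x:   A_0(H) ∂_x b + A_1(H) ∂_x a + evO(H') = 0,      u_j: A_0(H) ∂_j b + A_1(H) ∂_j a + A_(j+2)(H) = 0     (H = P, Q).
 Ψ : θ(F) → S^2, Ψ(ξ) = (-β + α u2, -α u1), β = ξ_0 - ∑_j ξ_(j+2) ∂_j b, α = ξ_1 - ∑_j ξ_(j+2) ∂_j a   (= (A_0(Q) β + A_1(Q) α, -(A_0(P) β + A_1(P) α))). R-linear (even S-linear), surjective (u1 unit; take ξ_(j+2) = 0).
 Ψ⁻¹(NS) = tf ⊔ wf: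
   tf: ξ = ∑_i c_i ∂_i F: i = u_j: ξ = (c ∂_j b, c ∂_j a, .., c at j+2, ..): Ψ = 0. i = x: Ψ(c ∂_x b, c ∂_x a, 0) = c (A_0(Q) ∂_x b + A_1(Q) ∂_x a, -(..P)) = c (-evO Q', evO P') ∈ NS; all first generators of NS arise so.
   wf: ξ = (FF h) e_i: i = 0, 1: Ψ = FF(h) (A_i(Q), -A_i(P)) ∈ NS. i = j+2: Ψ = -FF(h) (A_0(Q) ∂_j b + A_1(Q) ∂_j a, -(..)) = FF(h) (A_(j+2)(Q), -A_(j+2)(P)) ∈ NS; all second generators of NS arise so.
   So Ψ(tf ⊔ wf) = NS, and ker Ψ ≤ tf: Ψ ξ = 0 ⇒ α = 0 (u1 unit), β = 0, so ξ = ∑_j ξ_(j+2) ∂_j F. (subst F h = FF h definitionally: substAlgHom.) -/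

namespace Pool.Agent.LibMF6

open Polynomial

section B6b

private theorem B6b_equiv {R V W : Type*} [CommRing R] [AddCommGroup V] [AddCommGroup W]
    [Module R V] [Module R W] (f : V →ₗ[R] W) (hf : Function.Surjective f) (N : Submodule R V)
    (N' : Submodule R W) (h1 : ∀ v ∈ N, f v ∈ N') (h2 : N' ≤ N.map f)
    (h3 : ∀ v, f v = 0 → v ∈ N) : Nonempty ((V ⧸ N) ≃ₗ[R] (W ⧸ N')) := by
  have hfs : Function.Surjective (N'.mkQ.comp f) := (Submodule.mkQ_surjective _).comp hf
  have hk : N = LinearMap.ker (N'.mkQ.comp f) := by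
    apply le_antisymm
    · intro v hv
      rw [LinearMap.mem_ker, LinearMap.comp_apply, Submodule.mkQ_apply,
        Submodule.Quotient.mk_eq_zero]
      exact h1 v hv
    · intro v hv
      rw [LinearMap.mem_ker, LinearMap.comp_apply, Submodule.mkQ_apply,
        Submodule.Quotient.mk_eq_zero] at hv
      obtain ⟨w, hw, hwv⟩ := h2 hv
      have h5 : v - w ∈ N := by
        apply h3
        rw [map_sub, hwv, sub_self]
      have h4 : v = (v - w) + w := by abel
      rw [h4]
      exact Submodule.add_mem _ h5 hw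
  exact ⟨(Submodule.quotEquivOfEq _ _ hk).trans ((N'.mkQ.comp f).quotKerEquivOfSurjective hfs)⟩

variable {R : Type*} [CommRing R] {n : ℕ} (a b : SR R n) (ha : MvPowerSeries.constantCoeff a = 0)
    (hb : MvPowerSeries.constantCoeff b = 0)

private theorem B6b_FF (h : OR R n) : FF a b ha hb h = MvPowerSeries.subst (germ R a b) h := by
  unfold FF
  rw [MvPowerSeries.coe_substAlgHom]

private theorem B6b_FF_iot (h : SR R n) : FF a b ha hb (iot h) = alp a ha h := by
  unfold FF iot alp
  rw [MvPowerSeries.coe_substAlgHom, MvPowerSeries.coe_substAlgHom,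
    MvPowerSeries.coe_substAlgHom,
    MvPowerSeries.subst_comp_subst_apply hs_succ (hs_germ a b ha hb)]
  congr 1
  funext s
  rw [MvPowerSeries.subst_X (hs_germ a b ha hb)]
  rfl

private theorem B6b_evO_map (H : (SR R n)[X]) :
    evO a b ha hb (H.map (iot : SR R n →ₐ[R] OR R n).toRingHom) = evS a ha H := by
  unfold evO evS
  rw [coe_eval₂RingHom, coe_eval₂RingHom, eval₂_map]
  congr 1
  ext1 h
  exact B6b_FF_iot a b ha hb h

private theorem B6b_dO_iot (h : SR R n) (j : Fin (n + 2)) :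
    MvPowerSeries.pderiv R j (iot h : OR R n) =
      ∑ s : Fin (n + 1), (iot (MvPowerSeries.pderiv R s h) : OR R n) *
        MvPowerSeries.pderiv R j (MvPowerSeries.X s.succ : OR R n) := by
  have := pderiv_subst (R := R) (fun j : Fin (n + 1) => (MvPowerSeries.X j.succ : OR R n))
    (by intro s; simp) h j
  unfold iot
  rw [MvPowerSeries.coe_substAlgHom]
  exact this

private theorem B6b_dO_zero (h : SR R n) :
    MvPowerSeries.pderiv R (0 : Fin (n + 2)) (iot h : OR R n) = 0 := by
  rw [B6b_dO_iot]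
  refine Finset.sum_eq_zero fun s _ => ?_
  rw [MvPowerSeries.pderiv_X_of_ne (Fin.succ_ne_zero s), mul_zero]

private theorem B6b_dO_one (h : SR R n) :
    MvPowerSeries.pderiv R (1 : Fin (n + 2)) (iot h : OR R n) =
      iot (MvPowerSeries.pderiv R 0 h) := by
  rw [B6b_dO_iot, Finset.sum_eq_single 0]
  · have h1 : (Fin.succ 0 : Fin (n + 2)) = 1 := rfl
    rw [h1, MvPowerSeries.pderiv_X_self, mul_one]
  · intro s _ hs
    rw [MvPowerSeries.pderiv_X_of_ne, mul_zero]
    intro h2
    apply hs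
    have h1 : (Fin.succ 0 : Fin (n + 2)) = 1 := rfl
    rw [← h1] at h2
    exact Fin.succ_injective _ h2
  · intro h0
    exact absurd (Finset.mem_univ _) h0

private theorem B6b_dC_zero (H : (SR R n)[X]) :
    dC (dO 0) (H.map (iot : SR R n →ₐ[R] OR R n).toRingHom) = 0 := by
  ext1 i
  have := coeff_dC (MvPowerSeries.pderiv R (0 : Fin (n + 2)))
    (H.map (iot : SR R n →ₐ[R] OR R n).toRingHom) i
  rw [coeff_map] at this
  rw [coeff_zero]
  exact this.trans (B6b_dO_zero _)

private theorem B6b_dC_one (H : (SR R n)[X]) :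
    dC (dO 1) (H.map (iot : SR R n →ₐ[R] OR R n).toRingHom) =
      (dC (fun z => MvPowerSeries.pderiv R (0 : Fin (n + 1)) z) H).map
        (iot : SR R n →ₐ[R] OR R n).toRingHom := by
  ext1 i
  have h1 := coeff_dC (MvPowerSeries.pderiv R (1 : Fin (n + 2)))
    (H.map (iot : SR R n →ₐ[R] OR R n).toRingHom) i
  have h2 := coeff_dC (MvPowerSeries.pderiv R (0 : Fin (n + 1))) H i
  rw [coeff_map] at h1
  rw [coeff_map]
  refine (h1.trans (B6b_dO_one _)).trans ?_
  exact congrArg (iot : SR R n →ₐ[R] OR R n) h2.symm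

private theorem B6b_Q0 (φ : (SR R n)[X]) : dC (dO 0) (QO φ) = (-1 : (OR R n)[X]) := by
  unfold QO
  have h1 := dC_sub (MvPowerSeries.pderiv R (0 : Fin (n + 2)))
    (φ.map (iot : SR R n →ₐ[R] OR R n).toRingHom) (C (MvPowerSeries.X 0 : OR R n))
  have h2 := dC_C (MvPowerSeries.pderiv R (0 : Fin (n + 2))) (MvPowerSeries.X 0 : OR R n)
  have h3 := B6b_dC_zero (R := R) (n := n) φ
  rw [MvPowerSeries.pderiv_X_self, C_1] at h2
  refine h1.trans ?_
  rw [h2]
  change dC (dO 0) _ - 1 = _
  rw [h3, zero_sub]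

/-- contraction with the differentials -/
private noncomputable def B6b_ct (A : Fin (n + 2) → SR R n) :
    (Fin (n + 2) → SR R n) →ₗ[R] SR R n where
  toFun ξ := ∑ j, ξ j * A j
  map_add' x y := by simp [add_mul, Finset.sum_add_distrib]
  map_smul' r x := by simp [Finset.smul_sum]

private theorem B6b_ct_apply (A ξ : Fin (n + 2) → SR R n) : B6b_ct A ξ = ∑ j, ξ j * A j := rfl

/-- the map `Ψ` -/
private noncomputable def B6b_Psi (A A' : Fin (n + 2) → SR R n) :
    (Fin (n + 2) → SR R n) →ₗ[R] (Fin 2 → SR R n) where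
  toFun ξ := ![B6b_ct A ξ, -B6b_ct A' ξ]
  map_add' x y := by
    funext i
    fin_cases i
    · simp
    · simp [add_comm]
  map_smul' r x := by
    funext i
    fin_cases i <;> simp

private theorem B6b_sum2 (B ξ : Fin (n + 2) → SR R n) (h : ∀ k : Fin n, ξ k.succ.succ = 0) :
    ∑ j, ξ j * B j = ξ 0 * B 0 + ξ 1 * B 1 := by
  rw [Fin.sum_univ_succ, Fin.sum_univ_succ]
  simp only [h, zero_mul, Finset.sum_const_zero, add_zero]
  rfl

private theorem B6b_Psi_apply (A A' ξ : Fin (n + 2) → SR R n) :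
    B6b_Psi A A' ξ = ![∑ j, ξ j * A j, -∑ j, ξ j * A' j] := rfl

end B6b

theorem T1_b {R : Type*} [CommRing R] {n : ℕ} (a b : SR R n) (ha : MvPowerSeries.constantCoeff a = 0)
    (hb : MvPowerSeries.constantCoeff b = 0) (P' φ : (SR R n)[X]) (hW : Weier a b ha P' φ)
    (hker : ∀ H, evO a b ha hb H = 0 ↔ H ∈ Ideal.span {PO P', QO φ}) :
    Nonempty (T1 R (germ R a b) ≃ₗ[R] ((Fin 2 → SR R n) ⧸ NS a b ha hb (PO P') (QO φ))) := by
  have hP : evO a b ha hb (PO P') = 0 := (hker _).2 (Ideal.subset_span (by simp))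
  have hQ : evO a b ha hb (QO φ) = 0 := (hker _).2 (Ideal.subset_span (by simp))
  set A : Fin (n + 2) → SR R n := fun j => evO a b ha hb (dC (dO j) (QO φ)) with hA
  set A' : Fin (n + 2) → SR R n := fun j => evO a b ha hb (dC (dO j) (PO P')) with hA'
  have hA0 : A 0 = -1 := by
    simp only [hA]
    rw [B6b_Q0, map_neg, map_one]
  have hA'0 : A' 0 = 0 := by
    simp only [hA']
    unfold PO
    rw [B6b_dC_zero, map_zero]
  have hA'1 : IsUnit (A' 1) := by
    simp only [hA']
    unfold PO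
    rw [B6b_dC_one, B6b_evO_map]
    exact hW.unit
  -- the chain rule
  have hch : ∀ H, evO a b ha hb H = 0 → ∀ i : Fin (n + 1),
      (∑ j : Fin (n + 2), MvPowerSeries.pderiv R i (germ R a b j) *
        evO a b ha hb (dC (dO j) H)) = -(if i = 0 then evO a b ha hb (derivative H) else 0) := by
    intro H hH i
    have := pderiv_evO a b ha hb H i
    rw [hH, map_zero] at this
    rw [eq_neg_iff_add_eq_zero]
    refine Eq.trans ?_ this.symm
    congr 1
    exact Finset.sum_congr rfl fun j _ => mul_comm _ _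
  -- value on `tf`
  have htf : ∀ H, evO a b ha hb H = 0 → ∀ c : Fin (n + 1) → SR R n,
      (∑ j : Fin (n + 2), (∑ i, c i * MvPowerSeries.pderiv R i (germ R a b j)) *
        evO a b ha hb (dC (dO j) H)) = -(c 0 * evO a b ha hb (derivative H)) := by
    intro H hH c
    calc _ = ∑ i, c i * (∑ j : Fin (n + 2), MvPowerSeries.pderiv R i (germ R a b j) *
        evO a b ha hb (dC (dO j) H)) := by
          simp only [Finset.sum_mul, Finset.mul_sum]
          rw [Finset.sum_comm]
          simp only [mul_assoc]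
      _ = ∑ i, c i * -(if i = 0 then evO a b ha hb (derivative H) else 0) := by
          refine Finset.sum_congr rfl fun i _ => ?_
          rw [hch H hH i]
      _ = _ := by
          rw [Finset.sum_eq_single 0]
          · simp
          · intro i _ hi
            simp [hi]
          · intro h0
            exact absurd (Finset.mem_univ _) h0
  have htfP : ∀ c : Fin (n + 1) → SR R n,
      B6b_Psi A A' (fun j => ∑ i, c i * MvPowerSeries.pderiv R i (germ R a b j)) =
        ![-(c 0 * evO a b ha hb (derivative (QO φ))), c 0 * evO a b ha hb (derivative (PO P'))] := by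
    intro c
    rw [B6b_Psi_apply]
    have h1 := htf _ hQ c
    have h2 := htf _ hP c
    simp only [hA, hA']
    rw [h1, h2, neg_neg]
  apply B6b_equiv (B6b_Psi A A')
  · -- surjective
    intro y
    obtain ⟨u, hu⟩ := hA'1
    have h0 : ∃ ξ : Fin (n + 2) → SR R n, ξ 0 = -(y 0 + y 1 * ↑u⁻¹ * A 1) ∧
        ξ 1 = -(y 1 * ↑u⁻¹) ∧ ∀ k : Fin n, ξ k.succ.succ = 0 :=
      ⟨Fin.cons (-(y 0 + y 1 * ↑u⁻¹ * A 1)) (Fin.cons (-(y 1 * ↑u⁻¹)) fun _ => 0),
        rfl, rfl, fun _ => rfl⟩
    obtain ⟨ξ, x0, x1, x2⟩ := h0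
    refine ⟨ξ, ?_⟩
    rw [B6b_Psi_apply, B6b_sum2 _ _ x2, B6b_sum2 _ _ x2, x0, x1, hA0, hA'0, ← hu]
    have := u.inv_mul
    funext i
    fin_cases i
    · simp only [Fin.zero_eta, Matrix.cons_val_zero]
      ring
    · simp only [Fin.mk_one, Matrix.cons_val_one, Matrix.cons_val_fin_one]
      linear_combination y 1 * this
  · -- the image of `tf ⊔ wf`
    intro ξ hξ
    have hle : tf R (germ R a b) ⊔ wf R (germ R a b) ≤
        (NS a b ha hb (PO P') (QO φ)).comap (B6b_Psi A A') := by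
      refine sup_le ?_ ?_
      · refine Submodule.span_le.2 ?_
        rintro _ ⟨c, rfl⟩
        rw [SetLike.mem_coe, Submodule.mem_comap, htfP]
        exact Submodule.subset_span (Or.inl ⟨c 0, rfl⟩)
      · refine Submodule.span_le.2 ?_
        rintro _ ⟨η, rfl⟩
        rw [SetLike.mem_coe, Submodule.mem_comap]
        have e2 : B6b_Psi A A' (fun j => MvPowerSeries.subst (germ R a b) (η j)) =
            ∑ j, ![FF a b ha hb (η j) * evO a b ha hb (dC (dO j) (QO φ)),
              -(FF a b ha hb (η j) * evO a b ha hb (dC (dO j) (PO P')))] := by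
          rw [B6b_Psi_apply]
          funext i
          rw [Finset.sum_apply]
          fin_cases i
          · simp [B6b_FF, hA]
          · simp [B6b_FF, hA']
        rw [e2]
        refine Submodule.sum_mem _ fun j _ => ?_
        exact Submodule.subset_span (Or.inr ⟨j, η j, rfl⟩)
    exact hle hξ
  · -- every generator of `NS` is an image
    refine Submodule.span_le.2 ?_
    rintro y (⟨c, rfl⟩ | ⟨j, h, rfl⟩)
    · rw [SetLike.mem_coe, Submodule.mem_map]
      refine ⟨fun j => ∑ i, (Fin.cons c (fun _ => 0) : Fin (n + 1) → SR R n) i *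
        MvPowerSeries.pderiv R i (germ R a b j), ?_, ?_⟩
      · exact Submodule.mem_sup_left (Submodule.subset_span
          ⟨(Fin.cons c (fun _ => 0) : Fin (n + 1) → SR R n), rfl⟩)
      · rw [htfP]
        rfl
    · rw [SetLike.mem_coe, Submodule.mem_map]
      refine ⟨fun i => MvPowerSeries.subst (germ R a b) ((Pi.single j h : Fin (n + 2) → OR R n) i),
        ?_, ?_⟩
      · exact Submodule.mem_sup_right (Submodule.subset_span
          ⟨(Pi.single j h : Fin (n + 2) → OR R n), rfl⟩)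
      · rw [B6b_Psi_apply]
        have e3 : ∀ B : Fin (n + 2) → SR R n,
            ∑ i, MvPowerSeries.subst (germ R a b) ((Pi.single j h : Fin (n + 2) → OR R n) i) * B i =
              FF a b ha hb h * B j := by
          intro B
          rw [Finset.sum_eq_single j]
          · rw [Pi.single_eq_same, B6b_FF]
          · intro i _ hi
            rw [Pi.single_eq_of_ne hi, ← B6b_FF a b ha hb, map_zero, zero_mul]
          · intro h0
            exact absurd (Finset.mem_univ _) h0
        rw [e3, e3]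
  · -- the kernel
    intro ξ hξ
    set c : Fin (n + 1) → SR R n := Fin.cons 0 fun k : Fin n => ξ k.succ.succ with hc
    have h0 : B6b_Psi A A' (ξ - fun j => ∑ i, c i * MvPowerSeries.pderiv R i (germ R a b j)) = 0 := by
      rw [map_sub, hξ, htfP, hc]
      funext i
      fin_cases i <;> simp
    have h1 : ∀ k : Fin n, (ξ - fun j => ∑ i, c i * MvPowerSeries.pderiv R i (germ R a b j))
        k.succ.succ = 0 := by
      intro k
      rw [Pi.sub_apply, sub_eq_zero]
      have e4 : germ R a b k.succ.succ = MvPowerSeries.X k.succ := rfl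
      simp only [e4]
      rw [Finset.sum_eq_single k.succ]
      · rw [MvPowerSeries.pderiv_X_self, mul_one, hc]
        rfl
      · intro i _ hi
        rw [MvPowerSeries.pderiv_X_of_ne (Ne.symm hi), mul_zero]
      · intro h0
        exact absurd (Finset.mem_univ _) h0
    set ζ := ξ - fun j => ∑ i, c i * MvPowerSeries.pderiv R i (germ R a b j) with hζ
    rw [B6b_Psi_apply, B6b_sum2 _ _ h1, B6b_sum2 _ _ h1] at h0
    have h2 := congrFun h0 0
    have h3 := congrFun h0 1
    simp only [Matrix.cons_val_zero, Matrix.cons_val_one, Matrix.cons_val_fin_one, Pi.zero_apply,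
      hA0, hA'0, mul_zero, zero_add, neg_eq_zero] at h2 h3
    have h4 : ζ 1 = 0 := by
      obtain ⟨u, hu⟩ := hA'1
      rw [← hu] at h3
      simpa using h3
    rw [h4, zero_mul, add_zero] at h2
    have h5 : ζ 0 = 0 := by
      simpa using h2
    have h6 : ζ = 0 := by
      funext j
      refine Fin.cases h5 (fun j => ?_) j
      refine Fin.cases ?_ (fun k => ?_) j
      · exact h4
      · exact h1 k
    rw [hζ, sub_eq_zero] at h6
    rw [h6]
    exact Submodule.mem_sup_left (Submodule.subset_span ⟨c, rfl⟩)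

end Pool.Agent.LibMF6
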