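import Pool.Agent.LibMF6.CDefs

set_option autoImplicit false

/-! ROW B7 (MEDIUM, CDefs). T1 of the special fibre is T1 modulo `s`.
 sp k : coefficientwise constant coefficient; surjective, kernel = multiples of C X (coefficientwise PowerSeries.X_dvd_iff). sp (pderiv i f) = pderiv i (sp f) (coefficients), sp (subst F h) = subst (sp F) (sp h) (MvPowerSeries.map_subst).
 π := coordinatewise sp; it maps tf (PowerSeries k) F onto tf k (sp F) and wf onto wf (lift ξ, η coefficientwise), for spans use Submodule.span_induction; note c • z for c in PowerSeries k goes to (constantCoeff c) • sp z.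
 kernel of θ(F) → T1 k (sp F): if sp ξ ∈ tf + wf then sp ξ = sp ζ with ζ ∈ tf ⊔ wf (over PowerSeries k), so ξ - ζ = X • w. -/

namespace Pool.Agent.LibMF6

open Polynomial

private theorem B7_coeff (k : Type*) [Field k] {σ : Type*} (z : MvPowerSeries σ (PowerSeries k))
    (e : σ →₀ ℕ) : MvPowerSeries.coeff e (sp k z) =
      PowerSeries.constantCoeff (MvPowerSeries.coeff e z) := by
  unfold sp
  rw [MvPowerSeries.coeff_map]

private theorem B7_lift (k : Type*) [Field k] {σ : Type*} (z : MvPowerSeries σ k) :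
    sp k (MvPowerSeries.map PowerSeries.C z) = z := by
  ext e
  rw [B7_coeff, MvPowerSeries.coeff_map, PowerSeries.constantCoeff_C]

private theorem B7_smul (k : Type*) [Field k] {σ : Type*} (c : PowerSeries k)
    (z : MvPowerSeries σ (PowerSeries k)) :
    sp k (c • z) = PowerSeries.constantCoeff c • sp k z := by
  ext e
  rw [B7_coeff, MvPowerSeries.coeff_smul, MvPowerSeries.coeff_smul, B7_coeff, map_mul]

private theorem B7_pderiv (k : Type*) [Field k] {σ : Type*} (i : σ)
    (z : MvPowerSeries σ (PowerSeries k)) :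
    sp k (MvPowerSeries.pderiv (PowerSeries k) i z) = MvPowerSeries.pderiv k i (sp k z) := by
  ext e
  rw [B7_coeff, MvPowerSeries.coeff_pderiv, MvPowerSeries.coeff_pderiv, B7_coeff, map_mul,
    map_add, map_one, map_natCast]

private theorem B7_ker (k : Type*) [Field k] {σ : Type*} (z : MvPowerSeries σ (PowerSeries k))
    (h : sp k z = 0) : ∃ w, z = (PowerSeries.X : PowerSeries k) • w := by
  have h1 : ∀ e : σ →₀ ℕ, ∃ c : PowerSeries k, MvPowerSeries.coeff e z = PowerSeries.X * c := by
    intro e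
    have h2 : PowerSeries.constantCoeff (MvPowerSeries.coeff e z) = 0 := by
      rw [← B7_coeff, h, map_zero]
    exact PowerSeries.X_dvd_iff.2 h2
  choose w hw using h1
  obtain ⟨w', hw'⟩ : ∃ w' : MvPowerSeries σ (PowerSeries k), ∀ e, MvPowerSeries.coeff e w' = w e :=
    ⟨w, fun e => rfl⟩
  refine ⟨w', ?_⟩
  ext1 e
  rw [hw e, MvPowerSeries.coeff_smul, hw' e]

/-- coordinatewise `sp` as a semilinear map -/
private noncomputable def B7_P (k : Type*) [Field k] (n p : ℕ) :
    (Fin p → MvPowerSeries (Fin n) (PowerSeries k)) →ₛₗ[(PowerSeries.constantCoeff : PowerSeries k →+* k)]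
      (Fin p → MvPowerSeries (Fin n) k) where
  toFun z := fun j => sp k (z j)
  map_add' x y := by
    funext j
    exact map_add _ _ _
  map_smul' c x := by
    funext j
    exact B7_smul k c (x j)

private theorem B7_gen_tf (k : Type*) [Field k] {n p : ℕ} (F : Fin p → MvPowerSeries (Fin n) (PowerSeries k))
    (ξ : Fin n → MvPowerSeries (Fin n) (PowerSeries k)) :
    B7_P k n p (fun j => ∑ i, ξ i * MvPowerSeries.pderiv (PowerSeries k) i (F j)) =
      fun j => ∑ i, sp k (ξ i) * MvPowerSeries.pderiv k i (sp k (F j)) := by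
  funext j
  change sp k (∑ i, ξ i * MvPowerSeries.pderiv (PowerSeries k) i (F j)) = _
  rw [map_sum]
  refine Finset.sum_congr rfl fun i _ => ?_
  rw [map_mul, B7_pderiv]

private theorem B7_gen_wf (k : Type*) [Field k] {n p : ℕ} (F : Fin p → MvPowerSeries (Fin n) (PowerSeries k))
    (hF : ∀ j, MvPowerSeries.constantCoeff (F j) = 0)
    (η : Fin p → MvPowerSeries (Fin p) (PowerSeries k)) :
    B7_P k n p (fun j => MvPowerSeries.subst F (η j)) =
      fun j => MvPowerSeries.subst (fun i => sp k (F i)) (sp k (η j)) := by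
  funext j
  have ha : MvPowerSeries.HasSubst F := MvPowerSeries.hasSubst_of_constantCoeff_zero hF
  exact MvPowerSeries.map_subst ha (h := PowerSeries.constantCoeff) (η j)

private theorem B7_tf (k : Type*) [Field k] {n p : ℕ} (F : Fin p → MvPowerSeries (Fin n) (PowerSeries k))
    (v : Fin p → MvPowerSeries (Fin n) (PowerSeries k)) (hv : v ∈ tf (PowerSeries k) F) :
    B7_P k n p v ∈ tf k (fun j => sp k (F j)) := by
  unfold tf at hv
  refine Submodule.span_induction (p := fun v _ => B7_P k n p v ∈ tf k (fun j => sp k (F j)))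
    ?_ ?_ ?_ ?_ hv
  · rintro _ ⟨ξ, rfl⟩
    change B7_P k n p (fun j => ∑ i, ξ i * MvPowerSeries.pderiv (PowerSeries k) i (F j)) ∈ _
    rw [B7_gen_tf]
    exact Submodule.subset_span ⟨fun i => sp k (ξ i), rfl⟩
  · rw [map_zero]
    exact Submodule.zero_mem _
  · intro x y _ _ hx hy
    rw [map_add]
    exact Submodule.add_mem _ hx hy
  · intro a x _ hx
    rw [map_smulₛₗ]
    exact Submodule.smul_mem _ _ hx

private theorem B7_wf (k : Type*) [Field k] {n p : ℕ} (F : Fin p → MvPowerSeries (Fin n) (PowerSeries k))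
    (hF : ∀ j, MvPowerSeries.constantCoeff (F j) = 0)
    (v : Fin p → MvPowerSeries (Fin n) (PowerSeries k)) (hv : v ∈ wf (PowerSeries k) F) :
    B7_P k n p v ∈ wf k (fun j => sp k (F j)) := by
  unfold wf at hv
  refine Submodule.span_induction (p := fun v _ => B7_P k n p v ∈ wf k (fun j => sp k (F j)))
    ?_ ?_ ?_ ?_ hv
  · rintro _ ⟨η, rfl⟩
    change B7_P k n p (fun j => MvPowerSeries.subst F (η j)) ∈ _
    rw [B7_gen_wf k F hF]
    exact Submodule.subset_span ⟨fun i => sp k (η i), rfl⟩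
  · rw [map_zero]
    exact Submodule.zero_mem _
  · intro x y _ _ hx hy
    rw [map_add]
    exact Submodule.add_mem _ hx hy
  · intro a x _ hx
    rw [map_smulₛₗ]
    exact Submodule.smul_mem _ _ hx

private theorem B7_tf' (k : Type*) [Field k] {n p : ℕ} (F : Fin p → MvPowerSeries (Fin n) (PowerSeries k))
    (v : Fin p → MvPowerSeries (Fin n) k) (hv : v ∈ tf k (fun j => sp k (F j))) :
    ∃ u ∈ tf (PowerSeries k) F, B7_P k n p u = v := by
  unfold tf at hv
  refine Submodule.span_induction (p := fun v _ => ∃ u ∈ tf (PowerSeries k) F, B7_P k n p u = v)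
    ?_ ?_ ?_ ?_ hv
  · rintro _ ⟨ξ, rfl⟩
    refine ⟨fun j => ∑ i, MvPowerSeries.map PowerSeries.C (ξ i) *
      MvPowerSeries.pderiv (PowerSeries k) i (F j), Submodule.subset_span ⟨_, rfl⟩, ?_⟩
    rw [B7_gen_tf]
    funext j
    simp only [B7_lift]
  · exact ⟨0, Submodule.zero_mem _, map_zero _⟩
  · rintro x y _ _ ⟨u, hu, rfl⟩ ⟨u', hu', rfl⟩
    exact ⟨u + u', Submodule.add_mem _ hu hu', map_add _ _ _⟩
  · rintro a x _ ⟨u, hu, rfl⟩
    refine ⟨(PowerSeries.C a : PowerSeries k) • u, Submodule.smul_mem _ _ hu, ?_⟩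
    rw [map_smulₛₗ, PowerSeries.constantCoeff_C]

private theorem B7_wf' (k : Type*) [Field k] {n p : ℕ} (F : Fin p → MvPowerSeries (Fin n) (PowerSeries k))
    (hF : ∀ j, MvPowerSeries.constantCoeff (F j) = 0)
    (v : Fin p → MvPowerSeries (Fin n) k) (hv : v ∈ wf k (fun j => sp k (F j))) :
    ∃ u ∈ wf (PowerSeries k) F, B7_P k n p u = v := by
  unfold wf at hv
  refine Submodule.span_induction (p := fun v _ => ∃ u ∈ wf (PowerSeries k) F, B7_P k n p u = v)
    ?_ ?_ ?_ ?_ hv
  · rintro _ ⟨η, rfl⟩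
    refine ⟨fun j => MvPowerSeries.subst F (MvPowerSeries.map PowerSeries.C (η j)),
      Submodule.subset_span ⟨fun j => MvPowerSeries.map PowerSeries.C (η j), rfl⟩, ?_⟩
    rw [B7_gen_wf k F hF]
    funext j
    rw [B7_lift]
  · exact ⟨0, Submodule.zero_mem _, map_zero _⟩
  · rintro x y _ _ ⟨u, hu, rfl⟩ ⟨u', hu', rfl⟩
    exact ⟨u + u', Submodule.add_mem _ hu hu', map_add _ _ _⟩
  · rintro a x _ ⟨u, hu, rfl⟩
    refine ⟨(PowerSeries.C a : PowerSeries k) • u, Submodule.smul_mem _ _ hu, ?_⟩
    rw [map_smulₛₗ, PowerSeries.constantCoeff_C]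

theorem T1_sp (k : Type*) [Field k] {n p : ℕ} (F : Fin p → MvPowerSeries (Fin n) (PowerSeries k))
    (hF : ∀ j, MvPowerSeries.constantCoeff (F j) = 0) :
    ∃ π : T1 (PowerSeries k) F →+ T1 k (fun j => sp k (F j)), Function.Surjective π ∧
      (∀ z, π z = 0 ↔ ∃ w, z = (PowerSeries.X : PowerSeries k) • w) ∧
      ∀ (c : k) (z : T1 (PowerSeries k) F), π ((PowerSeries.C c : PowerSeries k) • z) = c • π z := by
  have hle : tf (PowerSeries k) F ⊔ wf (PowerSeries k) F ≤
      Submodule.comap (B7_P k n p) (tf k (fun j => sp k (F j)) ⊔ wf k (fun j => sp k (F j))) := by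
    intro v hv
    obtain ⟨x, hx, y, hy, rfl⟩ := Submodule.mem_sup.1 hv
    rw [Submodule.mem_comap, map_add]
    exact Submodule.add_mem _ (Submodule.mem_sup_left (B7_tf k F x hx))
      (Submodule.mem_sup_right (B7_wf k F hF y hy))
  have hge : ∀ v ∈ tf k (fun j => sp k (F j)) ⊔ wf k (fun j => sp k (F j)),
      ∃ u ∈ tf (PowerSeries k) F ⊔ wf (PowerSeries k) F, B7_P k n p u = v := by
    intro v hv
    obtain ⟨x, hx, y, hy, rfl⟩ := Submodule.mem_sup.1 hv
    obtain ⟨u, hu, rfl⟩ := B7_tf' k F x hx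
    obtain ⟨u', hu', rfl⟩ := B7_wf' k F hF y hy
    exact ⟨u + u', Submodule.add_mem _ (Submodule.mem_sup_left hu) (Submodule.mem_sup_right hu'),
      map_add _ _ _⟩
  let π := Submodule.mapQ (tf (PowerSeries k) F ⊔ wf (PowerSeries k) F)
    (tf k (fun j => sp k (F j)) ⊔ wf k (fun j => sp k (F j))) (B7_P k n p) hle
  have hπ : ∀ v, π (Submodule.Quotient.mk v) = Submodule.Quotient.mk (B7_P k n p v) := fun v => rfl
  refine ⟨(π : T1 (PowerSeries k) F →+ T1 k (fun j => sp k (F j))), ?_, ?_, ?_⟩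
  · intro y
    obtain ⟨v, rfl⟩ := Submodule.Quotient.mk_surjective _ y
    refine ⟨Submodule.Quotient.mk (fun j => MvPowerSeries.map PowerSeries.C (v j)), ?_⟩
    change π (Submodule.Quotient.mk _) = _
    rw [hπ]
    exact congrArg _ (funext fun j => B7_lift k (v j))
  · intro z
    change π z = 0 ↔ _
    constructor
    · obtain ⟨v, rfl⟩ := Submodule.Quotient.mk_surjective _ z
      intro h
      rw [hπ, Submodule.Quotient.mk_eq_zero] at h
      obtain ⟨u, hu, hu'⟩ := hge _ h
      have h1 : ∀ j, ∃ w, v j - u j = (PowerSeries.X : PowerSeries k) • w := by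
        intro j
        refine B7_ker k _ ?_
        rw [map_sub]
        have h2 : sp k (u j) = sp k (v j) := congrFun hu' j
        rw [h2, sub_self]
      choose w hw using h1
      refine ⟨Submodule.Quotient.mk w, ?_⟩
      rw [← Submodule.Quotient.mk_smul, Submodule.Quotient.eq]
      have h3 : v - (PowerSeries.X : PowerSeries k) • w = u := by
        funext j
        rw [Pi.sub_apply, Pi.smul_apply, ← hw j, sub_sub_cancel]
      rw [h3]
      exact hu
    · rintro ⟨w, rfl⟩
      rw [map_smulₛₗ, PowerSeries.constantCoeff_X, zero_smul]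
  · intro c z
    change π ((PowerSeries.C c : PowerSeries k) • z) = c • π z
    rw [map_smulₛₗ, PowerSeries.constantCoeff_C]

end Pool.Agent.LibMF6
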