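import Pool.Agent.LibMF6.CDefs
import Pool.Agent.LibMF6.A0
import Pool.Agent.LibMF6.A3
import Pool.Agent.LibMF6.B5

set_option autoImplicit false

/-! ROW B8 (MEDIUM/LONG, CDefs, A0, A3, B5). The weighted homogeneous case: e0 b0 ∈ WM + s V. R = k[[s]], A1 = SR R n = R[[X,u]], S = SR R n = R[[x,u]], m = natDegree P', P = PO P', Q = QO φ.
 Euler: IsWH w d f ⇒ ∑_i C (w i) * X i * pderiv i f = d • f (coefficients). So E_S(z) := ∑_i w_i X_i pderiv_i z has E_S(a) = da a + s(..), E_S(b) = db b + s(..) (apply sp k; kernel of sp = multiples of sO).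
 On A1[x]: Ê'(H) := ∑_j wt'_j X_j dC (pderiv j) H + w_0 x H' with wt'_0 = da, wt'_(j+1) = w_(j+1). By pderiv_evS: evS(Ê' H) - E_S(evS H) ∈ s S.
  H = P': evS(Ê' P') ∈ s S, = evS(s Z) (surj), so P' ∣ Ê' P' - s Z; Ê' P' = m w_0 x^m + lower. Hence Ê' P' = (m w_0) P' + s Z' (divide Z by P'; compare degrees < m).
  H = φ: evS(Ê' φ) = db b + s(..) = evS(db φ + s Z''), so Ê' φ = db φ + s Z''' (all of degree < m after reduction of Z'' modulo P').
 In O[x], O = OR R n, weights wt_0 = db (Y), wt_1 = da (X), wt_(j+2) = w_(j+1): ∑_j wt_j X_j dC (dO j) P + w_0 x P' = (m w_0) P + s(..); the same sum for Q = φ - Y: = db Q + s(..).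
 So ∑_j wt_j X_j • wv j ≡ λ b0 e0 + (db q - w_0 x Q') e_1 - (- w_0 x P') e_2 = λ b0 e0 + db q e_1 + w_0 x K3 modulo s V (P = 0 in B), λ = ∑ wt_j X_j l_j, and q e_1 ≡ P' e_0 ≡ τ(P') b0 e0 = m b0 e0 modulo W0 (qe1_mem, e0_sub_mem;
   τ(mk P') = m: tau_mk, derivative P has degree < m and coefficient m-1 equal to m). So (λ + m db) b0 e0 ∈ WM + s V, and λ + m db is a unit of O: its constant coefficient is m db ≠ 0 in k (char 0). -/

namespace Pool.Agent.LibMF6

open Polynomial

private noncomputable def B8_E (R : Type*) [CommRing R] {N : ℕ} (wt : Fin N → ℕ) :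
    Derivation R (MvPowerSeries (Fin N) R) (MvPowerSeries (Fin N) R) :=
  ∑ i, ((wt i : MvPowerSeries (Fin N) R) * MvPowerSeries.X i) • MvPowerSeries.pderiv R i

private theorem B8_E_apply {R : Type*} [CommRing R] {N : ℕ} (wt : Fin N → ℕ)
    (z : MvPowerSeries (Fin N) R) :
    B8_E R wt z = ∑ i, (wt i : MvPowerSeries (Fin N) R) * MvPowerSeries.X i *
      MvPowerSeries.pderiv R i z := by
  unfold B8_E
  have h := map_sum (Derivation.coeFnAddMonoidHom (R := R) (A := MvPowerSeries (Fin N) R)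
    (M := MvPowerSeries (Fin N) R))
    (fun i => ((wt i : MvPowerSeries (Fin N) R) * MvPowerSeries.X i) • MvPowerSeries.pderiv R i)
    Finset.univ
  have h2 := congrFun h z
  rw [Finset.sum_apply] at h2
  exact h2

private theorem B8_coeff {R : Type*} [CommRing R] {N : ℕ} (i : Fin N)
    (f : MvPowerSeries (Fin N) R) (e : Fin N →₀ ℕ) :
    MvPowerSeries.coeff e (MvPowerSeries.X i * MvPowerSeries.pderiv R i f) =
      (e i : R) * MvPowerSeries.coeff e f := by
  classical
  rw [MvPowerSeries.X_def, MvPowerSeries.coeff_monomial_mul, MvPowerSeries.coeff_pderiv]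
  split_ifs with h
  · have h1 : e - Finsupp.single i 1 + Finsupp.single i 1 = e := tsub_add_cancel_of_le h
    have h2 : 1 ≤ e i := by
      have := h i
      rwa [Finsupp.single_eq_same] at this
    rw [h1, one_mul, Finsupp.tsub_apply, Finsupp.single_eq_same]
    rw [mul_comm]
    congr 1
    have h3 : ((e i - 1 : ℕ) : R) + 1 = ((e i - 1 + 1 : ℕ) : R) := by push_cast; rfl
    rw [h3, Nat.sub_add_cancel h2]
  · have h2 : e i = 0 := by
      by_contra h3
      apply h
      intro j
      by_cases hj : j = i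
      · subst hj
        rw [Finsupp.single_eq_same]
        omega
      · rw [Finsupp.single_eq_of_ne hj]
        exact Nat.zero_le _
    rw [h2, Nat.cast_zero, zero_mul]

private theorem B8_coeff_E {R : Type*} [CommRing R] {N : ℕ} (wt : Fin N → ℕ)
    (f : MvPowerSeries (Fin N) R) (e : Fin N →₀ ℕ) :
    MvPowerSeries.coeff e (B8_E R wt f) = ((Finsupp.weight wt e : ℕ) : R) *
      MvPowerSeries.coeff e f := by
  rw [B8_E_apply, map_sum, Finsupp.weight_apply, Finsupp.sum_fintype _ _ (fun i => by simp),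
    Nat.cast_sum, Finset.sum_mul]
  refine Finset.sum_congr rfl fun i _ => ?_
  rw [mul_assoc, ← nsmul_eq_mul, map_nsmul, B8_coeff, nsmul_eq_mul, smul_eq_mul, Nat.cast_mul]
  ring

private theorem B8_wh (k : Type) [Field k] {N : ℕ} (wt : Fin N → ℕ) (d : ℕ)
    (f : MvPowerSeries (Fin N) (PowerSeries k)) (hf : IsWH wt d (sp k f)) :
    ∃ z, B8_E (PowerSeries k) wt f = (d : MvPowerSeries (Fin N) (PowerSeries k)) * f +
      sO k N * z := by
  have h1 : ∀ e : Fin N →₀ ℕ, ∃ c : PowerSeries k,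
      (((Finsupp.weight wt e : ℕ) : PowerSeries k) - (d : PowerSeries k)) *
        MvPowerSeries.coeff e f = PowerSeries.X * c := by
    intro e
    by_cases h : MvPowerSeries.coeff e (sp k f) = 0
    · have h2 : PowerSeries.constantCoeff (MvPowerSeries.coeff e f) = 0 := by
        rw [← h]
        unfold sp
        rw [MvPowerSeries.coeff_map]
      obtain ⟨c, hc⟩ := PowerSeries.X_dvd_iff.2 h2
      exact ⟨(((Finsupp.weight wt e : ℕ) : PowerSeries k) - (d : PowerSeries k)) * c, by
        rw [hc]; ring⟩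
    · rw [hf e h, sub_self, zero_mul]
      exact ⟨0, (mul_zero _).symm⟩
  choose c hc using h1
  obtain ⟨z, hz⟩ : ∃ z : MvPowerSeries (Fin N) (PowerSeries k),
      ∀ e, MvPowerSeries.coeff e z = c e := ⟨(fun e => c e), fun e => rfl⟩
  refine ⟨z, ?_⟩
  ext1 e
  have h3 : MvPowerSeries.coeff e ((d : MvPowerSeries (Fin N) (PowerSeries k)) * f) =
      (d : PowerSeries k) * MvPowerSeries.coeff e f := by
    rw [← nsmul_eq_mul, map_nsmul, nsmul_eq_mul]
  rw [B8_coeff_E, map_add, h3, sO, MvPowerSeries.coeff_C_mul, hz, ← hc e]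
  ring

private theorem B8_dC_E {R : Type*} [CommRing R] {N : ℕ} (wt : Fin N → ℕ)
    (H : (MvPowerSeries (Fin N) R)[X]) :
    dC (B8_E R wt) H = ∑ j, C ((wt j : MvPowerSeries (Fin N) R) * MvPowerSeries.X j) *
      dC (fun z => MvPowerSeries.pderiv R j z) H := by
  ext1 i
  rw [coeff_dC, B8_E_apply, finsetSum_coeff]
  refine Finset.sum_congr rfl fun j _ => ?_
  rw [coeff_C_mul]
  congr 1
  exact (coeff_dC (MvPowerSeries.pderiv R j) H i).symm

private theorem B8_evS_C {R : Type*} [CommRing R] {n : ℕ} (a : SR R n)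
    (ha : MvPowerSeries.constantCoeff a = 0) (c : SR R n) :
    evS a ha (C c) = alp a ha c := by
  unfold evS
  rw [coe_eval₂RingHom, eval₂_C]
  rfl

private theorem B8_evS_X {R : Type*} [CommRing R] {n : ℕ} (a : SR R n)
    (ha : MvPowerSeries.constantCoeff a = 0) :
    evS a ha X = MvPowerSeries.X 0 := by
  unfold evS
  rw [coe_eval₂RingHom, eval₂_X]

private theorem B8_alp_X {R : Type*} [CommRing R] {n : ℕ} (a : SR R n)
    (ha : MvPowerSeries.constantCoeff a = 0) (j : Fin (n + 1)) :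
    alp a ha (MvPowerSeries.X j) = fa a j := by
  unfold alp
  rw [MvPowerSeries.substAlgHom_apply, MvPowerSeries.subst_X (hs_fa a ha)]

private theorem B8_alp_s (k : Type) [Field k] {n : ℕ} (a : SR (PowerSeries k) n)
    (ha : MvPowerSeries.constantCoeff a = 0) :
    alp a ha (sO k (n + 1)) = sO k (n + 1) := by
  have h : sO k (n + 1) = algebraMap (PowerSeries k) (SR (PowerSeries k) n) PowerSeries.X := rfl
  rw [h, AlgHom.commutes]

private theorem B8_iot_s (k : Type) [Field k] {n : ℕ} :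
    (iot : SR (PowerSeries k) n →ₐ[PowerSeries k] OR (PowerSeries k) n) (sO k (n + 1)) =
      sO k (n + 2) := by
  have h : sO k (n + 1) = algebraMap (PowerSeries k) (SR (PowerSeries k) n) PowerSeries.X := rfl
  have h' : sO k (n + 2) = algebraMap (PowerSeries k) (OR (PowerSeries k) n) PowerSeries.X := rfl
  rw [h, AlgHom.commutes, h']

/-- Euler field along `evS` -/
private theorem B8_chain (k : Type) [Field k] {n : ℕ} (a : SR (PowerSeries k) n)
    (ha : MvPowerSeries.constantCoeff a = 0) (w wt' : Fin (n + 1) → ℕ)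
    (hz : ∀ j, ∃ z, B8_E (PowerSeries k) w (fa a j) =
      (wt' j : SR (PowerSeries k) n) * fa a j + sO k (n + 1) * z)
    (H : (SR (PowerSeries k) n)[X]) :
    ∃ z, evS a ha (dC (B8_E (PowerSeries k) wt') H + C (w 0 : SR (PowerSeries k) n) * X * derivative H) =
      B8_E (PowerSeries k) w (evS a ha H) + sO k (n + 1) * z := by
  choose z hz using hz
  refine ⟨-∑ j, evS a ha (dC (fun z => MvPowerSeries.pderiv (PowerSeries k) j z) H) * z j, ?_⟩
  have h1 : B8_E (PowerSeries k) w (evS a ha H) =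
      (∑ j, evS a ha (dC (fun z => MvPowerSeries.pderiv (PowerSeries k) j z) H) *
        B8_E (PowerSeries k) w (fa a j)) +
      (w 0 : SR (PowerSeries k) n) * MvPowerSeries.X 0 * evS a ha (derivative H) := by
    rw [B8_E_apply]
    have h2 : ∀ i : Fin (n + 1), (w i : SR (PowerSeries k) n) * MvPowerSeries.X i *
        MvPowerSeries.pderiv (PowerSeries k) i (evS a ha H) =
        (∑ j, evS a ha (dC (fun z => MvPowerSeries.pderiv (PowerSeries k) j z) H) *
          ((w i : SR (PowerSeries k) n) * MvPowerSeries.X i *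
            MvPowerSeries.pderiv (PowerSeries k) i (fa a j))) +
        (if i = 0 then (w i : SR (PowerSeries k) n) * MvPowerSeries.X i *
          evS a ha (derivative H) else 0) := by
      intro i
      rw [pderiv_evS, mul_add, Finset.mul_sum]
      congr 1
      · refine Finset.sum_congr rfl fun j _ => ?_
        ring
      · split_ifs
        · rfl
        · rw [mul_zero]
    rw [Finset.sum_congr rfl fun i _ => h2 i, Finset.sum_add_distrib, Finset.sum_comm,
      Finset.sum_ite_eq' Finset.univ (0 : Fin (n + 1)), if_pos (Finset.mem_univ _)]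
    congr 1
    refine Finset.sum_congr rfl fun j _ => ?_
    rw [B8_E_apply, Finset.mul_sum]
  have h3 : evS a ha (dC (B8_E (PowerSeries k) wt') H) =
      ∑ j, (wt' j : SR (PowerSeries k) n) * fa a j *
        evS a ha (dC (fun z => MvPowerSeries.pderiv (PowerSeries k) j z) H) := by
    rw [B8_dC_E, map_sum]
    refine Finset.sum_congr rfl fun j _ => ?_
    rw [map_mul, B8_evS_C, map_mul, map_natCast, B8_alp_X]
  rw [map_add, h3, map_mul, map_mul, B8_evS_C, map_natCast, B8_evS_X, h1]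
  have h4 : ∀ j, evS a ha (dC (fun z => MvPowerSeries.pderiv (PowerSeries k) j z) H) *
        B8_E (PowerSeries k) w (fa a j) =
        (wt' j : SR (PowerSeries k) n) * fa a j *
        evS a ha (dC (fun z => MvPowerSeries.pderiv (PowerSeries k) j z) H) +
        sO k (n + 1) *
          (evS a ha (dC (fun z => MvPowerSeries.pderiv (PowerSeries k) j z) H) * z j) := by
    intro j
    rw [hz j]
    ring
  rw [Finset.sum_congr rfl fun j _ => h4 j, Finset.sum_add_distrib, ← Finset.mul_sum]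
  ring

private theorem B8_iot_pderiv_zero {R : Type*} [CommRing R] {n : ℕ} (c : SR R n) :
    MvPowerSeries.pderiv R (0 : Fin (n + 2)) ((iot : SR R n →ₐ[R] OR R n) c) = 0 := by
  unfold iot
  rw [MvPowerSeries.substAlgHom_apply, pderiv_subst _ (fun j => MvPowerSeries.constantCoeff_X _)]
  refine Finset.sum_eq_zero fun j _ => ?_
  rw [MvPowerSeries.pderiv_X_of_ne (Fin.succ_ne_zero j), mul_zero]

private theorem B8_iot_pderiv_succ {R : Type*} [CommRing R] {n : ℕ} (c : SR R n)
    (i : Fin (n + 1)) :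
    MvPowerSeries.pderiv R i.succ ((iot : SR R n →ₐ[R] OR R n) c) =
      (iot : SR R n →ₐ[R] OR R n) (MvPowerSeries.pderiv R i c) := by
  unfold iot
  rw [MvPowerSeries.substAlgHom_apply, pderiv_subst _ (fun j => MvPowerSeries.constantCoeff_X _),
    MvPowerSeries.substAlgHom_apply, Finset.sum_eq_single i]
  · rw [MvPowerSeries.pderiv_X_self, mul_one]
  · intro j _ hj
    rw [MvPowerSeries.pderiv_X_of_ne (fun h => hj (Fin.succ_injective _ h)), mul_zero]
  · intro h
    exact absurd (Finset.mem_univ _) h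

private theorem B8_iot_X {R : Type*} [CommRing R] {n : ℕ} (j : Fin (n + 1)) :
    (iot : SR R n →ₐ[R] OR R n) (MvPowerSeries.X j) = MvPowerSeries.X j.succ := by
  unfold iot
  rw [MvPowerSeries.substAlgHom_apply, MvPowerSeries.subst_X hs_succ]

private theorem B8_iot_E {R : Type*} [CommRing R] {n : ℕ} (db : ℕ) (wt' : Fin (n + 1) → ℕ)
    (c : SR R n) :
    (iot : SR R n →ₐ[R] OR R n) (B8_E R wt' c) =
      B8_E R (Fin.cons db wt' : Fin (n + 2) → ℕ) ((iot : SR R n →ₐ[R] OR R n) c) := by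
  rw [B8_E_apply, B8_E_apply, Fin.sum_univ_succ (n := n + 1), B8_iot_pderiv_zero, mul_zero, zero_add, map_sum]
  refine Finset.sum_congr rfl fun j _ => ?_
  rw [B8_iot_pderiv_succ, Fin.cons_succ, map_mul, map_mul, map_natCast, B8_iot_X]

private theorem B8_E_X {R : Type*} [CommRing R] {N : ℕ} (wt : Fin N → ℕ) (j : Fin N) :
    B8_E R wt (MvPowerSeries.X j) = (wt j : MvPowerSeries (Fin N) R) * MvPowerSeries.X j := by
  rw [B8_E_apply, Finset.sum_eq_single j]
  · rw [MvPowerSeries.pderiv_X_self, mul_one]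
  · intro i _ hi
    rw [MvPowerSeries.pderiv_X_of_ne (fun h => hi h.symm), mul_zero]
  · intro h
    exact absurd (Finset.mem_univ _) h

private theorem B8_map_hat {R : Type*} [CommRing R] {n : ℕ} (db w0 : ℕ) (wt' : Fin (n + 1) → ℕ)
    (H : (SR R n)[X]) :
    (dC (B8_E R wt') H + C (w0 : SR R n) * X * derivative H).map
        (iot : SR R n →ₐ[R] OR R n).toRingHom =
      dC (B8_E R (Fin.cons db wt' : Fin (n + 2) → ℕ))
        (H.map (iot : SR R n →ₐ[R] OR R n).toRingHom) +
      C (w0 : OR R n) * X * derivative (H.map (iot : SR R n →ₐ[R] OR R n).toRingHom) := by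
  rw [Polynomial.map_add, Polynomial.map_mul, Polynomial.map_mul, Polynomial.map_C,
    Polynomial.map_X, map_natCast, Polynomial.derivative_map]
  congr 1
  exact dC_map (B8_E R wt') (B8_E R (Fin.cons db wt' : Fin (n + 2) → ℕ)) _
    (fun c => B8_iot_E db wt' c) H

private theorem B8_P (k : Type) [Field k] {n : ℕ} (a b : SR (PowerSeries k) n)
    (ha : MvPowerSeries.constantCoeff a = 0)
    (P' φ : (SR (PowerSeries k) n)[X]) (hW : Weier a b ha P' φ)
    (w wt' : Fin (n + 1) → ℕ)
    (hz : ∀ j, ∃ z, B8_E (PowerSeries k) w (fa a j) =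
      (wt' j : SR (PowerSeries k) n) * fa a j + sO k (n + 1) * z) :
    ∃ Z, P' ∣ dC (B8_E (PowerSeries k) wt') P' +
      C (w 0 : SR (PowerSeries k) n) * X * derivative P' - C (sO k (n + 1)) * Z := by
  obtain ⟨z, h1⟩ := B8_chain k a ha w wt' hz P'
  obtain ⟨Z, hZ⟩ := hW.surj z
  refine ⟨Z, (hW.ker _).1 ?_⟩
  have h2 : evS a ha P' = 0 := (hW.ker _).2 dvd_rfl
  rw [map_sub, h1, h2, map_zero, map_mul, B8_evS_C, B8_alp_s, hZ, zero_add, sub_self]

private theorem B8_phi (k : Type) [Field k] {n : ℕ} (a b : SR (PowerSeries k) n)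
    (ha : MvPowerSeries.constantCoeff a = 0)
    (P' φ : (SR (PowerSeries k) n)[X]) (hW : Weier a b ha P' φ)
    (w wt' : Fin (n + 1) → ℕ) (db : ℕ)
    (hz : ∀ j, ∃ z, B8_E (PowerSeries k) w (fa a j) =
      (wt' j : SR (PowerSeries k) n) * fa a j + sO k (n + 1) * z)
    (hb : ∃ z, B8_E (PowerSeries k) w b =
      (db : SR (PowerSeries k) n) * b + sO k (n + 1) * z) :
    ∃ Z, P' ∣ dC (B8_E (PowerSeries k) wt') φ +
      C (w 0 : SR (PowerSeries k) n) * X * derivative φ -
      (C (db : SR (PowerSeries k) n) * φ + C (sO k (n + 1)) * Z) := by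
  obtain ⟨z, h1⟩ := B8_chain k a ha w wt' hz φ
  obtain ⟨zb, hzb⟩ := hb
  obtain ⟨Z, hZ⟩ := hW.surj (z + zb)
  refine ⟨Z, (hW.ker _).1 ?_⟩
  rw [map_sub, h1, hW.val, hzb, map_add, map_mul, map_mul, B8_evS_C, B8_evS_C, B8_alp_s, hZ,
    hW.val, map_natCast]
  ring

private theorem B8_mk {R : Type*} [CommRing R] {n : ℕ} (P' U : (SR R n)[X]) (h : P' ∣ U) :
    AdjoinRoot.mk (PO P') (U.map (iot : SR R n →ₐ[R] OR R n).toRingHom) = 0 := by
  rw [AdjoinRoot.mk_eq_zero]
  exact Polynomial.map_dvd _ h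

private theorem B8_tau {O : Type*} [CommRing O] (P : O[X]) (hP : P.Monic)
    (hm : 0 < P.natDegree) :
    tau P hP (AdjoinRoot.mk P (derivative P)) = (P.natDegree : O) := by
  have := A1_nontriv P hm
  rw [A1_tau_mk_lt P hP (derivative P) (degree_derivative_lt hP.ne_zero), coeff_derivative]
  have h1 : P.natDegree - 1 + 1 = P.natDegree := by omega
  rw [h1, hP.coeff_natDegree, one_mul]
  have h2 : ((P.natDegree - 1 : ℕ) : O) + 1 = ((P.natDegree - 1 + 1 : ℕ) : O) := by
    push_cast; rfl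
  rw [h2, h1]

private theorem B8_sum {R : Type*} [CommRing R] {N : ℕ} (P Q : (MvPowerSeries (Fin N) R)[X])
    (wt : Fin N → ℕ) (l : Fin N → MvPowerSeries (Fin N) R) :
    ∑ j, ((wt j : MvPowerSeries (Fin N) R) * MvPowerSeries.X j) •
      wv P Q (fun z => MvPowerSeries.pderiv R j z) (l j) =
    wv P Q (B8_E R wt) (∑ j, (wt j : MvPowerSeries (Fin N) R) * MvPowerSeries.X j * l j) := by
  have hs : ∀ H : (MvPowerSeries (Fin N) R)[X], AdjoinRoot.mk P (dC (B8_E R wt) H) =
      ∑ j, ((wt j : MvPowerSeries (Fin N) R) * MvPowerSeries.X j) •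
        AdjoinRoot.mk P (dC (fun z => MvPowerSeries.pderiv R j z) H) := by
    intro H
    rw [B8_dC_E, map_sum]
    refine Finset.sum_congr rfl fun j _ => ?_
    rw [map_mul, Algebra.smul_def]
    rfl
  funext i
  rw [Finset.sum_apply]
  fin_cases i
  · show ∑ j, ((wt j : MvPowerSeries (Fin N) R) * MvPowerSeries.X j) • (l j • b0 P) =
      (∑ j, (wt j : MvPowerSeries (Fin N) R) * MvPowerSeries.X j * l j) • b0 P
    rw [Finset.sum_smul]
    refine Finset.sum_congr rfl fun j _ => ?_
    rw [smul_smul]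
  · show ∑ j, ((wt j : MvPowerSeries (Fin N) R) * MvPowerSeries.X j) •
      AdjoinRoot.mk P (dC (fun z => MvPowerSeries.pderiv R j z) Q) =
      AdjoinRoot.mk P (dC (B8_E R wt) Q)
    exact (hs Q).symm
  · show ∑ j, ((wt j : MvPowerSeries (Fin N) R) * MvPowerSeries.X j) •
      -AdjoinRoot.mk P (dC (fun z => MvPowerSeries.pderiv R j z) P) =
      -AdjoinRoot.mk P (dC (B8_E R wt) P)
    rw [hs P, ← Finset.sum_neg_distrib]
    refine Finset.sum_congr rfl fun j _ => ?_
    rw [smul_neg]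

/-- the algebra of the last step -/
private theorem B8_last {O : Type*} [CommRing O] (P Q : O[X]) (hP : P.Monic)
    (hm : 0 < P.natDegree) (W : Submodule O (VV P)) (hW : W0 P Q hP ≤ W) (s : O)
    (hs : ∀ v : VV P, s • v ∈ W) (lam db w0 : O) (v1 v2 z1 z2 : AdjoinRoot P)
    (h1 : v1 = db • AdjoinRoot.mk P Q - w0 • (AdjoinRoot.root P * AdjoinRoot.mk P (derivative Q)) +
      s • z1)
    (h2 : v2 = -(w0 • (AdjoinRoot.root P * AdjoinRoot.mk P (derivative P))) + s • z2)
    (hv : (![lam • b0 P, v1, -v2] : VV P) ∈ W)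
    (hu : IsUnit (lam + db * (P.natDegree : O))) : e0 P (b0 P) ∈ W := by
  have hK : (w0 • (AdjoinRoot.root P • K3 P Q)) ∈ W :=
    W.smul_mem _ (hW (Submodule.subset_span (Or.inr (Or.inr (Or.inl ⟨_, rfl⟩)))))
  have hq := W.smul_mem db (hW (qe1_mem P Q hP 1))
  have he := W.smul_mem db (hW (e0_sub_mem P Q hP hm (AdjoinRoot.mk P (derivative P))))
  rw [B8_tau P hP hm] at he
  have hz := hs (![0, z1, -z2] : VV P)
  have hsum := W.add_mem (W.sub_mem (W.sub_mem (W.sub_mem hv hK) hz) hq)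
    (W.neg_mem he)
  obtain ⟨u, hu⟩ := hu
  have hfin : (u : O) • e0 P (b0 P) ∈ W := by
    convert hsum using 1
    rw [hu, h1, h2]
    funext i
    fin_cases i
    · show (lam + db * (P.natDegree : O)) • b0 P =
        lam • b0 P - w0 • (AdjoinRoot.root P * 0) - s • 0 -
          db • (0 - 1 * AdjoinRoot.mk P (derivative P)) +
          -(db • (AdjoinRoot.mk P (derivative P) - (P.natDegree : O) • b0 P))
      rw [mul_zero, smul_zero, smul_zero, add_smul, mul_smul, smul_sub, smul_sub, smul_zero,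
        one_mul]
      abel
    · show (lam + db * (P.natDegree : O)) • (0 : AdjoinRoot P) =
        (db • AdjoinRoot.mk P Q - w0 • (AdjoinRoot.root P * AdjoinRoot.mk P (derivative Q)) +
          s • z1) - w0 • (AdjoinRoot.root P * -AdjoinRoot.mk P (derivative Q)) - s • z1 -
          db • (AdjoinRoot.mk P Q * 1 - 0) +
          -(db • ((0 : AdjoinRoot P) - (P.natDegree : O) • 0))
      simp only [smul_zero, sub_zero, neg_zero, add_zero, mul_one, mul_neg, smul_neg]
      abel
    · show (lam + db * (P.natDegree : O)) • (0 : AdjoinRoot P) =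
        -(-(w0 • (AdjoinRoot.root P * AdjoinRoot.mk P (derivative P))) + s • z2) -
          w0 • (AdjoinRoot.root P * AdjoinRoot.mk P (derivative P)) - s • -z2 -
          db • (0 - 0) +
          -(db • ((0 : AdjoinRoot P) - (P.natDegree : O) • 0))
      simp only [smul_zero, sub_zero, neg_zero, add_zero, smul_neg]
      abel
  have h3 := W.smul_mem (↑u⁻¹ : O) hfin
  rwa [smul_smul, Units.inv_mul, one_smul] at h3

theorem wh_mem (k : Type) [Field k] [CharZero k] {n : ℕ} (a b : SR (PowerSeries k) n)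
    (ha : MvPowerSeries.constantCoeff a = 0) (hb : MvPowerSeries.constantCoeff b = 0)
    (P' φ : (SR (PowerSeries k) n)[X]) (hW : Weier a b ha P' φ)
    (w : Fin (n + 1) → ℕ) (da db : ℕ) (hdb : 0 < db) (hwa : IsWH w da (sp k a)) (hwb : IsWH w db (sp k b))
    (l : Fin (n + 2) → OR (PowerSeries k) n) :
    e0 (PO P') (b0 (PO P')) ∈ WM (PO P') (QO φ) (PO_monic P' hW.monic) dO l ⊔ sTop (PO P') := by
  obtain ⟨wt', hwt0, hwt1⟩ : ∃ wt' : Fin (n + 1) → ℕ, wt' 0 = da ∧
      ∀ j : Fin n, wt' j.succ = w j.succ :=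
    ⟨Fin.cons da (fun j : Fin n => w j.succ), rfl, fun j => rfl⟩
  have hz : ∀ j, ∃ z, B8_E (PowerSeries k) w (fa a j) =
      (wt' j : SR (PowerSeries k) n) * fa a j + sO k (n + 1) * z := by
    intro j
    refine Fin.cases ?_ (fun i => ?_) j
    · rw [hwt0]
      exact B8_wh k w da a hwa
    · refine ⟨0, ?_⟩
      have h : fa a i.succ = MvPowerSeries.X i.succ := rfl
      rw [h, B8_E_X, hwt1, mul_zero, add_zero]
  obtain ⟨Z1, hZ1⟩ := B8_P k a b ha P' φ hW w wt' hz
  obtain ⟨Z2, hZ2⟩ := B8_phi k a b ha P' φ hW w wt' db hz (B8_wh k w db b hwb)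
  have hP := PO_monic P' hW.monic
  have hdeg : (PO P').natDegree = P'.natDegree := hW.monic.natDegree_map _
  have hm : 0 < (PO P').natDegree := by
    rw [hdeg]
    exact hW.pos
  have hi : ∀ m : ℕ, (iot : SR (PowerSeries k) n →ₐ[PowerSeries k] OR (PowerSeries k) n).toRingHom
      (m : SR (PowerSeries k) n) = (m : OR (PowerSeries k) n) := fun m => map_natCast _ m
  have hs : (iot : SR (PowerSeries k) n →ₐ[PowerSeries k] OR (PowerSeries k) n).toRingHom
      (sO k (n + 1)) = sO k (n + 2) := B8_iot_s k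
  have e1 := B8_mk P' _ hZ1
  have e2 := B8_mk P' _ hZ2
  rw [Polynomial.map_sub, B8_map_hat db, map_sub, sub_eq_zero, Polynomial.map_mul,
    Polynomial.map_C, hs, map_add, map_mul, map_mul, map_mul, AdjoinRoot.mk_X] at e1
  rw [Polynomial.map_sub, B8_map_hat db, map_sub, sub_eq_zero, Polynomial.map_add,
    Polynomial.map_mul, Polynomial.map_mul, Polynomial.map_C, Polynomial.map_C, hi, hs,
    map_add, map_add, map_mul, map_mul, map_mul, map_mul, AdjoinRoot.mk_X] at e2
  have hsm : ∀ (c : OR (PowerSeries k) n) (z : AdjoinRoot (PO P')),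
      c • z = AdjoinRoot.mk (PO P') (C c) * z := fun c z => Algebra.smul_def c z
  have hQ : dC (B8_E (PowerSeries k) (Fin.cons db wt' : Fin (n + 2) → ℕ)) (QO φ) =
      dC (B8_E (PowerSeries k) (Fin.cons db wt' : Fin (n + 2) → ℕ))
        (φ.map (iot : SR (PowerSeries k) n →ₐ[PowerSeries k] OR (PowerSeries k) n).toRingHom) -
      C (db : OR (PowerSeries k) n) * C (MvPowerSeries.X 0) := by
    unfold QO
    rw [dC_sub, dC_C, B8_E_X, C_mul]
    rfl
  have hQ' : derivative (QO φ) = derivative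
      (φ.map (iot : SR (PowerSeries k) n →ₐ[PowerSeries k] OR (PowerSeries k) n).toRingHom) := by
    unfold QO
    rw [derivative_sub, derivative_C, sub_zero]
  have hQm : AdjoinRoot.mk (PO P') (QO φ) = AdjoinRoot.mk (PO P')
      (φ.map (iot : SR (PowerSeries k) n →ₐ[PowerSeries k] OR (PowerSeries k) n).toRingHom) -
      AdjoinRoot.mk (PO P') (C (MvPowerSeries.X 0)) := by
    unfold QO
    rw [map_sub]
  refine B8_last (PO P') (QO φ) hP hm _ (le_trans le_sup_left le_sup_left) (sO k (n + 2)) ?_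
    (∑ j, ((Fin.cons db wt' : Fin (n + 2) → ℕ) j : OR (PowerSeries k) n) *
      MvPowerSeries.X j * l j) (db : OR (PowerSeries k) n) (w 0 : OR (PowerSeries k) n)
    (AdjoinRoot.mk (PO P') (dC (B8_E (PowerSeries k) (Fin.cons db wt' : Fin (n + 2) → ℕ)) (QO φ)))
    (AdjoinRoot.mk (PO P') (dC (B8_E (PowerSeries k) (Fin.cons db wt' : Fin (n + 2) → ℕ)) (PO P')))
    (AdjoinRoot.mk (PO P')
      (Z2.map (iot : SR (PowerSeries k) n →ₐ[PowerSeries k] OR (PowerSeries k) n).toRingHom))
    (AdjoinRoot.mk (PO P')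
      (Z1.map (iot : SR (PowerSeries k) n →ₐ[PowerSeries k] OR (PowerSeries k) n).toRingHom))
    ?_ ?_ ?_ ?_
  · intro v
    exact Submodule.mem_sup_right ⟨v, rfl⟩
  · rw [hQ, hQ', hQm, map_sub, map_mul, hsm, hsm, hsm]
    linear_combination e2
  · rw [hsm, hsm]
    unfold PO at e1 ⊢
    linear_combination e1
  · have h1 := B8_sum (PO P') (QO φ) (Fin.cons db wt' : Fin (n + 2) → ℕ) l
    have h2 : wv (PO P') (QO φ) (B8_E (PowerSeries k) (Fin.cons db wt' : Fin (n + 2) → ℕ))
        (∑ j, ((Fin.cons db wt' : Fin (n + 2) → ℕ) j : OR (PowerSeries k) n) *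
          MvPowerSeries.X j * l j) ∈ WM (PO P') (QO φ) (PO_monic P' hW.monic) dO l ⊔
            sTop (PO P') := by
      rw [← h1]
      refine Submodule.mem_sup_left (Submodule.mem_sup_right ?_)
      refine Submodule.sum_mem _ fun j _ => ?_
      exact Submodule.smul_mem _ _ (Submodule.subset_span ⟨j, rfl⟩)
    exact h2
  · rw [MvPowerSeries.isUnit_iff_constantCoeff, map_add, map_sum]
    have h1 : ∀ j ∈ (Finset.univ : Finset (Fin (n + 2))), MvPowerSeries.constantCoeff
        (((Fin.cons db wt' : Fin (n + 2) → ℕ) j : OR (PowerSeries k) n) *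
          MvPowerSeries.X j * l j) = 0 := by
      intro j _
      rw [map_mul, map_mul, MvPowerSeries.constantCoeff_X, mul_zero, zero_mul]
    rw [Finset.sum_eq_zero h1, zero_add, map_mul, map_natCast, map_natCast,
      PowerSeries.isUnit_iff_constantCoeff, map_mul, map_natCast, map_natCast, isUnit_iff_ne_zero]
    exact mul_ne_zero (Nat.cast_ne_zero.2 hdb.ne') (Nat.cast_ne_zero.2 hm.ne')

end Pool.Agent.LibMF6
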