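import Pool.Agent.LibMF6.A0
import Pool.Agent.LibMF6.A3

set_option autoImplicit false

/-! ROW B9a (MEDIUM/LONG, A0, A1, A3). A functional on `T^1` when `P`, `Q` have a common factor of degree ≥ 2 over κ(G).
 ψ = algebraMap O K, kernel = multiples of G (hker), K = fractions (hfrac). P.map ψ = h P1, Q.map ψ = h Q1, IsCoprime P1 Q1, natDegree h ≥ 2 (so h ≠ 0; P.map ψ monic of degree m). T(f) := (f %ₘ P.map ψ).coeff (m-1), K-linear K[x] → K; T((g).map ψ) = ψ(τ(mk g)).
 For z in K[x]: lam_z(v) := T(P1 z (P1 * v_1 + Q1 * v_2)), where v_c in AdjoinRoot P is read in K[x]/(P.map ψ) (AdjoinRoot.map or: the polynomial (modByMonicHom hP v_c).map ψ); O-linear VV P → K. lam_z vanishes on: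
   b K1 = (-bP', b q, 0): P1 z P1 b Q = P1 z b Q1 (h P1) = 0 mod P; b K2 the same; b K3 = (0, -bQ', bP'): P1 z b (Q1 P' - P1 Q') and Q1 P' - P1 Q' = h (Q1 P1' - P1 Q1') (P' = h'P1 + hP1', ..), so divisible by P1 h = P; e0 b: 0.
 D_j := P1 * (dC D_j Q).map ψ - Q1 * (dC D_j P).map ψ, lam_z(wv j) = T(P1 z D_j).
 CLAIM: θ : Derivation R O O (an O-combination of the D_j) with θ G = 0 (or G ∣ θ G) ⇒ h ∣ P1 * (dC θ Q).map ψ - Q1 * (dC θ P).map ψ. Proof: clear denominators: δ in O with ψ δ ≠ 0, H, U in O[x] with H.map ψ = c h, U.map ψ = c' P1 (c c' = ψ δ, nonzero), so δ P - H U has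
   all coefficients in (G): = G V. Apply dC θ: θδ P + δ dCθ P = dCθ H * U + H * dCθ U + θG V + G dCθ V. Modulo G and modulo h: ψδ (dCθ P).map ≡ (dCθ H).map * c' P1. The same with the same H for Q (choose H with H.map ψ = c h first, then U_Q, δ_Q):
   ψδ_Q (dCθ Q).map ≡ (dCθ H).map * c'' Q1, c c' = ψ δ, c c'' = ψ δ_Q. So c * (dCθ P).map ≡ (dCθ H).map P1 and c * (dCθ Q).map ≡ (dCθ H).map Q1 mod h, and the claim follows.
 If ψ(D_j G) = 0 for all j: apply the claim to θ = D_j (G ∣ D_j G by hker): h ∣ D_j for all j; z = 1. Otherwise choose j0 with ψ(D_j0 G) ≠ 0; θ_j := (D_j0 G) • D_j - (D_j G) • D_j0 kills G: h ∣ ψ(D_j0 G) D_j - ψ(D_j G) D_j0. The K-linear map from polynomials of degree < natDegree h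
   (dimension ≥ 2) to K, z ↦ T(P1 z D_j0), has a nonzero z in its kernel (z not divisible by h as degree < degree h). Then T(P1 z D_j) = 0 for all j (T(P1 h *) = 0).
 lam_z ≠ 0: otherwise T(b P1 z P1) = T(b P1 z Q1) = 0 for all b in K[x] (K-linear combinations of images of O[x] by x^i), so P.map ψ = h P1 ∣ P1 P1 z and ∣ P1 Q1 z (nondegeneracy over K: tau_nondeg for P.map ψ), h ∣ P1 z, Q1 z, h ∣ z. -/

namespace Pool.Agent.LibMF6

open Polynomial

private theorem B9a_den {O : Type*} [CommRing O] {K : Type*} [Field K] [Algebra O K]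
    (hfrac : ∀ c : K, ∃ u d : O, algebraMap O K d ≠ 0 ∧ c * algebraMap O K d = algebraMap O K u) (f : K[X]) :
    ∃ (F : O[X]) (d : O), algebraMap O K d ≠ 0 ∧ F.map (algebraMap O K) = C (algebraMap O K d) * f := by
  induction f using Polynomial.induction_on' with
  | add f g hf hg =>
    obtain ⟨F, d, hd, hF⟩ := hf
    obtain ⟨F', d', hd', hF'⟩ := hg
    refine ⟨C d' * F + C d * F', d * d', ?_, ?_⟩
    · rw [map_mul]
      exact mul_ne_zero hd hd'
    · rw [Polynomial.map_add, Polynomial.map_mul, Polynomial.map_mul, hF, hF', map_C, map_C, map_mul, C_mul]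
      ring
  | monomial n c =>
    obtain ⟨u, d, hd, hu⟩ := hfrac c
    refine ⟨monomial n u, d, hd, ?_⟩
    rw [Polynomial.map_monomial, C_mul_monomial, ← hu, mul_comm]

private theorem B9a_half {R O : Type*} [CommRing R] [CommRing O] [Algebra R O] {K : Type*} [Field K] [Algebra O K]
    (P : O[X]) (G : O) (hker : ∀ x, algebraMap O K x = 0 ↔ G ∣ x)
    (hfrac : ∀ c : K, ∃ u d : O, algebraMap O K d ≠ 0 ∧ c * algebraMap O K d = algebraMap O K u)
    (h P1 : K[X]) (hPh : P.map (algebraMap O K) = h * P1) (θ : Derivation R O O) (hθ : G ∣ θ G) (H : O[X]) (dh : O)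
    (hH : H.map (algebraMap O K) = C (algebraMap O K dh) * h) :
    h ∣ C (algebraMap O K dh) * (dC θ P).map (algebraMap O K) - (dC θ H).map (algebraMap O K) * P1 := by
  obtain ⟨U, du, hdu, hU⟩ := B9a_den hfrac P1
  have hE : (C (dh * du) * P - H * U).map (algebraMap O K) = 0 := by
    rw [Polynomial.map_sub, Polynomial.map_mul, Polynomial.map_mul, hPh, hH, hU, map_C, map_mul, C_mul]
    ring
  have hE2 : (dC θ (C (dh * du) * P - H * U)).map (algebraMap O K) = 0 := by
    ext i
    rw [Polynomial.coeff_map, coeff_dC, coeff_zero, hker]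
    have h1 : algebraMap O K ((C (dh * du) * P - H * U).coeff i) = 0 := by
      rw [← Polynomial.coeff_map, hE, coeff_zero]
    rw [hker] at h1
    obtain ⟨c, hc⟩ := h1
    rw [hc, Derivation.leibniz, smul_eq_mul, smul_eq_mul]
    exact dvd_add (Dvd.intro _ rfl) (Dvd.dvd.mul_left hθ c)
  rw [dC_sub, dC_mul, dC_mul, dC_C, Polynomial.map_sub, Polynomial.map_add, Polynomial.map_add, Polynomial.map_mul,
    Polynomial.map_mul, Polynomial.map_mul, Polynomial.map_mul, hPh, hH, hU, map_C, map_C,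
    map_mul (algebraMap O K) dh du, C_mul] at hE2
  have h3 : h ∣ C (algebraMap O K du) *
      (C (algebraMap O K dh) * (dC θ P).map (algebraMap O K) - (dC θ H).map (algebraMap O K) * P1) := by
    refine ⟨C (algebraMap O K dh) * (dC θ U).map (algebraMap O K) -
      C (algebraMap O K (θ (dh * du))) * P1, ?_⟩
    linear_combination hE2
  exact ((isUnit_C.2 (Ne.isUnit hdu)).dvd_mul_left).1 h3

private theorem B9a_claim {R O : Type*} [CommRing R] [CommRing O] [Algebra R O] {K : Type*} [Field K] [Algebra O K]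
    (P Q : O[X]) (G : O) (hker : ∀ x, algebraMap O K x = 0 ↔ G ∣ x)
    (hfrac : ∀ c : K, ∃ u d : O, algebraMap O K d ≠ 0 ∧ c * algebraMap O K d = algebraMap O K u)
    (h P1 Q1 : K[X]) (hPh : P.map (algebraMap O K) = h * P1) (hQh : Q.map (algebraMap O K) = h * Q1)
    (θ : Derivation R O O) (hθ : G ∣ θ G) :
    h ∣ P1 * (dC θ Q).map (algebraMap O K) - Q1 * (dC θ P).map (algebraMap O K) := by
  obtain ⟨H, dh, hdh, hH⟩ := B9a_den hfrac h
  obtain ⟨u, hu⟩ := B9a_half P G hker hfrac h P1 hPh θ hθ H dh hH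
  obtain ⟨v, hv⟩ := B9a_half Q G hker hfrac h Q1 hQh θ hθ H dh hH
  have h3 : h ∣ C (algebraMap O K dh) *
      (P1 * (dC θ Q).map (algebraMap O K) - Q1 * (dC θ P).map (algebraMap O K)) := by
    refine ⟨P1 * v - Q1 * u, ?_⟩
    linear_combination P1 * hv - Q1 * hu
  exact ((isUnit_C.2 (Ne.isUnit hdh)).dvd_mul_left).1 h3

/-- the functional `T` on `K[x]` -/
private noncomputable def B9a_T {K : Type*} [Field K] (P : K[X]) (hP : P.Monic) (f : K[X]) : K :=
  tau P hP (AdjoinRoot.mk P f)

private theorem B9a_T_add {K : Type*} [Field K] (P : K[X]) (hP : P.Monic) (f g : K[X]) :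
    B9a_T P hP (f + g) = B9a_T P hP f + B9a_T P hP g := by
  unfold B9a_T
  rw [map_add, map_add]

private theorem B9a_T_C {K : Type*} [Field K] (P : K[X]) (hP : P.Monic) (c : K) (g : K[X]) :
    B9a_T P hP (C c * g) = c * B9a_T P hP g := by
  unfold B9a_T
  rw [← smul_eq_C_mul, ← AdjoinRoot.smul_mk, map_smul, smul_eq_mul]

private theorem B9a_T_zero {K : Type*} [Field K] (P : K[X]) (hP : P.Monic) (f : K[X]) (h : P ∣ f) :
    B9a_T P hP f = 0 := by
  unfold B9a_T
  rw [AdjoinRoot.mk_eq_zero.2 h, map_zero]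

private theorem B9a_T_nondeg {K : Type*} [Field K] (P : K[X]) (hP : P.Monic) (hm : 0 < P.natDegree) (f : K[X])
    (h : ∀ i : ℕ, B9a_T P hP (X ^ i * f) = 0) : P ∣ f := by
  rw [← AdjoinRoot.mk_eq_zero]
  apply tau_nondeg P hP hm
  intro i _
  have := h i
  unfold B9a_T at this
  rw [map_mul, map_pow, AdjoinRoot.mk_X] at this
  exact this

/-- existence of `z` -/
private theorem B9a_z {R O : Type*} [CommRing R] [CommRing O] [Algebra R O] {N : ℕ} (P Q : O[X])
    (D : Fin N → Derivation R O O) (G : O) {K : Type*} [Field K] [Algebra O K] (hPm : (P.map (algebraMap O K)).Monic)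
    (hker : ∀ x, algebraMap O K x = 0 ↔ G ∣ x)
    (hfrac : ∀ c : K, ∃ u d : O, algebraMap O K d ≠ 0 ∧ c * algebraMap O K d = algebraMap O K u)
    (h P1 Q1 : K[X]) (hPh : P.map (algebraMap O K) = h * P1) (hQh : Q.map (algebraMap O K) = h * Q1)
    (h2 : 2 ≤ h.natDegree) :
    ∃ z : K[X], ¬ h ∣ z ∧ ∀ j, B9a_T (P.map (algebraMap O K)) hPm
      (P1 * z * (P1 * (dC (D j) Q).map (algebraMap O K) - Q1 * (dC (D j) P).map (algebraMap O K))) = 0 := by
  have hsmall : ∀ z : K[X], z ≠ 0 → z.natDegree ≤ 1 → ¬ h ∣ z := by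
    intro z hz hz1 hh
    have := Polynomial.natDegree_le_of_dvd hh hz
    omega
  have hT : ∀ f w : K[X], h ∣ w → B9a_T (P.map (algebraMap O K)) hPm (P1 * f * w) = 0 := by
    rintro f w ⟨w', rfl⟩
    apply B9a_T_zero
    rw [hPh]
    exact ⟨f * w', by ring⟩
  by_cases hall : ∀ j, algebraMap O K (D j G) = 0
  · refine ⟨1, hsmall 1 one_ne_zero (by simp), fun j => ?_⟩
    exact hT _ _ (B9a_claim P Q G hker hfrac h P1 Q1 hPh hQh (D j) ((hker _).1 (hall j)))
  · push Not at hall
    obtain ⟨j0, hj0⟩ := hall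
    set E : Fin N → K[X] := fun j => P1 * (dC (D j) Q).map (algebraMap O K) - Q1 * (dC (D j) P).map (algebraMap O K)
      with hE
    have hdvd : ∀ j, h ∣ C (algebraMap O K (D j0 G)) * E j - C (algebraMap O K (D j G)) * E j0 := by
      intro j
      have h1 := B9a_claim P Q G hker hfrac h P1 Q1 hPh hQh ((D j0 G) • D j - (D j G) • D j0) (by
        rw [Derivation.sub_apply, Derivation.smul_apply, Derivation.smul_apply, smul_eq_mul, smul_eq_mul,
          mul_comm, sub_self]
        exact dvd_zero G)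
      have h4 : ∀ F : O[X], dC (⇑((D j0 G) • D j - (D j G) • D j0)) F =
          C (D j0 G) * dC (D j) F - C (D j G) * dC (D j0) F := by
        intro F
        ext i
        rw [coeff_dC, coeff_sub, coeff_C_mul, coeff_C_mul, coeff_dC, coeff_dC, Derivation.sub_apply,
          Derivation.smul_apply, Derivation.smul_apply, smul_eq_mul, smul_eq_mul]
      rw [h4, h4, Polynomial.map_sub, Polynomial.map_sub, Polynomial.map_mul, Polynomial.map_mul, Polynomial.map_mul,
        Polynomial.map_mul, map_C, map_C] at h1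
      have h5 : C (algebraMap O K (D j0 G)) * E j - C (algebraMap O K (D j G)) * E j0 =
          P1 * (C (algebraMap O K (D j0 G)) * (dC (D j) Q).map (algebraMap O K) -
            C (algebraMap O K (D j G)) * (dC (D j0) Q).map (algebraMap O K)) -
          Q1 * (C (algebraMap O K (D j0 G)) * (dC (D j) P).map (algebraMap O K) -
            C (algebraMap O K (D j G)) * (dC (D j0) P).map (algebraMap O K)) := by
        rw [hE]
        ring
      rw [h5]
      exact h1
    obtain ⟨z, hz0, hz1, hz⟩ : ∃ z : K[X], z ≠ 0 ∧ z.natDegree ≤ 1 ∧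
        B9a_T (P.map (algebraMap O K)) hPm (P1 * z * E j0) = 0 := by
      by_cases hα : B9a_T (P.map (algebraMap O K)) hPm (P1 * 1 * E j0) = 0
      · exact ⟨1, one_ne_zero, by simp, hα⟩
      · refine ⟨C (B9a_T (P.map (algebraMap O K)) hPm (P1 * X * E j0)) +
          C (-B9a_T (P.map (algebraMap O K)) hPm (P1 * 1 * E j0)) * X, ?_, ?_, ?_⟩
        · intro h0
          have := congrArg (fun f => Polynomial.coeff f 1) h0
          simp only [coeff_add, coeff_C_mul, coeff_X_one, coeff_zero] at this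
          rw [coeff_C_of_ne_zero one_ne_zero, zero_add, mul_one, neg_eq_zero] at this
          exact hα this
        · refine (Polynomial.natDegree_add_le _ _).trans ?_
          refine max_le ?_ ?_
          · rw [natDegree_C]
            exact zero_le_one
          · exact (Polynomial.natDegree_C_mul_le _ _).trans Polynomial.natDegree_X_le
        · have h6 : P1 * (C (B9a_T (P.map (algebraMap O K)) hPm (P1 * X * E j0)) +
              C (-B9a_T (P.map (algebraMap O K)) hPm (P1 * 1 * E j0)) * X) * E j0 =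
              C (B9a_T (P.map (algebraMap O K)) hPm (P1 * X * E j0)) * (P1 * 1 * E j0) +
              C (-B9a_T (P.map (algebraMap O K)) hPm (P1 * 1 * E j0)) * (P1 * X * E j0) := by ring
          rw [h6, B9a_T_add, B9a_T_C, B9a_T_C]
          ring
    refine ⟨z, hsmall z hz0 hz1, fun j => ?_⟩
    have h7 := hT z _ (hdvd j)
    have h8 : P1 * z * (C (algebraMap O K (D j0 G)) * E j - C (algebraMap O K (D j G)) * E j0) =
        C (algebraMap O K (D j0 G)) * (P1 * z * E j) + C (-algebraMap O K (D j G)) * (P1 * z * E j0) := by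
      rw [C_neg]
      ring
    rw [h8, B9a_T_add, B9a_T_C, B9a_T_C, hz, mul_zero, add_zero] at h7
    exact (mul_eq_zero.1 h7).resolve_left hj0

/-- extension of scalars -/
private noncomputable def B9a_ph {O : Type*} [CommRing O] (P : O[X]) {K : Type*} [Field K] [Algebra O K] :
    AdjoinRoot P →+* AdjoinRoot (P.map (algebraMap O K)) :=
  AdjoinRoot.lift ((AdjoinRoot.of (P.map (algebraMap O K))).comp (algebraMap O K))
    (AdjoinRoot.root (P.map (algebraMap O K))) (by
      rw [← Polynomial.eval₂_map, AdjoinRoot.eval₂_root])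

private theorem B9a_ph_mk {O : Type*} [CommRing O] (P : O[X]) {K : Type*} [Field K] [Algebra O K] (f : O[X]) :
    B9a_ph P (K := K) (AdjoinRoot.mk P f) = AdjoinRoot.mk _ (f.map (algebraMap O K)) := by
  unfold B9a_ph
  rw [AdjoinRoot.lift_mk, ← Polynomial.eval₂_map]
  rw [← AdjoinRoot.aeval_eq, Polynomial.aeval_def, AdjoinRoot.algebraMap_eq]

/-- the functional -/
private noncomputable def B9a_lam {O : Type*} [CommRing O] (P : O[X]) {K : Type*} [Field K] [Algebra O K]
    (hPm : (P.map (algebraMap O K)).Monic) (P1 Q1 z : K[X]) : VV P →ₗ[O] K where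
  toFun v := tau (P.map (algebraMap O K)) hPm (AdjoinRoot.mk _ (P1 * z) *
    (AdjoinRoot.mk _ P1 * B9a_ph P (v 1) + AdjoinRoot.mk _ Q1 * B9a_ph P (v 2)))
  map_add' u v := by
    rw [Pi.add_apply, Pi.add_apply, map_add, map_add, ← map_add (tau (P.map (algebraMap O K)) hPm)]
    congr 1
    ring
  map_smul' c v := by
    have h1 : ∀ w : AdjoinRoot P, B9a_ph P (K := K) (c • w) = algebraMap O K c • B9a_ph P w := by
      intro w
      obtain ⟨f, rfl⟩ := AdjoinRoot.mk_surjective w
      rw [AdjoinRoot.smul_mk, B9a_ph_mk, B9a_ph_mk, AdjoinRoot.smul_mk, smul_eq_C_mul, smul_eq_C_mul,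
        Polynomial.map_mul, map_C]
    have h2 : ∀ (a : K) (x y z w t : AdjoinRoot (P.map (algebraMap O K))),
        x * (y * (a • z) + w * (a • t)) = a • (x * (y * z + w * t)) := by
      intro a x y z w t
      rw [mul_smul_comm, mul_smul_comm, ← smul_add, mul_smul_comm]
    rw [Pi.smul_apply, Pi.smul_apply, h1, h1, RingHom.id_apply, h2, map_smul, smul_eq_mul, Algebra.smul_def]

private theorem B9a_lam_eq {O : Type*} [CommRing O] (P : O[X]) {K : Type*} [Field K] [Algebra O K]
    (hPm : (P.map (algebraMap O K)).Monic) (P1 Q1 z : K[X]) (v : VV P) (f1 f2 : O[X])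
    (h1 : v 1 = AdjoinRoot.mk P f1) (h2 : v 2 = AdjoinRoot.mk P f2) :
    B9a_lam P hPm P1 Q1 z v = B9a_T (P.map (algebraMap O K)) hPm
      (P1 * z * (P1 * f1.map (algebraMap O K) + Q1 * f2.map (algebraMap O K))) := by
  show tau (P.map (algebraMap O K)) hPm (AdjoinRoot.mk _ (P1 * z) *
    (AdjoinRoot.mk _ P1 * B9a_ph P (v 1) + AdjoinRoot.mk _ Q1 * B9a_ph P (v 2))) = _
  rw [h1, h2, B9a_ph_mk, B9a_ph_mk, ← map_mul, ← map_mul, ← map_add, ← map_mul]
  rfl

theorem strata {R O : Type*} [CommRing R] [CommRing O] [Algebra R O] {N : ℕ} (P Q : O[X]) (hP : P.Monic)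
    (hm : 0 < P.natDegree) (D : Fin N → Derivation R O O) (l : Fin N → O) (G : O) {K : Type*} [Field K] [Algebra O K]
    (hker : ∀ x, algebraMap O K x = 0 ↔ G ∣ x) (hfrac : ∀ c : K, ∃ u d : O, algebraMap O K d ≠ 0 ∧ c * algebraMap O K d = algebraMap O K u)
    (h P1 Q1 : K[X]) (hPh : P.map (algebraMap O K) = h * P1) (hQh : Q.map (algebraMap O K) = h * Q1) (hcop : IsCoprime P1 Q1)
    (h2 : 2 ≤ h.natDegree) :
    ∃ lam : VV P →ₗ[O] K, lam ≠ 0 ∧ ∀ v ∈ WN P Q hP (fun j => (D j : O → O)) l, lam v = 0 := by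
  have hPm : (P.map (algebraMap O K)).Monic := hP.map _
  have hm' : 0 < (P.map (algebraMap O K)).natDegree := by rw [hP.natDegree_map]; exact hm
  obtain ⟨z, hz, hzD⟩ := B9a_z P Q D G hPm hker hfrac h P1 Q1 hPh hQh h2
  have hP1 : P1 ≠ 0 := by
    rintro rfl
    rw [mul_zero] at hPh
    exact hPm.ne_zero hPh
  have hh : h ≠ 0 := by
    rintro rfl
    rw [zero_mul] at hPh
    exact hPm.ne_zero hPh
  refine ⟨B9a_lam P hPm P1 Q1 z, ?_, ?_⟩
  · intro h0
    have ha : P.map (algebraMap O K) ∣ P1 * z * P1 := by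
      apply B9a_T_nondeg _ hPm hm'
      intro i
      have := B9a_lam_eq P hPm P1 Q1 z ![0, AdjoinRoot.mk P (X ^ i), 0] (X ^ i) 0 rfl (by rw [map_zero]; rfl)
      rw [h0, LinearMap.zero_apply, Polynomial.map_zero, mul_zero, add_zero, Polynomial.map_pow, map_X] at this
      rw [this]
      congr 1
      ring
    have hb : P.map (algebraMap O K) ∣ P1 * z * Q1 := by
      apply B9a_T_nondeg _ hPm hm'
      intro i
      have := B9a_lam_eq P hPm P1 Q1 z ![0, 0, AdjoinRoot.mk P (X ^ i)] 0 (X ^ i) (by rw [map_zero]; rfl) rfl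
      rw [h0, LinearMap.zero_apply, Polynomial.map_zero, mul_zero, zero_add, Polynomial.map_pow, map_X] at this
      rw [this]
      congr 1
      ring
    rw [hPh] at ha hb
    have ha' : h ∣ z * P1 := by
      apply (mul_dvd_mul_iff_right hP1).1
      rw [show z * P1 * P1 = P1 * z * P1 by ring]
      exact ha
    have hb' : h ∣ z * Q1 := by
      apply (mul_dvd_mul_iff_right hP1).1
      rw [show z * Q1 * P1 = P1 * z * Q1 by ring]
      exact hb
    obtain ⟨a, b, hab⟩ := hcop
    apply hz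
    have : z = a * (z * P1) + b * (z * Q1) := by linear_combination -z * hab
    rw [this]
    exact dvd_add (ha'.mul_left a) (hb'.mul_left b)
  · suffices hle : WN P Q hP (fun j => (D j : O → O)) l ≤ LinearMap.ker (B9a_lam P hPm P1 Q1 z) by
      intro v hv
      exact LinearMap.mem_ker.1 (hle hv)
    unfold WN WM W0
    refine sup_le (sup_le ?_ ?_) ?_
    · rw [Submodule.span_le]
      rintro v (⟨b, rfl⟩ | ⟨b, rfl⟩ | ⟨b, rfl⟩ | ⟨b, _, rfl⟩)
      · obtain ⟨β, rfl⟩ := AdjoinRoot.mk_surjective b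
        show B9a_lam P hPm P1 Q1 z _ = 0
        rw [B9a_lam_eq P hPm P1 Q1 z _ (β * Q) 0 (by rw [map_mul]; rfl)
          (by rw [map_zero]; exact mul_zero (AdjoinRoot.mk P β))]
        apply B9a_T_zero
        rw [Polynomial.map_mul, Polynomial.map_zero, hPh, hQh]
        exact ⟨z * P1 * β.map (algebraMap O K) * Q1, by ring⟩
      · obtain ⟨β, rfl⟩ := AdjoinRoot.mk_surjective b
        show B9a_lam P hPm P1 Q1 z _ = 0
        rw [B9a_lam_eq P hPm P1 Q1 z _ 0 (β * Q) (by rw [map_zero]; exact mul_zero (AdjoinRoot.mk P β))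
          (by rw [map_mul]; rfl)]
        apply B9a_T_zero
        rw [Polynomial.map_mul, Polynomial.map_zero, hPh, hQh]
        exact ⟨z * Q1 * β.map (algebraMap O K) * Q1, by ring⟩
      · obtain ⟨β, rfl⟩ := AdjoinRoot.mk_surjective b
        show B9a_lam P hPm P1 Q1 z _ = 0
        rw [B9a_lam_eq P hPm P1 Q1 z _ (-(β * derivative Q)) (β * derivative P)
          (by rw [map_neg, map_mul]; exact mul_neg (AdjoinRoot.mk P β) _) (by rw [map_mul]; rfl)]
        apply B9a_T_zero
        rw [Polynomial.map_neg, Polynomial.map_mul, Polynomial.map_mul, ← derivative_map, ← derivative_map, hPh, hQh,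
          derivative_mul, derivative_mul]
        exact ⟨z * β.map (algebraMap O K) * (Q1 * derivative P1 - P1 * derivative Q1), by ring⟩
      · show B9a_lam P hPm P1 Q1 z _ = 0
        rw [B9a_lam_eq P hPm P1 Q1 z _ 0 0 (by rw [map_zero]; rfl) (by rw [map_zero]; rfl)]
        apply B9a_T_zero
        rw [Polynomial.map_zero, mul_zero, mul_zero, add_zero, mul_zero]
        exact dvd_zero _
    · rw [Submodule.span_le]
      rintro v ⟨j, rfl⟩
      show B9a_lam P hPm P1 Q1 z _ = 0
      rw [B9a_lam_eq P hPm P1 Q1 z _ (dC (D j) Q) (-(dC (D j) P)) rfl (by rw [map_neg]; rfl), Polynomial.map_neg,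
        mul_neg, ← sub_eq_add_neg]
      exact hzD j
    · rw [Submodule.span_le]
      rintro v ⟨b, rfl⟩
      show B9a_lam P hPm P1 Q1 z _ = 0
      rw [B9a_lam_eq P hPm P1 Q1 z _ 0 0 (by rw [map_zero]; rfl) (by rw [map_zero]; rfl)]
      apply B9a_T_zero
      rw [Polynomial.map_zero, mul_zero, mul_zero, add_zero, mul_zero]
      exact dvd_zero _

end Pool.Agent.LibMF6
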