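import Pool.Agent.LibMF6.A4

set_option autoImplicit false

/-! ROW B9b (MEDIUM, A1, A4). If the adjugate element `r` (q r = G) vanishes in K, then `P`, `Q` have a common factor of degree ≥ 2.
 crit: K field, M singular, b such that every vector is in K b + im M. Then adjugate M *ᵥ b ≠ 0. Proof: take w ≠ 0 with M w = 0 (Matrix.exists_mulVec_eq_zero_iff), an index i with w_i ≠ 0. M' := M.updateCol i b; every column of M lies in the span of the other columns j ≠ i (w_i M_i = - ∑ w_j M_j), so the columns
   of M' span K^n, M' is invertible, det M' ≠ 0, and det M' = cramer M b i = (adjugate M *ᵥ b) i.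
 two_le: bs = (AdjoinRoot.powerBasis' hP).basis, M = Algebra.leftMulMatrix bs (mk Q), det M = GG P Q. q is a nonzerodivisor (hq) and q * (element with coordinates adjugate M *ᵥ 1) = GG = q r, so r has coordinates adjugate M *ᵥ (coordinates of 1). Let Mψ = M.map ψ: entries = coefficients of (x^j Q) %ₘ P
   mapped = matrix of multiplication by Q.map ψ on K[x]/(P.map ψ). det Mψ = ψ(GG) = 0. If natDegree h = 0: IsCoprime, contradiction with norm_map, norm_ne_zero. If natDegree h = 1: every f in K[x] is ≡ constant mod h, and h = α Pψ + β Qψ (from IsCoprime P1 Q1: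
   1 = α P1 + β Q1), so f ≡ const + β' Qψ mod Pψ, i.e. every vector is in K (coordinates of 1) + im Mψ; crit: adjugate Mψ *ᵥ 1 ≠ 0, but this is the image of the coordinates of r, = 0 by hr0. -/

namespace Pool.Agent.LibMF6

open Polynomial

theorem crit {K : Type*} [Field K] {n : Type*} [Fintype n] [DecidableEq n] (M : Matrix n n K) (b : n → K) (hM : M.det = 0)
    (h : ∀ v : n → K, ∃ (c : K) (w : n → K), v = c • b + M.mulVec w) : M.adjugate.mulVec b ≠ 0 := by
  obtain ⟨w, hw0, hw⟩ := Matrix.exists_mulVec_eq_zero_iff.2 hM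
  obtain ⟨i, hi⟩ : ∃ i, w i ≠ 0 := by
    by_contra hcon
    push Not at hcon
    exact hw0 (funext hcon)
  have key : ∀ u : n → K, u i = 0 → (M.updateCol i b).mulVec u = M.mulVec u := by
    intro u hu
    funext j
    unfold Matrix.mulVec dotProduct
    refine Finset.sum_congr rfl fun l _ => ?_
    change M.updateCol i b j l * u l = M j l * u l
    by_cases hl : l = i
    · rw [hl, hu, mul_zero, mul_zero]
    · rw [Matrix.updateCol_ne hl]
  have hcol : (M.updateCol i b).mulVec (Pi.single i 1) = b := by
    rw [Matrix.mulVec_single_one]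
    funext j
    change M.updateCol i b j i = b j
    rw [Matrix.updateCol_self]
  have hsurj : Function.Surjective (M.updateCol i b).mulVec := by
    intro v
    obtain ⟨c, w', hv⟩ := h v
    refine ⟨(w' - (w' i / w i) • w) + c • Pi.single i 1, ?_⟩
    rw [Matrix.mulVec_add, Matrix.mulVec_smul, hcol, key]
    · rw [Matrix.mulVec_sub, Matrix.mulVec_smul, hw, smul_zero, sub_zero, hv, add_comm]
    · rw [Pi.sub_apply, Pi.smul_apply, smul_eq_mul, div_mul_cancel₀ _ hi, sub_self]
  have hunit := Matrix.mulVec_surjective_iff_isUnit.1 hsurj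
  rw [Matrix.isUnit_iff_isUnit_det, ← Matrix.cramer_apply, Matrix.cramer_eq_adjugate_mulVec] at hunit
  intro h0
  rw [h0] at hunit
  exact not_isUnit_zero hunit

/-- coordinates modulo `p` -/
private noncomputable def B9b_co {K : Type*} [Field K] (p : K[X]) (m : ℕ) : K[X] →ₗ[K] (Fin m → K) :=
  (LinearMap.pi fun i : Fin m => lcoeff K (i : ℕ)) ∘ₗ modByMonicHom p

private theorem B9b_co_apply {K : Type*} [Field K] (p : K[X]) (m : ℕ) (f : K[X]) (i : Fin m) :
    B9b_co p m f i = (f %ₘ p).coeff i := rfl

private theorem B9b_co_mul {K : Type*} [Field K] (p : K[X]) (hp : p.Monic) (m : ℕ) (f : K[X]) :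
    B9b_co p m (p * f) = 0 := by
  funext i
  rw [B9b_co_apply, (modByMonic_eq_zero_iff_dvd hp).2 (Dvd.intro _ rfl), coeff_zero, Pi.zero_apply]

private theorem B9b_key {O : Type*} [CommRing O] (P Q : O[X]) (hP : P.Monic) {K : Type*} [Field K]
    [Algebra O K] (g : K[X]) :
    B9b_co (P.map (algebraMap O K)) P.natDegree (Q.map (algebraMap O K) * g) =
      ((Algebra.leftMulMatrix (AdjoinRoot.powerBasisAux' hP) (AdjoinRoot.mk P Q)).map
        (algebraMap O K)).mulVec (B9b_co (P.map (algebraMap O K)) P.natDegree g) := by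
  have hPm : (P.map (algebraMap O K)).Monic := hP.map _
  have hdeg : (P.map (algebraMap O K)).natDegree = P.natDegree := hP.natDegree_map _
  have hcase : ∀ g : K[X], g.degree < (P.map (algebraMap O K)).degree →
      B9b_co (P.map (algebraMap O K)) P.natDegree (Q.map (algebraMap O K) * g) =
      ((Algebra.leftMulMatrix (AdjoinRoot.powerBasisAux' hP) (AdjoinRoot.mk P Q)).map
        (algebraMap O K)).mulVec (B9b_co (P.map (algebraMap O K)) P.natDegree g) := by
    intro g hg
    have hcg : B9b_co (P.map (algebraMap O K)) P.natDegree g = fun i : Fin P.natDegree => g.coeff i := by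
      funext i
      rw [B9b_co_apply, (modByMonic_eq_self_iff hPm).2 hg]
    have hg2 : g = ∑ j : Fin P.natDegree, g.coeff j • (X : K[X]) ^ (j : ℕ) := by
      by_cases hg0 : g = 0
      · rw [hg0]
        simp
      · have hlt : g.natDegree < P.natDegree := by
          rw [← hdeg]
          exact natDegree_lt_natDegree hg0 hg
        conv_lhs => rw [g.as_sum_range' P.natDegree hlt]
        rw [Finset.sum_range]
        refine Finset.sum_congr rfl fun j _ => ?_
        rw [← C_mul_X_pow_eq_monomial, smul_eq_C_mul]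
    rw [hcg]
    conv_lhs => rw [hg2, Finset.mul_sum, map_sum]
    funext i
    rw [Finset.sum_apply]
    unfold Matrix.mulVec dotProduct
    refine Finset.sum_congr rfl fun j _ => ?_
    rw [mul_smul_comm, map_smul, Pi.smul_apply, B9b_co_apply]
    change _ = (algebraMap O K) (Algebra.leftMulMatrix (AdjoinRoot.powerBasisAux' hP)
      (AdjoinRoot.mk P Q) i j) * g.coeff j
    rw [Algebra.leftMulMatrix_eq_repr_mul]
    have hb : (AdjoinRoot.powerBasisAux' hP) j = AdjoinRoot.root P ^ (j : ℕ) :=
      (AdjoinRoot.powerBasis' hP).basis_eq_pow j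
    rw [hb, AdjoinRoot.powerBasisAux'_repr_apply_to_fun]
    have hmk : AdjoinRoot.mk P Q * AdjoinRoot.root P ^ (j : ℕ) = AdjoinRoot.mk P (Q * X ^ (j : ℕ)) := by
      rw [map_mul, map_pow, AdjoinRoot.mk_X]
    rw [hmk, AdjoinRoot.modByMonicHom_mk]
    have hmap : Q.map (algebraMap O K) * X ^ (j : ℕ) = (Q * X ^ (j : ℕ)).map (algebraMap O K) := by
      rw [Polynomial.map_mul, Polynomial.map_pow, map_X]
    rw [hmap, ← Polynomial.map_modByMonic _ hP, coeff_map, smul_eq_mul, mul_comm]
  have hred : B9b_co (P.map (algebraMap O K)) P.natDegree g =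
      B9b_co (P.map (algebraMap O K)) P.natDegree (g %ₘ P.map (algebraMap O K)) := by
    conv_lhs => rw [← modByMonic_add_div g (P.map (algebraMap O K))]
    rw [map_add, B9b_co_mul _ hPm, add_zero]
  have hred2 : B9b_co (P.map (algebraMap O K)) P.natDegree (Q.map (algebraMap O K) * g) =
      B9b_co (P.map (algebraMap O K)) P.natDegree
        (Q.map (algebraMap O K) * (g %ₘ P.map (algebraMap O K))) := by
    conv_lhs => rw [← modByMonic_add_div g (P.map (algebraMap O K))]
    rw [mul_add, map_add, mul_left_comm, B9b_co_mul _ hPm, add_zero]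
  rw [hred, hred2]
  exact hcase _ (degree_modByMonic_lt g hPm)

theorem two_le {O : Type*} [CommRing O] (P Q : O[X]) (hP : P.Monic) (hm : 0 < P.natDegree) {K : Type*} [Field K]
    [Algebra O K] (r : AdjoinRoot P) (hr : AdjoinRoot.mk P Q * r = algebraMap O (AdjoinRoot P) (GG P Q))
    (hq : ∀ z : AdjoinRoot P, AdjoinRoot.mk P Q * z = 0 → z = 0)
    (hG : algebraMap O K (GG P Q) = 0) (hr0 : ∀ i, algebraMap O K ((AdjoinRoot.modByMonicHom hP r).coeff i) = 0)
    (h P1 Q1 : K[X]) (hPh : P.map (algebraMap O K) = h * P1) (hQh : Q.map (algebraMap O K) = h * Q1) (hcop : IsCoprime P1 Q1) :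
    2 ≤ h.natDegree := by
  by_contra hlt
  have hPm : (P.map (algebraMap O K)).Monic := hP.map _
  have hdeg : (P.map (algebraMap O K)).natDegree = P.natDegree := hP.natDegree_map _
  set bs := AdjoinRoot.powerBasisAux' hP with hbs
  set M := Algebra.leftMulMatrix bs (AdjoinRoot.mk P Q) with hMdef
  have hdet : M.det = GG P Q := by
    unfold GG
    rw [Algebra.norm_eq_matrix_det bs]
  have hdet' : (M.map (algebraMap O K)).det = 0 := by
    have h1 : (M.map (algebraMap O K)).det = algebraMap O K M.det := by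
      rw [RingHom.map_det]
      rfl
    rw [h1, hdet, hG]
  -- the coordinates of r
  have hMr : ∀ z, M.mulVec (bs.repr z) = bs.repr (AdjoinRoot.mk P Q * z) := fun z =>
    Algebra.leftMulMatrix_mulVec_repr bs _ _
  have hrep : M.adjugate.mulVec (bs.repr 1) = bs.repr r := by
    set r' := bs.equivFun.symm (M.adjugate.mulVec (bs.repr 1)) with hr'
    have h1 : (bs.repr r' : Fin P.natDegree → O) = M.adjugate.mulVec (bs.repr 1) := by
      rw [← Module.Basis.equivFun_apply, hr', LinearEquiv.apply_symm_apply]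
    have h2 : bs.repr (AdjoinRoot.mk P Q * r') = bs.repr (algebraMap O (AdjoinRoot P) (GG P Q)) := by
      apply DFunLike.coe_injective
      rw [← hMr, h1, Matrix.mulVec_mulVec, Matrix.mul_adjugate, Matrix.smul_mulVec, Matrix.one_mulVec,
        Algebra.algebraMap_eq_smul_one, map_smul, hdet]
      rfl
    have h3 : AdjoinRoot.mk P Q * r' = AdjoinRoot.mk P Q * r := by
      rw [hr]
      exact bs.repr.injective h2
    have h4 : r' - r = 0 := hq _ (by rw [mul_sub, h3, sub_self])
    rw [← h1, sub_eq_zero.1 h4]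
  have hone : (fun i => algebraMap O K (bs.repr 1 i)) =
      B9b_co (P.map (algebraMap O K)) P.natDegree 1 := by
    funext i
    rw [B9b_co_apply, AdjoinRoot.powerBasisAux'_repr_apply_to_fun]
    have h1 : (1 : AdjoinRoot P) = AdjoinRoot.mk P 1 := (map_one _).symm
    rw [h1, AdjoinRoot.modByMonicHom_mk, ← Polynomial.map_one (algebraMap O K),
      ← Polynomial.map_modByMonic _ hP, coeff_map]
  have hzero : (M.map (algebraMap O K)).adjugate.mulVec
      (B9b_co (P.map (algebraMap O K)) P.natDegree 1) = 0 := by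
    have h1 : (M.map (algebraMap O K)).adjugate = M.adjugate.map (algebraMap O K) :=
      ((algebraMap O K).map_adjugate M).symm
    funext i
    rw [h1, ← hone]
    have h2 := congrFun hrep i
    have h3 : algebraMap O K (bs.repr r i) = 0 := by
      rw [AdjoinRoot.powerBasisAux'_repr_apply_to_fun]
      exact hr0 i
    rw [← h2] at h3
    rw [Pi.zero_apply, ← h3]
    unfold Matrix.mulVec dotProduct
    rw [map_sum]
    refine Finset.sum_congr rfl fun j _ => ?_
    change algebraMap O K (M.adjugate i j) * algebraMap O K (bs.repr 1 j) =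
      algebraMap O K (M.adjugate i j * bs.repr 1 j)
    rw [map_mul]
  refine crit (M.map (algebraMap O K)) (B9b_co (P.map (algebraMap O K)) P.natDegree 1) hdet' ?_ hzero
  intro v
  obtain ⟨α, β, hαβ⟩ := hcop
  have hh : h = α * P.map (algebraMap O K) + β * Q.map (algebraMap O K) := by
    rw [hPh, hQh]
    calc h = h * (α * P1 + β * Q1) := by rw [hαβ, mul_one]
      _ = _ := by ring
  set f : K[X] := ∑ j : Fin P.natDegree, v j • (X : K[X]) ^ (j : ℕ) with hf
  have hfc : B9b_co (P.map (algebraMap O K)) P.natDegree f = v := by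
    have hfd : f.degree < (P.map (algebraMap O K)).degree := by
      rw [hf, degree_eq_natDegree hPm.ne_zero, hdeg]
      refine lt_of_le_of_lt (degree_sum_le _ _) ?_
      rw [Finset.sup_lt_iff (WithBot.bot_lt_coe _)]
      intro j _
      refine lt_of_le_of_lt (degree_smul_le _ _) ?_
      rw [degree_X_pow]
      exact_mod_cast j.2
    funext i
    rw [B9b_co_apply, (modByMonic_eq_self_iff hPm).2 hfd, hf, finsetSum_coeff]
    rw [Finset.sum_eq_single i]
    · rw [coeff_smul, coeff_X_pow, if_pos rfl, smul_eq_mul, mul_one]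
    · intro j _ hj
      rw [coeff_smul, coeff_X_pow, if_neg (fun e => hj (Fin.ext e.symm)), smul_zero]
    · intro hni
      exact absurd (Finset.mem_univ i) hni
  have hh0 : h ≠ 0 := by
    rintro rfl
    rw [zero_mul] at hPh
    exact hPm.ne_zero hPh
  have hmod : f % h = C ((f % h).coeff 0) := by
    apply eq_C_of_degree_le_zero
    have h1 : (f % h).degree < h.degree := EuclideanDomain.mod_lt f hh0
    rw [degree_eq_natDegree hh0] at h1
    have h2 : (h.natDegree : WithBot ℕ) ≤ ((1 : ℕ) : WithBot ℕ) := by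
      exact_mod_cast Nat.lt_succ_iff.1 (not_le.1 hlt)
    have h3 := lt_of_lt_of_le h1 h2
    exact Nat.WithBot.lt_one_iff_le_zero.1 h3
  obtain ⟨c0, hc0⟩ : ∃ c0, f % h = C c0 := ⟨_, hmod⟩
  have e1 : f = C c0 + h * (f / h) := by
    rw [← hc0]
    exact (EuclideanDomain.mod_add_div f h).symm
  obtain ⟨d, hd⟩ : ∃ d, d = f / h := ⟨_, rfl⟩
  rw [← hd, hh] at e1
  refine ⟨c0, B9b_co (P.map (algebraMap O K)) P.natDegree (β * d), ?_⟩
  rw [← B9b_key P Q hP, ← map_smul, ← map_add, ← hfc]
  have hfe : f = P.map (algebraMap O K) * (α * d) +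
      (c0 • (1 : K[X]) + Q.map (algebraMap O K) * (β * d)) := by
    rw [e1, smul_eq_C_mul]
    ring
  conv_lhs => rw [hfe, map_add, B9b_co_mul _ hPm, zero_add]

end Pool.Agent.LibMF6
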