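import Pool.Agent.LibMF6.CDefs
import Pool.Agent.LibMF6.A1
import Pool.Agent.LibMF6.B2b

set_option autoImplicit false

/-! ROW B9c (MEDIUM, BDefs, B2b). G ≠ 0 and q is a nonzerodivisor for Weierstrass data over a domain R. O = OR R n, P = PO P', Q = QO φ = φ - Y.
 bs' = basis x^i of AdjoinRoot P' over A1 = SR R n, L' = leftMulMatrix of mk φ; the multiplication matrix of mk Q over O is (L'.map iot) - Y 1 (entries are coefficients of (x^j Q) %ₘ P; map_modByMonic), so GG P Q = det(L'.map iot - Y) = (-1)^m (charpoly L').map iot evaluated at Y.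
 e = finSuccEquiv R (n+1): e(iot h) = PowerSeries.C h (fs_C), e(Y) = PowerSeries.X: e(GG) = (-1)^m (charpoly L' as a power series) ≠ 0 (monic polynomial, A1 nontrivial; Polynomial.coe injective).
 q z = 0 ⇒ (det) z = 0 by the adjugate, O a domain (MvPowerSeries over a domain), AdjoinRoot P free over O: z = 0. -/

namespace Pool.Agent.LibMF6

open Polynomial

private theorem B9c_basis {O : Type*} [CommRing O] (P : O[X]) (hP : P.Monic) (m : ℕ) (hm : P.natDegree = m) :
    ∃ b : Module.Basis (Fin m) O (AdjoinRoot P), (∀ (f : O[X]) (i : Fin m), b.repr (AdjoinRoot.mk P f) i = (f %ₘ P).coeff i) ∧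
      ∀ i : Fin m, b i = AdjoinRoot.mk P (X ^ (i : ℕ)) := by
  subst hm
  have h1 : ∀ (f : O[X]) (i : Fin P.natDegree),
      (AdjoinRoot.powerBasisAux' hP).repr (AdjoinRoot.mk P f) i = (f %ₘ P).coeff i := by
    intro f i
    rw [AdjoinRoot.powerBasisAux'_repr_apply_to_fun, AdjoinRoot.modByMonicHom_mk]
  refine ⟨AdjoinRoot.powerBasisAux' hP, h1, fun i => ?_⟩
  apply (AdjoinRoot.powerBasisAux' hP).repr.injective
  ext j
  rw [h1, Module.Basis.repr_self]
  rcases subsingleton_or_nontrivial O with hO | hO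
  · exact Subsingleton.elim _ _
  have h2 : (X ^ (i : ℕ) : O[X]) %ₘ P = X ^ (i : ℕ) := by
    rw [Polynomial.modByMonic_eq_self_iff hP, Polynomial.degree_X_pow, Polynomial.degree_eq_natDegree hP.ne_zero]
    exact_mod_cast i.2
  rw [h2, Polynomial.coeff_X_pow, Finsupp.single_apply]
  by_cases h : i = j
  · rw [if_pos h, if_pos (by rw [h])]
  · rw [if_neg h, if_neg (fun h' => h (Fin.ext h'.symm))]

private theorem B9c_matrix {R : Type*} [CommRing R] [IsDomain R] {n : ℕ} (P' φ : (SR R n)[X]) (hP' : P'.Monic) :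
    ∃ (b : Module.Basis (Fin P'.natDegree) (OR R n) (AdjoinRoot (PO P')))
      (L : Matrix (Fin P'.natDegree) (Fin P'.natDegree) (SR R n)),
      Algebra.leftMulMatrix b (AdjoinRoot.mk (PO P') (QO φ)) =
        L.map (iot : SR R n →ₐ[R] OR R n).toRingHom - Matrix.scalar _ (MvPowerSeries.X 0) := by
  have hPO := PO_monic P' hP'
  have hdeg : (PO P').natDegree = P'.natDegree := hP'.natDegree_map _
  obtain ⟨b', hb'1, hb'2⟩ := B9c_basis P' hP' _ rfl
  obtain ⟨b, hb1, hb2⟩ := B9c_basis (PO P') hPO _ hdeg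
  refine ⟨b, Algebra.leftMulMatrix b' (AdjoinRoot.mk P' φ), ?_⟩
  ext i j
  rw [Algebra.leftMulMatrix_eq_repr_mul, hb2, ← map_mul, hb1, Matrix.sub_apply, Matrix.map_apply,
    Algebra.leftMulMatrix_eq_repr_mul, hb'2, ← map_mul, hb'1]
  have h1 : QO φ * X ^ (j : ℕ) = (φ * X ^ (j : ℕ)).map (iot : SR R n →ₐ[R] OR R n).toRingHom -
      C (MvPowerSeries.X 0) * X ^ (j : ℕ) := by
    unfold QO
    rw [Polynomial.map_mul, Polynomial.map_pow, Polynomial.map_X, sub_mul]
  have h2 : (C (MvPowerSeries.X 0 : OR R n) * X ^ (j : ℕ)) %ₘ PO P' = C (MvPowerSeries.X 0 : OR R n) * X ^ (j : ℕ) := by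
    rw [Polynomial.modByMonic_eq_self_iff hPO, Polynomial.degree_eq_natDegree hPO.ne_zero, hdeg]
    refine (Polynomial.degree_C_mul_X_pow_le _ _).trans_lt ?_
    exact_mod_cast j.2
  rw [h1, Polynomial.sub_modByMonic, h2]
  have h3 : (φ * X ^ (j : ℕ)).map (iot : SR R n →ₐ[R] OR R n).toRingHom %ₘ PO P' =
      ((φ * X ^ (j : ℕ)) %ₘ P').map (iot : SR R n →ₐ[R] OR R n).toRingHom := by
    unfold PO
    rw [Polynomial.map_modByMonic _ hP']
  rw [h3, Polynomial.coeff_sub, Polynomial.coeff_map, Polynomial.coeff_C_mul_X_pow]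
  congr 1
  rw [Matrix.scalar_apply, Matrix.diagonal_apply]
  by_cases h : i = j
  · rw [if_pos h, if_pos (by rw [h])]
  · rw [if_neg h, if_neg (fun h' => h (Fin.ext h'))]

theorem GG_ne_zero {R : Type*} [CommRing R] [IsDomain R] {n : ℕ} (P' φ : (SR R n)[X]) (hP' : P'.Monic) :
    GG (PO P') (QO φ) ≠ 0 := by
  obtain ⟨b, L, hL⟩ := B9c_matrix P' φ hP'
  intro h0
  unfold GG at h0
  rw [Algebra.norm_eq_matrix_det b, hL] at h0
  have h1 : (Matrix.scalar (Fin P'.natDegree) (MvPowerSeries.X 0 : OR R n) -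
      L.map (iot : SR R n →ₐ[R] OR R n).toRingHom).det = 0 := by
    rw [← neg_sub, Matrix.det_neg, h0, mul_zero]
  rw [← Matrix.eval_charpoly, Matrix.charpoly_map, Polynomial.eval_map] at h1
  have h2 := congrArg (MvPowerSeries.finSuccEquiv R (n + 1)) h1
  have h3 := fs_poly (R := R) (p := n + 1) L.charpoly
  rw [map_zero] at h2
  have h4 : (L.charpoly : PowerSeries (MvPowerSeries (Fin (n + 1)) R)) = 0 := h3.symm.trans h2
  rw [Polynomial.coe_eq_zero_iff] at h4
  exact (Matrix.charpoly_monic L).ne_zero h4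

theorem q_regular {R : Type*} [CommRing R] [IsDomain R] {n : ℕ} (P' φ : (SR R n)[X]) (hP' : P'.Monic)
    (z : AdjoinRoot (PO P')) (hz : AdjoinRoot.mk (PO P') (QO φ) * z = 0) : z = 0 := by
  obtain ⟨b, L, hL⟩ := B9c_matrix P' φ hP'
  have h0 := GG_ne_zero P' φ hP'
  unfold GG at h0
  rw [Algebra.norm_eq_matrix_det b] at h0
  have h1 : Matrix.mulVec (Algebra.leftMulMatrix b (AdjoinRoot.mk (PO P') (QO φ))) (b.repr z) = 0 := by
    rw [Algebra.leftMulMatrix_mulVec_repr, hz, map_zero]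
    rfl
  have h2 := Matrix.eq_zero_of_mulVec_eq_zero h0 h1
  apply b.repr.injective
  rw [map_zero]
  exact DFunLike.coe_injective h2

end Pool.Agent.LibMF6
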