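import Pool.Agent.LibMF6.A2
import Pool.Agent.LibMF6.B9a
import Pool.Agent.LibMF6.B9b
import Pool.Agent.LibMF6.B9c

set_option autoImplicit false

/-! ROW B9 (MEDIUM, A2, B9a, B9b, B9c). The reduced equation of the image is a unit times GG. O = OR (PowerSeries k) n, S = SR (PowerSeries k) n (both domains), P = PO P', Q = QO φ, B = AdjoinRoot P, FF : O → S, evO : O[x] → S with kernel (P, Q) (hker).
 G generates ker FF (hG), G prime: S domain, G ≠ 0 because GG ∈ ker FF (q r = GG in B, evO kills q: evO(C GG) = 0) and GG ≠ 0 (B9c). GG = G c. In B: G ∈ q B (evO (C G) = 0, hker): G = q t. q r = GG = G c = q t c, q nonzerodivisor: r = c t.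
 Norm: G^m = N(G) = N(q) N(t) = G c N(t) (Algebra.norm_algebraMap, map_mul; finrank of B over O is m = natDegree P), so G^(m-1) = c N(t) (O domain), c ∣ G^(m-1), G prime: c = unit * G^i (Prime.. dvd_prime_pow). If i = 0: c unit, ε := c⁻¹, G = ε GG. If i ≥ 1: G ∣ c, r = c t.
   K := FractionRing (O ⧸ Ideal.span {G}) (G prime), ψ = algebraMap O K: ψ x = 0 ↔ G ∣ x; hfrac: IsFractionRing. ψ of all coefficients of r is 0. h := gcd (P.map ψ) (Q.map ψ) (EuclideanDomain.gcd, P.map ψ ≠ 0), P1, Q1 coprime (EuclideanDomain.gcd / isCoprime_div_gcd_div_gcd).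
   two_le: 2 ≤ natDegree h. strata (with D j = MvPowerSeries.pderiv (PowerSeries k) j): lam ≠ 0 zero on WN. hst: s^e v ∈ WN for all v: ψ(s)^e lam(v) = 0 for all v, so ψ(s) = 0, G ∣ s, FF(s) = 0; but FF (C X) = C X ≠ 0 (algebra hom over PowerSeries k). Contradiction. -/

namespace Pool.Agent.LibMF6

open Polynomial

theorem B9_r {O : Type*} [CommRing O] [IsDomain O] (P Q : O[X]) (hP : P.Monic) (hm : 0 < P.natDegree)
    (G c : O) (hGp : Prime G) (r t : AdjoinRoot P) (hc : GG P Q = G * c)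
    (hr : AdjoinRoot.mk P Q * r = algebraMap O (AdjoinRoot P) (GG P Q))
    (ht : AdjoinRoot.mk P Q * t = algebraMap O (AdjoinRoot P) G)
    (hq : ∀ z : AdjoinRoot P, AdjoinRoot.mk P Q * z = 0 → z = 0) :
    IsUnit c ∨ (G ∣ c ∧ r = c • t) := by
  have h1 : r = c • t := by
    have h2 : AdjoinRoot.mk P Q * (r - c • t) = 0 := by
      rw [mul_sub, hr, Algebra.smul_def, ← mul_assoc, mul_comm (AdjoinRoot.mk P Q), mul_assoc, ht,
        ← map_mul, hc, mul_comm c, sub_self]
    exact sub_eq_zero.1 (hq _ h2)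
  have hn : G ^ P.natDegree = G * c * Algebra.norm O t := by
    have h3 : Algebra.norm O (AdjoinRoot.mk P Q * t) = Algebra.norm O (algebraMap O (AdjoinRoot P) G) := by
      rw [ht]
    rw [map_mul, Algebra.norm_algebraMap_of_basis (AdjoinRoot.powerBasis' hP).basis] at h3
    rw [← hc]
    refine Eq.trans ?_ h3.symm
    rw [Fintype.card_fin]
    rfl
  have h4 : c ∣ G ^ (P.natDegree - 1) := by
    refine ⟨Algebra.norm O t, mul_left_cancel₀ hGp.ne_zero ?_⟩
    rw [← mul_assoc, ← hn, ← pow_succ']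
    congr 1
    omega
  obtain ⟨i, hi, h5⟩ := (dvd_prime_pow hGp _).1 h4
  rcases Nat.eq_zero_or_pos i with h6 | h6
  · left
    rw [h6, pow_zero] at h5
    exact associated_one_iff_isUnit.1 h5
  · right
    exact ⟨(dvd_pow_self G h6.ne').trans h5.symm.dvd, h1⟩

theorem B9_fin {R O : Type*} [CommRing R] [CommRing O] [IsDomain O] [Algebra R O] {N : ℕ} (P Q : O[X])
    (hP : P.Monic) (hm : 0 < P.natDegree) (D : Fin N → Derivation R O O) (l : Fin N → O) (G : O)
    {K : Type*} [Field K] [Algebra O K] (hker : ∀ x, algebraMap O K x = 0 ↔ G ∣ x)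
    (hfrac : ∀ c : K, ∃ u d : O, algebraMap O K d ≠ 0 ∧ c * algebraMap O K d = algebraMap O K u)
    (r : AdjoinRoot P) (hr : AdjoinRoot.mk P Q * r = algebraMap O (AdjoinRoot P) (GG P Q))
    (hq : ∀ z : AdjoinRoot P, AdjoinRoot.mk P Q * z = 0 → z = 0)
    (hG : algebraMap O K (GG P Q) = 0)
    (hr0 : ∀ i, algebraMap O K ((AdjoinRoot.modByMonicHom hP r).coeff i) = 0)
    (s : O) (e : ℕ) (hst : ∀ v : VV P, s ^ e • v ∈ WN P Q hP (fun j => (D j : O → O)) l)
    (hs : algebraMap O K s ≠ 0) : False := by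
  classical
  have hPm : (P.map (algebraMap O K)).Monic := hP.map _
  have hcop := (isCoprime_div_gcd_div_gcd (p := Q.map (algebraMap O K)) hPm.ne_zero).symm
  set h : K[X] := GCDMonoid.gcd (Q.map (algebraMap O K)) (P.map (algebraMap O K)) with hh
  have hh0 : h ≠ 0 := by
    rw [hh, Ne, gcd_eq_zero_iff, not_and_or]
    exact Or.inr hPm.ne_zero
  have hPh : P.map (algebraMap O K) = h * (P.map (algebraMap O K) / h) :=
    (EuclideanDomain.mul_div_cancel' hh0 (gcd_dvd_right _ _)).symm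
  have hQh : Q.map (algebraMap O K) = h * (Q.map (algebraMap O K) / h) :=
    (EuclideanDomain.mul_div_cancel' hh0 (gcd_dvd_left _ _)).symm
  have h2 := two_le P Q hP hm r hr hq hG hr0 h _ _ hPh hQh hcop
  obtain ⟨lam, hlam, hW⟩ := strata P Q hP hm D l G hker hfrac h _ _ hPh hQh hcop h2
  refine hlam (LinearMap.ext fun v => ?_)
  have h3 := hW _ (hst v)
  rw [map_smul, Algebra.smul_def, map_pow] at h3
  exact (mul_eq_zero.1 h3).resolve_left (pow_ne_zero _ hs)

theorem G_gen (k : Type) [Field k] {n : ℕ} (a b : SR (PowerSeries k) n) (ha : MvPowerSeries.constantCoeff a = 0)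
    (hb : MvPowerSeries.constantCoeff b = 0) (P' φ : (SR (PowerSeries k) n)[X]) (hW : Weier a b ha P' φ)
    (hker : ∀ H, evO a b ha hb H = 0 ↔ H ∈ Ideal.span {PO P', QO φ}) (l : Fin (n + 2) → OR (PowerSeries k) n)
    (e : ℕ) (hst : ∀ v : VV (PO P'), (sO k (n + 2)) ^ e • v ∈ WN (PO P') (QO φ) (PO_monic P' hW.monic) dO l)
    (G : OR (PowerSeries k) n) (hG : ∀ h, FF a b ha hb h = 0 ↔ G ∣ h) :
    ∃ ε : (OR (PowerSeries k) n)ˣ, G = ε * GG (PO P') (QO φ) := by
  have hdom : IsDomain (OR (PowerSeries k) n) := NoZeroDivisors.to_isDomain _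
  have hmon : (PO P').Monic := PO_monic P' hW.monic
  have hm : 0 < (PO P').natDegree := by
    have h1 : (PO P').natDegree = P'.natDegree := hW.monic.natDegree_map _
    rw [h1]
    exact hW.pos
  have hevC : ∀ z : OR (PowerSeries k) n, evO a b ha hb (C z) = FF a b ha hb z := by
    intro z
    simp [evO]
  have hq := q_regular P' φ hW.monic
  have hGG0 : GG (PO P') (QO φ) ≠ 0 := GG_ne_zero P' φ hW.monic
  obtain ⟨r, hr, -⟩ := exists_adj (R := PowerSeries k) (PO P') (QO φ) hmon hm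
  -- kernel of `FF` and multiples of `q`
  have hmul : ∀ z : OR (PowerSeries k) n, FF a b ha hb z = 0 ↔
      ∃ t : AdjoinRoot (PO P'), AdjoinRoot.mk (PO P') (QO φ) * t = algebraMap _ (AdjoinRoot (PO P')) z := by
    intro z
    rw [← hevC, hker, Ideal.mem_span_pair]
    constructor
    · rintro ⟨u, w, h1⟩
      refine ⟨AdjoinRoot.mk _ w, ?_⟩
      rw [AdjoinRoot.algebraMap_eq, ← AdjoinRoot.mk_C, ← h1, map_add, map_mul, map_mul, AdjoinRoot.mk_self,
        mul_zero, zero_add, mul_comm]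
    · rintro ⟨t, h1⟩
      obtain ⟨w, rfl⟩ := AdjoinRoot.mk_surjective t
      rw [AdjoinRoot.algebraMap_eq, ← AdjoinRoot.mk_C, ← map_mul, eq_comm, AdjoinRoot.mk_eq_mk] at h1
      obtain ⟨u, h2⟩ := h1
      refine ⟨u, w, ?_⟩
      rw [mul_comm u, ← h2]
      ring
  obtain ⟨c, hc⟩ := (hG _).1 ((hmul _).2 ⟨r, hr⟩)
  obtain ⟨t, ht⟩ := (hmul G).1 ((hG G).2 dvd_rfl)
  have hG0 : G ≠ 0 := by
    rintro rfl
    exact hGG0 (by rw [hc, zero_mul])
  have hGp : Prime G := by
    refine ⟨hG0, ?_, ?_⟩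
    · intro hu
      have h1 : FF a b ha hb 1 = 0 := (hG 1).2 hu.dvd
      rw [map_one] at h1
      exact one_ne_zero h1
    · intro x y hxy
      have h1 := (hG _).2 hxy
      rw [map_mul] at h1
      rcases mul_eq_zero.1 h1 with h2 | h2
      · exact Or.inl ((hG _).1 h2)
      · exact Or.inr ((hG _).1 h2)
  rcases B9_r (PO P') (QO φ) hmon hm G c hGp r t hc hr ht hq with hcu | ⟨hGc, hrt⟩
  · obtain ⟨u, hu⟩ := hcu
    refine ⟨u⁻¹, ?_⟩
    rw [hc, ← hu, mul_comm G, ← mul_assoc, Units.inv_mul, one_mul]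
  exfalso
  have hprime : (Ideal.span {G}).IsPrime := (Ideal.span_singleton_prime hG0).2 hGp
  let algK : Algebra (OR (PowerSeries k) n) (FractionRing (OR (PowerSeries k) n ⧸ Ideal.span {G})) :=
    ((algebraMap (OR (PowerSeries k) n ⧸ Ideal.span {G})
      (FractionRing (OR (PowerSeries k) n ⧸ Ideal.span {G}))).comp (Ideal.Quotient.mk (Ideal.span {G}))).toAlgebra
  have hψ : ∀ x : OR (PowerSeries k) n, algebraMap (OR (PowerSeries k) n)
      (FractionRing (OR (PowerSeries k) n ⧸ Ideal.span {G})) x =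
      algebraMap (OR (PowerSeries k) n ⧸ Ideal.span {G})
      (FractionRing (OR (PowerSeries k) n ⧸ Ideal.span {G})) (Ideal.Quotient.mk (Ideal.span {G}) x) :=
    fun x => rfl
  have hkerK : ∀ x : OR (PowerSeries k) n, algebraMap (OR (PowerSeries k) n)
      (FractionRing (OR (PowerSeries k) n ⧸ Ideal.span {G})) x = 0 ↔ G ∣ x := by
    intro x
    rw [hψ, FaithfulSMul.algebraMap_eq_zero_iff, Ideal.Quotient.eq_zero_iff_mem, Ideal.mem_span_singleton]
  have hfrac : ∀ c : FractionRing (OR (PowerSeries k) n ⧸ Ideal.span {G}), ∃ u d : OR (PowerSeries k) n,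
      algebraMap (OR (PowerSeries k) n) (FractionRing (OR (PowerSeries k) n ⧸ Ideal.span {G})) d ≠ 0 ∧
      c * algebraMap (OR (PowerSeries k) n) (FractionRing (OR (PowerSeries k) n ⧸ Ideal.span {G})) d =
      algebraMap (OR (PowerSeries k) n) (FractionRing (OR (PowerSeries k) n ⧸ Ideal.span {G})) u := by
    intro c
    obtain ⟨u, d, hd, h1⟩ := IsFractionRing.div_surjective (A := OR (PowerSeries k) n ⧸ Ideal.span {G}) c
    obtain ⟨u', rfl⟩ := Ideal.Quotient.mk_surjective u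
    obtain ⟨d', rfl⟩ := Ideal.Quotient.mk_surjective d
    have h2 : algebraMap (OR (PowerSeries k) n ⧸ Ideal.span {G})
      (FractionRing (OR (PowerSeries k) n ⧸ Ideal.span {G})) (Ideal.Quotient.mk (Ideal.span {G}) d') ≠ 0 := by
      rw [Ne, FaithfulSMul.algebraMap_eq_zero_iff]
      exact nonZeroDivisors.ne_zero hd
    refine ⟨u', d', h2, ?_⟩
    rw [hψ, hψ, ← h1, div_mul_cancel₀ _ h2]
  exact B9_fin (PO P') (QO φ) hmon hm
    (fun j => MvPowerSeries.pderiv (PowerSeries k) j) l G hkerK hfrac r hr hq (by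
      rw [hkerK, hc]
      exact dvd_mul_right _ _) (by
      intro i
      rw [hkerK, hrt, map_smul, Polynomial.coeff_smul, smul_eq_mul]
      exact hGc.mul_right _) (sO k (n + 2)) e hst (by
      rw [Ne, hkerK, ← hG]
      intro h1
      have h2 : FF a b ha hb (algebraMap (PowerSeries k) (OR (PowerSeries k) n) PowerSeries.X) = 0 := h1
      rw [AlgHom.commutes, MvPowerSeries.algebraMap_apply] at h2
      exact PowerSeries.X_ne_zero (MvPowerSeries.C_injective (h2.trans (map_zero _).symm)))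

end Pool.Agent.LibMF6
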