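import Pool.Agent.LibMF6.B10

set_option autoImplicit false

/-! `s, y_1, .., y_N` is weakly regular on `k[[s]][[y]]`. -/

namespace Pool.Agent.LibMF6

theorem weakly_reg (k : Type*) [Field k] (N : ℕ) :
    RingTheory.Sequence.IsWeaklyRegular (MvPowerSeries (Fin N) (PowerSeries k))
      (sO k N :: List.ofFn fun i : Fin N => (MvPowerSeries.X i : MvPowerSeries (Fin N) (PowerSeries k))) := by
  constructor
  intro i hi
  rw [isSMulRegular_on_quot_iff_lsmul_comap_le]
  intro a ha
  rw [Submodule.mem_comap, LinearMap.lsmul_apply, smul_eq_mul, smul_eq_mul, Ideal.mul_top] at ha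
  rw [smul_eq_mul, Ideal.mul_top]
  cases i with
  | zero =>
    rw [List.take_zero, Ideal.ofList_nil] at ha ⊢
    rw [Ideal.mem_bot] at ha ⊢
    exact reg_s k N a ha
  | succ j =>
    have hj : j < N := by simpa using hi
    have hspan : Ideal.ofList (List.take (j + 1) (sO k N :: List.ofFn fun i : Fin N =>
        (MvPowerSeries.X i : MvPowerSeries (Fin N) (PowerSeries k)))) =
        Ideal.span (insert (sO k N) {z | ∃ i : Fin N, i.val < j ∧ z = MvPowerSeries.X i}) := by
      rw [List.take_succ_cons]
      show Ideal.span _ = Ideal.span _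
      congr 1
      ext z
      simp only [List.mem_cons, Set.mem_insert_iff, Set.mem_ofPred_eq]
      refine or_congr Iff.rfl ?_
      constructor
      · intro h
        rw [List.mem_take_iff_getElem] at h
        obtain ⟨m, hm, h2⟩ := h
        have hm1 : m < j := lt_of_lt_of_le hm (min_le_left _ _)
        refine ⟨⟨m, lt_trans hm1 hj⟩, hm1, ?_⟩
        rw [← h2, List.getElem_ofFn]
      · rintro ⟨m, hm, rfl⟩
        rw [List.mem_take_iff_getElem]
        refine ⟨m.val, ?_, ?_⟩
        · rw [List.length_ofFn]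
          exact lt_min hm m.isLt
        · rw [List.getElem_ofFn]
    rw [hspan] at ha ⊢
    have ha' : (MvPowerSeries.X (⟨j, hj⟩ : Fin N) : MvPowerSeries (Fin N) (PowerSeries k)) * a ∈
        Ideal.span (insert (sO k N) {z | ∃ i : Fin N, i.val < (⟨j, hj⟩ : Fin N).val ∧ z = MvPowerSeries.X i}) := by
      rw [List.getElem_cons_succ, List.getElem_ofFn] at ha
      exact ha
    exact reg_y k N ⟨j, hj⟩ a ha'

end Pool.Agent.LibMF6
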