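import Pool.Agent.LibMF6.A1
import Pool.Agent.LibMC34.Defs

set_option autoImplicit false

/-! ROW GB (MEDIUM, A1, LibMC34.Defs: T m = Fin 3 × Fin m, relv, rels). Gram bridge. m = natDegree P.
 Θ v (c, i) := τ(v_c * x^i) (x = root). Linear equivalence: inverse f ↦ (∑_i f(c,i) c_i) with the dual basis c_i (exists_dual).
 With w = ![Q, P', Q'] : for z in B: Θ(z w_c e_a - z w_a e_c) = ∑_(l<m) τ(z x^l) relv m P w a c l: entry (a,i): τ(z w_c x^i) = ∑_l τ(z x^l) coeff_l(x^i w_c %ₘ P) (mk(x^i w_c) = ∑_l coeff_l(x^i w_c %ₘ P) x^l), the same for (c,i) with minus; other entries 0 (a = c: both sides 0).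
   With z = c_l (dual basis): relv m P w a c l = Θ(c_l w_c e_a - c_l w_a e_c). K1 = w_0 e_1 - w_1 e_0, K2 = w_0 e_2 - w_2 e_0, K3 = w_1 e_2 - w_2 e_1. So Θ(span of the b K_i) = span of the relv.
 ker τ = span of x^i, i < m - 1 (coordinates). g : Fin (N + (m-1)) → .. := Fin.append / Fin.addCases: first N: Θ(wv j), last m-1: Θ(e0 x^i). Then map Θ WM = span (range (rels m v P w g)). -/

namespace Pool.Agent.LibMF6

open Polynomial

section

variable {A : Type} [CommRing A] (P Q : A[X])

private theorem GB_mk (hP : P.Monic) (hm : 0 < P.natDegree) (f : A[X]) :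
    AdjoinRoot.mk P f = ∑ l : Fin P.natDegree, (f %ₘ P).coeff l • AdjoinRoot.root P ^ (l : ℕ) := by
  rcases subsingleton_or_nontrivial A with hA | hA
  · rw [natDegree_of_subsingleton] at hm
    exact absurd hm (lt_irrefl 0)
  have h1 : AdjoinRoot.mk P f = AdjoinRoot.mk P (f %ₘ P) := by
    rw [← sub_eq_zero, ← map_sub, AdjoinRoot.mk_eq_zero, modByMonic_eq_sub_mul_div, sub_sub_cancel]
    exact dvd_mul_right _ _
  have hdeg : (f %ₘ P).natDegree < P.natDegree := by
    refine natDegree_modByMonic_lt f hP ?_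
    rintro rfl
    simp at hm
  rw [h1]
  conv_lhs => rw [as_sum_range' (f %ₘ P) P.natDegree hdeg]
  rw [map_sum, Finset.sum_range (n := P.natDegree)]
  refine Finset.sum_congr rfl (fun l _ => ?_)
  rw [← C_mul_X_pow_eq_monomial, map_mul, map_pow, AdjoinRoot.mk_X, AdjoinRoot.mk_C, Algebra.smul_def]
  rfl

/-- the three polynomials -/
private noncomputable def GB_w : Fin 3 → A[X] := ![Q, derivative P, derivative Q]

/-- Koszul vectors -/
private noncomputable def GB_kv (a c : Fin 3) (z : AdjoinRoot P) : VV P :=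
  Pi.single a (z * AdjoinRoot.mk P (GB_w P Q c)) - Pi.single c (z * AdjoinRoot.mk P (GB_w P Q a))

private theorem GB_kv_mem (hP : P.Monic) (a c : Fin 3) (z : AdjoinRoot P) : GB_kv P Q a c z ∈ W0 P Q hP := by
  have h1 : ∀ z : AdjoinRoot P, GB_kv P Q 1 0 z ∈ W0 P Q hP := by
    intro z
    refine Submodule.subset_span (Or.inl ⟨z, ?_⟩)
    funext i
    fin_cases i <;> simp [GB_kv, GB_w, K1]
  have h2 : ∀ z : AdjoinRoot P, GB_kv P Q 2 0 z ∈ W0 P Q hP := by
    intro z
    refine Submodule.subset_span (Or.inr (Or.inl ⟨z, ?_⟩))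
    funext i
    fin_cases i <;> simp [GB_kv, GB_w, K2]
  have h3 : ∀ z : AdjoinRoot P, GB_kv P Q 2 1 z ∈ W0 P Q hP := by
    intro z
    refine Submodule.subset_span (Or.inr (Or.inr (Or.inl ⟨z, ?_⟩)))
    funext i
    fin_cases i <;> simp [GB_kv, GB_w, K3]
  have hneg : ∀ a c : Fin 3, GB_kv P Q a c z = - GB_kv P Q c a z := by
    intro a c
    unfold GB_kv
    rw [neg_sub]
  have h0 : ∀ a : Fin 3, GB_kv P Q a a z = 0 := by
    intro a
    unfold GB_kv
    rw [sub_self]
  fin_cases a <;> fin_cases c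
  · exact (h0 0).symm ▸ Submodule.zero_mem _
  · exact (hneg 0 1).symm ▸ Submodule.neg_mem _ (h1 z)
  · exact (hneg 0 2).symm ▸ Submodule.neg_mem _ (h2 z)
  · exact h1 z
  · exact (h0 1).symm ▸ Submodule.zero_mem _
  · exact (hneg 1 2).symm ▸ Submodule.neg_mem _ (h3 z)
  · exact h2 z
  · exact h3 z
  · exact (h0 2).symm ▸ Submodule.zero_mem _

end

theorem gram {A : Type} [CommRing A] (P Q : A[X]) (hP : P.Monic) (hm : 0 < P.natDegree) {N : ℕ} (d : Fin N → A → A)
    (l : Fin N → A) :
    ∃ (g : Fin (N + (P.natDegree - 1)) → Pool.Agent.LibMC34.T P.natDegree → A)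
      (Θ : VV P ≃ₗ[A] (Pool.Agent.LibMC34.T P.natDegree → A)),
      Submodule.map (Θ : VV P →ₗ[A] (Pool.Agent.LibMC34.T P.natDegree → A)) (WM P Q hP d l) =
        Submodule.span A (Set.range (Pool.Agent.LibMC34.rels P.natDegree (N + (P.natDegree - 1)) P
          ![Q, derivative P, derivative Q] g)) := by
  classical
  obtain ⟨c, hc1, hc2, hc3, -⟩ := exists_dual P hP hm
  let Θ : VV P ≃ₗ[A] (Pool.Agent.LibMC34.T P.natDegree → A) :=
    { toFun := fun v x => tau P hP (v x.1 * AdjoinRoot.root P ^ (x.2 : ℕ))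
      map_add' := fun v w => by
        funext x
        rw [Pi.add_apply, Pi.add_apply, add_mul, map_add]
      map_smul' := fun r v => by
        funext x
        rw [Pi.smul_apply, Pi.smul_apply, RingHom.id_apply, smul_mul_assoc, map_smul]
      invFun := fun f a => ∑ i : Fin P.natDegree, f (a, i) • c i
      left_inv := fun v => by
        funext a
        conv_rhs => rw [hc3 (v a), Finset.sum_range (n := P.natDegree)]
      right_inv := fun f => by
        funext x
        change tau P hP ((∑ i : Fin P.natDegree, f (x.1, i) • c i) * AdjoinRoot.root P ^ (x.2 : ℕ)) = f x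
        rw [Finset.sum_mul, map_sum, Finset.sum_eq_single x.2]
        · rw [smul_mul_assoc, map_smul, mul_comm, hc1 _ _ x.2.isLt x.2.isLt, if_pos rfl, smul_eq_mul, mul_one]
        · intro j _ hj
          rw [smul_mul_assoc, map_smul, mul_comm, hc1 _ _ x.2.isLt j.isLt, if_neg, smul_zero]
          intro h1
          exact hj (Fin.ext h1.symm)
        · intro h1
          exact absurd (Finset.mem_univ _) h1 }
  have hΘ : ∀ (v : VV P) (x : Pool.Agent.LibMC34.T P.natDegree),
      Θ v x = tau P hP (v x.1 * AdjoinRoot.root P ^ (x.2 : ℕ)) := fun _ _ => rfl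
  -- the image of a Koszul vector
  have hkv : ∀ (a b : Fin 3) (z : AdjoinRoot P), Θ (GB_kv P Q a b z) = ∑ l' : Fin P.natDegree,
      tau P hP (z * AdjoinRoot.root P ^ (l' : ℕ)) •
        Pool.Agent.LibMC34.relv P.natDegree P ![Q, derivative P, derivative Q] a b (l' : ℕ) := by
    intro a b z
    have hw : ∀ (e : Fin 3) (i : ℕ), tau P hP (z * AdjoinRoot.mk P (GB_w P Q e) * AdjoinRoot.root P ^ i) =
        ∑ l' : Fin P.natDegree, tau P hP (z * AdjoinRoot.root P ^ (l' : ℕ)) *
          ((X ^ i * (![Q, derivative P, derivative Q] : Fin 3 → A[X]) e) %ₘ P).coeff l' := by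
      intro e i
      have h1 : z * AdjoinRoot.mk P (GB_w P Q e) * AdjoinRoot.root P ^ i =
          z * AdjoinRoot.mk P (X ^ i * (![Q, derivative P, derivative Q] : Fin 3 → A[X]) e) := by
        rw [map_mul, map_pow, AdjoinRoot.mk_X]
        unfold GB_w
        ring
      rw [h1, GB_mk P hP hm, Finset.mul_sum, map_sum]
      refine Finset.sum_congr rfl (fun l' _ => ?_)
      rw [mul_smul_comm, map_smul, smul_eq_mul, mul_comm]
    funext x
    rw [hΘ]
    unfold GB_kv
    rw [Pi.sub_apply, sub_mul, map_sub, Finset.sum_apply]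
    have h2 : ∀ (a b : Fin 3), tau P hP ((Pi.single a (z * AdjoinRoot.mk P (GB_w P Q b)) : VV P) x.1 *
        AdjoinRoot.root P ^ (x.2 : ℕ)) = ∑ l' : Fin P.natDegree, tau P hP (z * AdjoinRoot.root P ^ (l' : ℕ)) *
          (if x.1 = a then ((X ^ (x.2 : ℕ) * (![Q, derivative P, derivative Q] : Fin 3 → A[X]) b) %ₘ P).coeff l'
            else 0) := by
      intro a b
      by_cases h3 : x.1 = a
      · rw [← h3, Pi.single_eq_same, hw]
        refine Finset.sum_congr rfl (fun l' _ => ?_)
        rw [if_pos rfl]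
      · rw [Pi.single_eq_of_ne h3, zero_mul, map_zero]
        symm
        refine Finset.sum_eq_zero (fun l' _ => ?_)
        rw [if_neg h3, mul_zero]
    rw [h2 a b, h2 b a, ← Finset.sum_sub_distrib]
    refine Finset.sum_congr rfl (fun l' _ => ?_)
    rw [Pi.smul_apply, smul_eq_mul, ← mul_sub]
    rfl
  have hrel : ∀ (a b : Fin 3) (l' : Fin P.natDegree), Θ (GB_kv P Q a b (c l')) =
      Pool.Agent.LibMC34.relv P.natDegree P ![Q, derivative P, derivative Q] a b (l' : ℕ) := by
    intro a b l'
    rw [hkv, Finset.sum_eq_single l']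
    · rw [mul_comm, hc1 _ _ l'.isLt l'.isLt, if_pos rfl, one_smul]
    · intro j _ hj
      rw [mul_comm, hc1 _ _ j.isLt l'.isLt, if_neg, zero_smul]
      intro h1
      exact hj (Fin.ext h1)
    · intro h1
      exact absurd (Finset.mem_univ _) h1
  let g : Fin (N + (P.natDegree - 1)) → Pool.Agent.LibMC34.T P.natDegree → A :=
    Fin.append (fun j => Θ (wv P Q (d j) (l j))) (fun i => Θ (e0 P (AdjoinRoot.root P ^ (i : ℕ))))
  refine ⟨g, Θ, ?_⟩
  have he0 : ∀ b : AdjoinRoot P, tau P hP b = 0 → Θ (e0 P b) ∈ Submodule.span A (Set.range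
      (Pool.Agent.LibMC34.rels P.natDegree (N + (P.natDegree - 1)) P ![Q, derivative P, derivative Q] g)) := by
    intro b hb
    have h1 := hc2 b
    obtain ⟨m', hm'⟩ : ∃ m', P.natDegree = m' + 1 := ⟨P.natDegree - 1, by omega⟩
    have h2 : tau P hP (b * c m') = 0 := by
      have h3 := congrArg (tau P hP) h1
      rw [hb, map_sum, Finset.sum_eq_single m'] at h3
      · rw [map_smul, tau_root_pow P hP hm m' (by omega), if_pos (by omega), smul_eq_mul, mul_one] at h3
        exact h3.symm
      · intro j hj hjm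
        rw [map_smul, tau_root_pow P hP hm j (Finset.mem_range.mp hj), if_neg, smul_zero]
        rw [hm']
        exact fun h => hjm (by omega)
      · intro h4
        exact absurd (Finset.mem_range.mpr (by omega)) h4
    have h5 : e0 P b = ∑ j ∈ Finset.range m', tau P hP (b * c j) • e0 P (AdjoinRoot.root P ^ j) := by
      have h6 : b = ∑ j ∈ Finset.range m', tau P hP (b * c j) • AdjoinRoot.root P ^ j := by
        conv_lhs => rw [h1]
        rw [hm', Finset.sum_range_succ, h2, zero_smul, add_zero]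
      funext i
      rw [Finset.sum_apply]
      fin_cases i
      · exact h6
      · simp [e0]
      · simp [e0]
    rw [h5, map_sum]
    refine Submodule.sum_mem _ (fun j hj => ?_)
    rw [map_smul]
    refine Submodule.smul_mem _ _ (Submodule.subset_span ⟨Sum.inr (Fin.natAdd N ⟨j, by
      have := Finset.mem_range.mp hj
      omega⟩), ?_⟩)
    change g _ = _
    simp only [g]
    rw [Fin.append_right]
  refine le_antisymm ?_ ?_
  · unfold WM W0
    rw [Submodule.map_sup, sup_le_iff, Submodule.map_span_le, Submodule.map_span_le]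
    have hin : ∀ (a b : Fin 3) (z : AdjoinRoot P), Θ (GB_kv P Q a b z) ∈ Submodule.span A (Set.range
        (Pool.Agent.LibMC34.rels P.natDegree (N + (P.natDegree - 1)) P ![Q, derivative P, derivative Q] g)) := by
      intro a b z
      rw [hkv]
      exact Submodule.sum_mem _ (fun l' _ => Submodule.smul_mem _ _ (Submodule.subset_span ⟨Sum.inl (a, b, l'), rfl⟩))
    refine ⟨?_, ?_⟩
    · rintro v (⟨b, rfl⟩ | ⟨b, rfl⟩ | ⟨b, rfl⟩ | ⟨b, hb, rfl⟩)
      · have h1 : b • K1 P Q = GB_kv P Q 1 0 b := by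
          funext i
          fin_cases i <;> simp [GB_kv, GB_w, K1]
        rw [h1]
        exact hin 1 0 b
      · have h1 : b • K2 P Q = GB_kv P Q 2 0 b := by
          funext i
          fin_cases i <;> simp [GB_kv, GB_w, K2]
        rw [h1]
        exact hin 2 0 b
      · have h1 : b • K3 P Q = GB_kv P Q 2 1 b := by
          funext i
          fin_cases i <;> simp [GB_kv, GB_w, K3]
        rw [h1]
        exact hin 2 1 b
      · exact he0 b hb
    · rintro v ⟨j, rfl⟩
      refine Submodule.subset_span ⟨Sum.inr (Fin.castAdd (P.natDegree - 1) j), ?_⟩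
      change g _ = _
      simp only [g]
      rw [Fin.append_left]
      rfl
  · rw [Submodule.span_le]
    rintro y ⟨(x | i), rfl⟩
    · obtain ⟨a, b, l'⟩ := x
      exact ⟨GB_kv P Q a b (c l'), Submodule.mem_sup_left (GB_kv_mem P Q hP a b _), hrel a b l'⟩
    · change g i ∈ _
      refine Fin.addCases (fun j => ?_) (fun j => ?_) i
      · simp only [g]
        rw [Fin.append_left]
        exact ⟨_, Submodule.mem_sup_right (Submodule.subset_span ⟨j, rfl⟩), rfl⟩
      · simp only [g]
        rw [Fin.append_right]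
        refine ⟨_, Submodule.mem_sup_left (Submodule.subset_span (Or.inr (Or.inr (Or.inr ⟨_, ?_, rfl⟩)))), rfl⟩
        rw [tau_root_pow P hP hm j (by omega), if_neg (by omega)]

end Pool.Agent.LibMF6
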