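import Pool.Agent.LibMF6.F1
import Pool.Agent.LibMF6.GB
import Pool.Agent.LibMC34.Core

set_option autoImplicit false

/-! From the core theorem to: `s` is regular on `M`. -/

namespace Pool.Agent.LibMF6

open Polynomial

theorem s_reg (k : Type) [Field k] {N : ℕ} (hN : 2 ≤ N) (P Q : (MvPowerSeries (Fin N) (PowerSeries k))[X]) (hP : P.Monic)
    (hm : 0 < P.natDegree) (hQ : Q.degree < P.degree)
    (d : Fin N → MvPowerSeries (Fin N) (PowerSeries k) → MvPowerSeries (Fin N) (PowerSeries k))
    (l : Fin N → MvPowerSeries (Fin N) (PowerSeries k))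
    (h : ∀ i : Fin N, ∃ e : ℕ, ∀ v : VV P,
      ((MvPowerSeries.X i : MvPowerSeries (Fin N) (PowerSeries k)) ^ e) • v ∈ WM P Q hP d l ⊔ sTop P)
    (v : VV P) (hv : sO k N • v ∈ WM P Q hP d l) : v ∈ WM P Q hP d l := by
  obtain ⟨g, Θ, hΘ⟩ := gram P Q hP hm d l
  have hnt : Nontrivial (MvPowerSeries (Fin N) (PowerSeries k)) := inferInstance
  have hdeg : P.degree = (P.natDegree : WithBot ℕ) := Polynomial.degree_eq_natDegree hP.ne_zero
  have hw : ∀ c : Fin 3, ((![Q, derivative P, derivative Q] : Fin 3 → _) c).degree < (P.natDegree : WithBot ℕ) := by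
    intro c
    fin_cases c
    · show Q.degree < _
      rw [← hdeg]; exact hQ
    · show (derivative P).degree < _
      rw [← hdeg]; exact Polynomial.degree_derivative_lt hP.ne_zero
    · show (derivative Q).degree < _
      rw [← hdeg]; exact lt_of_le_of_lt (Polynomial.degree_derivative_le) hQ
  have key := Pool.Agent.LibMC34.core k P.natDegree (N + (P.natDegree - 1)) N hm hN (by omega) P hP rfl
    ![Q, derivative P, derivative Q] hw g (sO k N) (fun i => MvPowerSeries.X i) (weakly_reg k N)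
    (by
      intro i
      obtain ⟨e, he⟩ := h i
      refine ⟨e, fun y => ?_⟩
      obtain ⟨w, hw1, u, hu, hwu⟩ := Submodule.mem_sup.1 (he (Θ.symm y))
      obtain ⟨u', hu'⟩ := hu
      refine ⟨Θ u', ?_⟩
      rw [← hΘ]
      refine ⟨w, hw1, ?_⟩
      have h1 : w = (MvPowerSeries.X i : MvPowerSeries (Fin N) (PowerSeries k)) ^ e • Θ.symm y - sO k N • u' := by
        rw [← hwu, ← hu']
        simp
      rw [h1]
      simp [map_sub, map_smul])
  have h2 : Θ v ∈ Submodule.map (Θ : VV P →ₗ[MvPowerSeries (Fin N) (PowerSeries k)] (Pool.Agent.LibMC34.T P.natDegree → MvPowerSeries (Fin N) (PowerSeries k)))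
      (WM P Q hP d l) := by
    rw [hΘ]
    refine key (Θ v) ?_
    rw [← hΘ, ← map_smul]
    exact ⟨sO k N • v, hv, rfl⟩
  obtain ⟨v', hv', h3⟩ := h2
  have h4 : v' = v := Θ.injective h3
  rw [← h4]; exact hv'

end Pool.Agent.LibMF6
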