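import Pool.Agent.LibMF6.B2
import Pool.Agent.LibMF6.B3
import Pool.Agent.LibMF6.B6a
import Pool.Agent.LibMF6.B6b
import Pool.Agent.LibMF6.B7

set_option autoImplicit false

/-! Transfer of `T^1` to the module `VV P / WN`. -/

namespace Pool.Agent.LibMF6

open Polynomial

theorem T1_equiv {R : Type*} [CommRing R] {n : ℕ} (a b : SR R n) (ha : MvPowerSeries.constantCoeff a = 0)
    (hb : MvPowerSeries.constantCoeff b = 0) (P' φ : (SR R n)[X]) (hW : Weier a b ha P' φ) (l : Fin (n + 2) → OR R n) :
    Nonempty (T1 R (germ R a b) ≃ₗ[R] (VV (PO P') ⧸ WN (PO P') (QO φ) (PO_monic P' hW.monic) dO l)) := by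
  obtain ⟨e1⟩ := T1_a a b ha hb P' φ hW (evO_surj a b ha hb P' φ hW) (fun H => evO_ker a b ha hb P' φ hW H) l
  obtain ⟨e2⟩ := T1_b a b ha hb P' φ hW (fun H => evO_ker a b ha hb P' φ hW H)
  exact ⟨e2.trans e1.symm⟩

theorem sp_germ (k : Type*) [Field k] {n : ℕ} (a b : SR (PowerSeries k) n) :
    (fun j => sp k (germ (PowerSeries k) a b j)) = germ k (sp k a) (sp k b) := by
  funext j
  refine Fin.cases ?_ (fun j => ?_) j
  · rfl
  · refine Fin.cases ?_ (fun i => ?_) j
    · rfl
    · simp [germ, sp]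

theorem germ_const {R : Type*} [CommRing R] {n : ℕ} (a b : SR R n) (ha : MvPowerSeries.constantCoeff a = 0)
    (hb : MvPowerSeries.constantCoeff b = 0) (j : Fin (n + 2)) : MvPowerSeries.constantCoeff (germ R a b j) = 0 := by
  refine Fin.cases ?_ (fun j => ?_) j
  · exact hb
  · refine Fin.cases ?_ (fun i => ?_) j
    · exact ha
    · simp [germ]

theorem st_transfer (k : Type) [Field k] {n : ℕ} (a b : SR (PowerSeries k) n) (ha : MvPowerSeries.constantCoeff a = 0)
    (hb : MvPowerSeries.constantCoeff b = 0) (P' φ : (SR (PowerSeries k) n)[X]) (hW : Weier a b ha P' φ)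
    (l : Fin (n + 2) → OR (PowerSeries k) n) (e : ℕ)
    (hst : ∀ z : T1 (PowerSeries k) (germ (PowerSeries k) a b), (PowerSeries.X : PowerSeries k) ^ e • z = 0)
    (v : VV (PO P')) : sO k (n + 2) ^ e • v ∈ WN (PO P') (QO φ) (PO_monic P' hW.monic) dO l := by
  obtain ⟨f⟩ := T1_equiv a b ha hb P' φ hW l
  have h1 := hst (f.symm (Submodule.Quotient.mk v))
  rw [← map_smul, LinearEquiv.map_eq_zero_iff] at h1
  have h2 : (PowerSeries.X : PowerSeries k) ^ e • (Submodule.Quotient.mk v :
      VV (PO P') ⧸ WN (PO P') (QO φ) (PO_monic P' hW.monic) dO l) =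
      Submodule.Quotient.mk ((sO k (n + 2)) ^ e • v) := by
    rw [← Submodule.Quotient.mk_smul]
    congr 1
    rw [← algebraMap_smul (OR (PowerSeries k) n) ((PowerSeries.X : PowerSeries k) ^ e) v, map_pow]
    rfl
  rw [h2, Submodule.Quotient.mk_eq_zero] at h1
  exact h1

/-- `V/(WN + sV)` is `T^1` of the special fibre -/
theorem T1_special (k : Type) [Field k] {n : ℕ} (a b : SR (PowerSeries k) n) (ha : MvPowerSeries.constantCoeff a = 0)
    (hb : MvPowerSeries.constantCoeff b = 0) (P' φ : (SR (PowerSeries k) n)[X]) (hW : Weier a b ha P' φ)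
    (l : Fin (n + 2) → OR (PowerSeries k) n) :
    Nonempty ((VV (PO P') ⧸ (WN (PO P') (QO φ) (PO_monic P' hW.monic) dO l ⊔ sTop (PO P'))) ≃ₗ[k]
      T1 k (germ k (sp k a) (sp k b))) := by
  obtain ⟨f⟩ := T1_equiv a b ha hb P' φ hW l
  have h0 := T1_sp k (germ (PowerSeries k) a b) (germ_const a b ha hb)
  rw [sp_germ] at h0
  obtain ⟨π, hπ1, hπ2, hπ3⟩ := h0
  let W := WN (PO P') (QO φ) (PO_monic P' hW.monic) dO l
  let ρ : VV (PO P') →ₗ[k] T1 k (germ k (sp k a) (sp k b)) :=
    { toFun := fun v => π (f.symm (Submodule.Quotient.mk v))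
      map_add' := fun v w => by rw [Submodule.Quotient.mk_add, map_add, map_add]
      map_smul' := fun c v => by
        have h1 : (Submodule.Quotient.mk (c • v) : VV (PO P') ⧸ W) =
            (PowerSeries.C c : PowerSeries k) • (Submodule.Quotient.mk v : VV (PO P') ⧸ W) := by
          rw [← Submodule.Quotient.mk_smul]
          congr 1
          rw [← algebraMap_smul (PowerSeries k) c v]
          rfl
        rw [h1, map_smul, hπ3]
        rfl }
  have hρ : Function.Surjective ρ := by
    intro z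
    obtain ⟨y, hy⟩ := hπ1 z
    obtain ⟨v, hv⟩ := Submodule.Quotient.mk_surjective _ (f y)
    refine ⟨v, ?_⟩
    show π (f.symm (Submodule.Quotient.mk v)) = z
    rw [hv, LinearEquiv.symm_apply_apply, hy]
  have hker : LinearMap.ker ρ = (W ⊔ sTop (PO P')).restrictScalars k := by
    ext v
    rw [LinearMap.mem_ker, Submodule.restrictScalars_mem]
    show π (f.symm (Submodule.Quotient.mk v)) = 0 ↔ _
    rw [hπ2]
    constructor
    · rintro ⟨w, hw⟩
      obtain ⟨u, hu⟩ := Submodule.Quotient.mk_surjective _ (f w)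
      have h1 : (Submodule.Quotient.mk v : VV (PO P') ⧸ W) =
          (PowerSeries.X : PowerSeries k) • Submodule.Quotient.mk u := by
        rw [hu, ← map_smul, ← hw, LinearEquiv.apply_symm_apply]
      have h2 : (PowerSeries.X : PowerSeries k) • (Submodule.Quotient.mk u : VV (PO P') ⧸ W) =
          Submodule.Quotient.mk (sO k (n + 2) • u) := by
        rw [← Submodule.Quotient.mk_smul]
        congr 1
        rw [← algebraMap_smul (OR (PowerSeries k) n) (PowerSeries.X : PowerSeries k) u]
        rfl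
      rw [h2, Submodule.Quotient.eq] at h1
      have h3 : v = (v - sO k (n + 2) • u) + sO k (n + 2) • u := by abel
      rw [h3]
      exact Submodule.add_mem _ (Submodule.mem_sup_left h1) (Submodule.mem_sup_right ⟨u, rfl⟩)
    · intro hv
      obtain ⟨w, hw, y, hy, hwy⟩ := Submodule.mem_sup.1 hv
      obtain ⟨u, hu⟩ := hy
      refine ⟨f.symm (Submodule.Quotient.mk u), ?_⟩
      rw [← map_smul]
      congr 1
      rw [← Submodule.Quotient.mk_smul, Submodule.Quotient.eq]
      have h3 : v - (PowerSeries.X : PowerSeries k) • u = w := by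
        rw [← algebraMap_smul (OR (PowerSeries k) n) (PowerSeries.X : PowerSeries k) u, ← hwy, ← hu]
        show w + sO k (n + 2) • u - sO k (n + 2) • u = w
        abel
      rw [h3]
      exact hw
  exact ⟨(Submodule.Quotient.restrictScalarsEquiv k (W ⊔ sTop (PO P'))).symm.trans
    ((Submodule.quotEquivOfEq _ _ hker.symm).trans (LinearMap.quotKerEquivOfSurjective ρ hρ))⟩

end Pool.Agent.LibMF6
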