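import Pool.Agent.LibMF6.F2
import Pool.Agent.LibMF6.F3
import Pool.Agent.LibMF6.B8
import Pool.Agent.LibMF6.B9
import Pool.Agent.LibMC10.PQ2

set_option autoImplicit false

/-! Mond's conjecture for germs of corank at most one. -/

namespace Pool.Agent.LibMF6

open Polynomial

theorem QO_degree {R : Type*} [CommRing R] {n : ℕ} (P' φ : (SR R n)[X]) (hP' : P'.Monic) (hpos : 0 < P'.natDegree)
    (hφ : φ.degree < P'.degree) : (QO φ).degree < (PO P').degree := by
  have hnt : Nontrivial (SR R n) := by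
    by_contra h
    rw [not_nontrivial_iff_subsingleton] at h
    have h1 : P' = 0 := Subsingleton.elim _ _
    rw [h1] at hpos
    simp at hpos
  have hnt2 : Nontrivial (OR R n) := by
    have hR : Nontrivial R := by
      by_contra h
      rw [not_nontrivial_iff_subsingleton] at h
      have h1 : (1 : SR R n) = 0 := by
        ext m
        exact Subsingleton.elim _ _
      exact one_ne_zero h1
    infer_instance
  have h1 : (PO P').degree = P'.degree := hP'.degree_map _
  have h2 : (φ.map (iot : SR R n →ₐ[R] OR R n).toRingHom).degree < P'.degree :=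
    lt_of_le_of_lt (Polynomial.degree_map_le) hφ
  have h3 : (C (MvPowerSeries.X 0 : OR R n)).degree < P'.degree := by
    refine lt_of_le_of_lt Polynomial.degree_C_le ?_
    rw [Polynomial.degree_eq_natDegree hP'.ne_zero]
    exact_mod_cast hpos
  rw [h1]
  refine lt_of_le_of_lt (Polynomial.degree_sub_le _ _) (max_lt h2 h3)

theorem PO_pos {R : Type*} [CommRing R] {n : ℕ} (P' φ : (SR R n)[X]) (hP' : P'.Monic) (hpos : 0 < P'.natDegree)
    (hφ : φ.degree < P'.degree) : 0 < (PO P').natDegree := by
  have h1 := QO_degree P' φ hP' hpos hφ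
  by_contra h
  have h0 : (PO P').natDegree = 0 := by omega
  have h2 : PO P' = 1 := Polynomial.eq_one_of_monic_natDegree_zero (PO_monic P' hP') h0
  have hnt : Nontrivial (SR R n) := by
    by_contra h
    rw [not_nontrivial_iff_subsingleton] at h
    have h1 : P' = 0 := Subsingleton.elim _ _
    rw [h1] at hpos
    simp at hpos
  have hR : Nontrivial R := by
    by_contra h
    rw [not_nontrivial_iff_subsingleton] at h
    have h1 : (1 : SR R n) = 0 := by
      ext m
      exact Subsingleton.elim _ _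
    exact one_ne_zero h1
  have h3 : (PO P').natDegree = P'.natDegree := hP'.natDegree_map _
  omega

theorem mond (k : Type) [Field k] [CharZero k] (n : ℕ) (a b : SR (PowerSeries k) n)
    (ha : MvPowerSeries.constantCoeff a = 0) (hb : MvPowerSeries.constantCoeff b = 0)
    (hx : ∃ i, MvPowerSeries.coeff (Finsupp.single 0 i) (sp k a) ≠ 0)
    (hA : Module.Finite k (T1 k (germ k (sp k a) (sp k b))))
    (e : ℕ) (hst : ∀ z : T1 (PowerSeries k) (germ (PowerSeries k) a b), (PowerSeries.X : PowerSeries k) ^ e • z = 0)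
    (G : OR (PowerSeries k) n) (hG : ∀ h, MvPowerSeries.subst (germ (PowerSeries k) a b) h = 0 ↔ G ∣ h) :
    Module.rank (PowerSeries k) (Localization.Away (Ideal.Quotient.mk (Pool.Agent.LibMF6.JJ k G) G)) < Cardinal.aleph0 ∧
    Module.finrank k (T1 k (germ k (sp k a) (sp k b))) ≤ siersma k G ∧
    ∀ (w : Fin (n + 1) → ℕ) (da db : ℕ), 0 < db → IsWH w da (sp k a) → IsWH w db (sp k b) →
      Module.finrank k (T1 k (germ k (sp k a) (sp k b))) = siersma k G := by
  obtain ⟨P', φ, hW⟩ := weier k n a b ha hx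
  have hP := PO_monic P' hW.monic
  have hm := PO_pos P' φ hW.monic hW.pos hW.deg
  have hQ := QO_degree P' φ hW.monic hW.pos hW.deg
  have hker := fun H => evO_ker a b ha hb P' φ hW H
  have hG' : ∀ h, FF a b ha hb h = 0 ↔ G ∣ h := by
    intro h
    rw [← hG h]
    show MvPowerSeries.substAlgHom (hs_germ a b ha hb) h = 0 ↔ _
    rw [MvPowerSeries.substAlgHom_apply]
  obtain ⟨ε, hε⟩ := G_gen k a b ha hb P' φ hW hker (fun _ => 0) e
    (st_transfer k a b ha hb P' φ hW (fun _ => 0) e hst) G hG'
  let l : Fin (n + 2) → OR (PowerSeries k) n := fun j => ((ε⁻¹ : (OR (PowerSeries k) n)ˣ) : OR (PowerSeries k) n) *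
    MvPowerSeries.pderiv (PowerSeries k) j (ε : OR (PowerSeries k) n)
  have hl : ∀ j, (ε : OR (PowerSeries k) n) * l j = MvPowerSeries.pderiv (PowerSeries k) j (ε : OR (PowerSeries k) n) := by
    intro j
    show (ε : OR (PowerSeries k) n) * (((ε⁻¹ : (OR (PowerSeries k) n)ˣ) : OR (PowerSeries k) n) * _) = _
    rw [← mul_assoc, Units.mul_inv, one_mul]
  have hGu : ¬ IsUnit (GG (PO P') (QO φ)) := by
    intro hu
    have h1 : IsUnit G := by rw [hε]; exact ε.isUnit.mul hu
    have h2 : FF a b ha hb 1 = 0 := (hG' 1).2 h1.dvd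
    rw [map_one] at h2
    exact one_ne_zero h2
  have hG0 : MvPowerSeries.constantCoeff (sp k (GG (PO P') (QO φ))) = 0 := by
    by_contra h0
    apply hGu
    rw [MvPowerSeries.isUnit_iff_constantCoeff, PowerSeries.isUnit_iff_constantCoeff, isUnit_iff_ne_zero]
    intro h1
    apply h0
    unfold sp
    rw [← MvPowerSeries.coeff_zero_eq_constantCoeff_apply, MvPowerSeries.coeff_map,
      MvPowerSeries.coeff_zero_eq_constantCoeff_apply]
    exact h1
  obtain ⟨f⟩ := T1_special k a b ha hb P' φ hW l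
  have hA' : Module.Finite k (VV (PO P') ⧸ (WN (PO P') (QO φ) hP dO l ⊔ sTop (PO P'))) := Module.Finite.equiv f.symm
  have hfin : Module.finrank k (T1 k (germ k (sp k a) (sp k b))) =
      Module.finrank k (VV (PO P') ⧸ (WN (PO P') (QO φ) hP dO l ⊔ sTop (PO P'))) := (LinearEquiv.finrank_eq f).symm
  have hreg := fun h v hv => s_reg k (by omega : 2 ≤ n + 2) (PO P') (QO φ) hP hm hQ (dO (R := PowerSeries k) (n := n)) l h v hv
  obtain ⟨hF, hS, hR⟩ := Pool.Agent.LibMC10.PQ_final (PO P') (QO φ) hP hm (ε : OR (PowerSeries k) n) ε.isUnit l hl hG0 hA' e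
    (st_transfer k a b ha hb P' φ hW l e hst) hreg
  rw [← hε] at hS hR
  have hle : WM (PO P') (QO φ) hP dO l ⊔ sTop (PO P') ≤ WN (PO P') (QO φ) hP dO l ⊔ sTop (PO P') :=
    sup_le_sup_right le_sup_left _
  refine ⟨hR, ?_, ?_⟩
  · rw [hfin, hS]
    have := hF
    exact LinearMap.finrank_le_finrank_of_surjective
      (f := ((Submodule.factor hle).restrictScalars k)) (Submodule.factor_surjective hle)
  · intro w da db hdb hwa hwb
    have h1 := wh_mem k a b ha hb P' φ hW w da db hdb hwa hwb l
    have h2 : WN (PO P') (QO φ) hP dO l ⊔ sTop (PO P') = WM (PO P') (QO φ) hP dO l ⊔ sTop (PO P') := by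
      refine le_antisymm (sup_le (sup_le le_sup_left ?_) le_sup_right) hle
      rw [Submodule.span_le]
      rintro _ ⟨z, rfl⟩
      show e0 (PO P') z ∈ WM (PO P') (QO φ) hP dO l ⊔ sTop (PO P')
      have h3 : e0 (PO P') z = (e0 (PO P') z - tau (PO P') hP z • e0 (PO P') (b0 (PO P'))) +
          tau (PO P') hP z • e0 (PO P') (b0 (PO P')) := by abel
      rw [h3]
      refine Submodule.add_mem _ (Submodule.mem_sup_left (Submodule.mem_sup_left (e0_sub_mem (PO P') (QO φ) hP hm z)))
        (Submodule.smul_mem _ _ h1)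
    rw [hfin, hS, h2]
    rfl

end Pool.Agent.LibMF6
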